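import Pool.Agent.P.MP_390d44_co.Nec

/-! Adding a point that lies on no line of the configuration. -/

namespace Pool.Agent.P.MP_390d44_co

open Finset

variable {a b c l l' p p' q x y z A B W L : Sub} {X Y Z : Finset Sub}

lemma line_restrict (hX : IsPts X) (hY : IsPts Y) (hl : l ∈ lines Y)
    (h : ∀ y ∈ Y, y ≤ l → y ∈ X) : l ∈ lines X := by
  obtain ⟨r, a, ha, b, hb, e, a1, b1⟩ := (mem_lines hY).1 hl
  exact (mem_lines hX).2 ⟨r, a, h a ha a1, b, h b hb b1, e, a1, b1⟩

lemma plane_restrict (hX : IsPts X) (hY : IsPts Y) (hp : p ∈ planes Y)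
    (h : ∀ y ∈ Y, y ≤ p → y ∈ X) : p ∈ planes X := by
  obtain ⟨r, a, ha, l, hl, e, a1, l1⟩ := (mem_planes hY).1 hp
  exact (mem_planes hX).2 ⟨r, a, h a ha a1, l,
    line_restrict hX hY hl fun y hy e => h y hy (e.trans l1), e, a1, l1⟩

lemma ins_of_not_le (h : ¬ x ≤ W) : ∀ y ∈ insert x X, y ≤ W → y ∈ X := fun _ hy e =>
  (mem_insert.1 hy).resolve_left fun e' => h (e' ▸ e)

lemma pts_ins_of_le (h : x ≤ W) : pts (insert x X) W = insert x (pts X W) := by
  simp only [pts, filter_insert, if_pos h]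

lemma pts_ins_of_not (h : ¬ x ≤ W) : pts (insert x X) W = pts X W := by
  simp only [pts, filter_insert, if_neg h]

lemma off_ins_of_le (h : x ≤ W) : off (insert x X) W = off X W := by
  simp only [off, filter_insert, h, not_true, if_false]

lemma off_ins_of_not (h : ¬ x ≤ W) : off (insert x X) W = insert x (off X W) := by
  simp only [off, filter_insert, if_pos h]

/-- `x` is a new point on no line of `X`. -/
structure Av (x : Sub) (X : Finset Sub) : Prop where
  pt : rk x = 1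
  nm : x ∉ X
  nl : ∀ l ∈ lines X, ¬ x ≤ l

lemma Av.mono (h : Av x X) (hY : Y ⊆ X) : Av x Y :=
  ⟨h.pt, fun e => h.nm (hY e), fun l hl => h.nl l (lines_mono hY hl)⟩

lemma Av.ne (h : Av x X) (ha : a ∈ X) : x ≠ a := fun e => h.nm (e ▸ ha)

lemma Av.eq (h : Av x X) (hX : IsPts X) (ha : a ∈ X) (hb : b ∈ X) (e : b ≤ x ⊔ a) : a = b :=
  by_contra fun hne => h.nl _ (sup_mem_lines hX ha hb hne) (by
    rw [line_eq (rk_pp h.pt (hX a ha) (h.ne ha)) (hX a ha) (hX b hb) hne le_sup_right e]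
    exact le_sup_left)

lemma lines_ins (hX : IsPts X) (h : Av x X) :
    lines (insert x X) = lines X ∪ X.image (x ⊔ ·) := by
  ext l
  simp only [mem_union, mem_image]
  constructor
  · intro hl
    by_cases e : x ≤ l
    · obtain ⟨a, ha, a1, a2⟩ := exists_ne (hX.ins h.pt) hl x
      have ha := (mem_insert.1 ha).resolve_left a2
      exact Or.inr ⟨a, ha, line_eq (rk_line hl) h.pt (hX a ha) a2.symm e a1⟩
    · exact Or.inl (line_restrict hX (hX.ins h.pt) hl (ins_of_not_le e))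
  · rintro (hl | ⟨a, ha, rfl⟩)
    · exact lines_mono (subset_insert _ _) hl
    · exact sup_mem_lines (hX.ins h.pt) (mem_insert_self _ _) (mem_insert_of_mem ha) (h.ne ha)

lemma Av.inj (hX : IsPts X) (h : Av x X) : Set.InjOn (x ⊔ ·) X := fun a ha b hb e =>
  h.eq hX ha hb (by have e : x ⊔ a = x ⊔ b := e; rw [e]; exact le_sup_right)

lemma card_lines_ins (hX : IsPts X) (h : Av x X) :
    (lines (insert x X)).card = (lines X).card + X.card := by
  rw [lines_ins hX h, card_union_of_disjoint, card_image_of_injOn (h.inj hX)]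
  exact disjoint_left.2 fun l h1 h2 => by
    obtain ⟨a, -, rfl⟩ := mem_image.1 h2
    exact h.nl _ h1 le_sup_left

lemma card_lns_ins (hX : IsPts X) (h : Av x X) (hW : x ≤ W) :
    (lns (insert x X) W).card = (lns X W).card + (pts X W).card := by
  rw [← lines_pts (hX.ins h.pt), ← lines_pts hX, pts_ins_of_le hW,
    card_lines_ins (hX.mono pts_sub) (h.mono pts_sub)]

lemma pts_new (hX : IsPts X) (h : Av x X) (ha : a ∈ X) : pts (insert x X) (x ⊔ a) = {x, a} := by
  rw [pts_ins_of_le le_sup_left]; congr 1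
  ext b; simp only [mem_pts, mem_singleton]
  exact ⟨fun hb => (h.eq hX ha hb.1 hb.2).symm, fun e => by rw [e]; exact ⟨ha, le_sup_right⟩⟩

lemma exists_ins_line (hX : IsPts X) (h : Av x X) (hp : p ∈ planes (insert x X)) (e : x ≤ p) :
    ∃ l ∈ lines X, x ⊔ l = p := by
  obtain ⟨a, ha, a1, a2⟩ := exists_off (l := x) hp (by rw [h.pt]; omega)
  have ha := (mem_insert.1 ha).resolve_left fun e => a2 e.le
  obtain ⟨b, hb, b1, b2⟩ := exists_off hp (rk_pp h.pt (hX a ha) (h.ne ha)).le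
  have hb := (mem_insert.1 hb).resolve_left fun e => b2 (e ▸ le_sup_left)
  have hl := sup_mem_lines hX ha hb fun e => b2 (e ▸ le_sup_right)
  exact ⟨_, hl, plane_eq (rk_plane hp) h.pt (rk_line hl) (h.nl _ hl) e (sup_le a1 b1)⟩

lemma ins_plane (hX : IsPts X) (h : Av x X) (hl : l ∈ lines X) : x ⊔ l ∈ planes (insert x X) :=
  sup_mem_planes (hX.ins h.pt) (mem_insert_self _ _) (lines_mono (subset_insert _ _) hl) (h.nl l hl)

/-- a new plane through `x` contains only one line of `X`. -/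
lemma new_plane (hX : IsPts X) (h : Av x X) (hl : l ∈ lines X) (hn : x ⊔ l ∉ planes X) (ha : a ∈ X)
    (e : a ≤ x ⊔ l) : a ≤ l := by_contra fun e' => hn
  ((mem_planes hX).2 ⟨rk_pl h.pt (rk_line hl) (h.nl l hl), a, ha, l, hl, e', e, le_sup_right⟩)

lemma new_plane' (hX : IsPts X) (h : Av x X) (hl : l ∈ lines X) (hn : x ⊔ l ∉ planes X)
    (hl' : l' ∈ lines X) (e : l' ≤ x ⊔ l) : l' = l :=
  eq_of_rk (line_le_of_pts hl' fun a ha a1 => new_plane hX h hl hn ha (a1.trans e))
    (by rw [rk_line hl, rk_line hl'])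

theorem card_planes_ins (hX : IsPts X) (h : Av x X) :
    (planes (insert x X)).card + ∑ p ∈ (planes X).filter (x ≤ ·), (lns X p).card
      = (planes X).card + (lines X).card := by
  have e1 : planes (insert x X) =
      planes X ∪ ((lines X).filter fun l => ¬ x ⊔ l ∈ planes X).image (x ⊔ ·) := by
    ext p
    simp only [mem_union, mem_image, mem_filter]
    constructor
    · intro hp
      by_cases e : x ≤ p
      · obtain ⟨l, hl, rfl⟩ := exists_ins_line hX h hp e
        exact or_iff_not_imp_left.2 fun e => ⟨l, ⟨hl, e⟩, rfl⟩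
      · exact Or.inl (plane_restrict hX (hX.ins h.pt) hp (ins_of_not_le e))
    · rintro (hp | ⟨l, ⟨hl, -⟩, rfl⟩)
      · exact planes_mono (subset_insert _ _) hp
      · exact ins_plane hX h hl
  have e2 : ((lines X).filter fun l => x ⊔ l ∈ planes X).card =
      ∑ p ∈ (planes X).filter (x ≤ ·), (lns X p).card := by
    rw [card_eq_sum_card_fiberwise (s := (lines X).filter fun l => x ⊔ l ∈ planes X)
      (f := (x ⊔ ·)) (t := (planes X).filter (x ≤ ·)) fun l hl =>
        mem_coe.2 (mem_filter.2 ⟨(mem_filter.1 (mem_coe.1 hl)).2, le_sup_left⟩)]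
    refine sum_congr rfl fun p hp => congrArg card ?_
    ext l; simp only [mem_filter, mem_lns]
    obtain ⟨p1, p2⟩ := mem_filter.1 hp
    refine ⟨fun ⟨⟨h1, _⟩, e⟩ => ⟨h1, e ▸ le_sup_right⟩, fun ⟨h1, h2⟩ => ?_⟩
    have := plane_eq (rk_plane p1) h.pt (rk_line h1) (h.nl l h1) p2 h2
    exact ⟨⟨h1, this ▸ p1⟩, this⟩
  rw [e1, card_union_of_disjoint, card_image_of_injOn, ← e2, add_assoc, add_comm (card _) (card _),
    card_filter_add_card_filter_not]
  · intro l hl l' hl' e
    have e : x ⊔ l = x ⊔ l' := e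
    exact (new_plane' hX h (mem_filter.1 hl).1 (mem_filter.1 hl).2 (mem_filter.1 hl').1
      (e ▸ le_sup_right)).symm
  · exact disjoint_left.2 fun p h1 h2 => by
      obtain ⟨l, hl, rfl⟩ := mem_image.1 h2
      exact (mem_filter.1 hl).2 h1

lemma skew_ins (hZ : IsPts Z) (h : Av x Z) (hL : rk L = 2) (hx : ¬ x ≤ L) :
    skew (insert x Z) L = skew Z L ∪ (off Z (x ⊔ L)).image (x ⊔ ·) := by
  ext l
  simp only [mem_skew, lines_ins hZ h, mem_union, mem_image, mem_off]
  constructor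
  · rintro ⟨h1 | ⟨a, ha, rfl⟩, h2⟩
    · exact Or.inl ⟨h1, h2⟩
    · exact Or.inr ⟨a, ⟨ha, (skew_iff hL h.pt (hZ a ha) (h.ne ha) hx).1 h2⟩, rfl⟩
  · rintro (⟨h1, h2⟩ | ⟨a, ⟨ha, h2⟩, rfl⟩)
    · exact ⟨Or.inl h1, h2⟩
    · exact ⟨Or.inr ⟨a, ha, rfl⟩, (skew_iff hL h.pt (hZ a ha) (h.ne ha) hx).2 h2⟩

lemma disj_ins (h : Av x Z) (L : Sub) (T : Finset Sub) :
    Disjoint (skew Z L) (T.image (x ⊔ ·)) := disjoint_left.2 fun l h1 h2 => by
  obtain ⟨a, -, rfl⟩ := mem_image.1 h2
  exact h.nl _ (mem_skew.1 h1).1 le_sup_left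

lemma card_skew_ins (hZ : IsPts Z) (h : Av x Z) (hL : rk L = 2) (hx : ¬ x ≤ L) :
    (skew (insert x Z) L).card + (pts Z (x ⊔ L)).card = (skew Z L).card + Z.card := by
  rw [skew_ins hZ h hL hx, card_union_of_disjoint (disj_ins h _ _),
    card_image_of_injOn ((h.inj hZ).mono fun a ha => off_sub ha), ← card_pts_off Z (x ⊔ L)]
  omega

lemma skew_two (hZ : IsPts Z) (h : Av x Z) (hL : rk L = 2) (hx : ¬ x ≤ L)
    (h2 : ∀ l ∈ skew Z L, (pts Z l).card = 2) :
    ∀ l ∈ skew (insert x Z) L, (pts (insert x Z) l).card = 2 := by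
  intro l hl
  rw [skew_ins hZ h hL hx] at hl
  rcases mem_union.1 hl with hl | hl
  · rw [pts_ins_of_not (h.nl l (mem_skew.1 hl).1), h2 l hl]
  · obtain ⟨a, ha, rfl⟩ := mem_image.1 hl
    rw [pts_new hZ h (off_sub ha), card_pair (h.ne (off_sub ha))]

/-- points of `Z` on lines of `Z` through `q`. -/
noncomputable def vv (Z : Finset Sub) (q : Sub) : Finset Sub := Z.filter fun z => q ⊔ z ∈ lines Z

/-- the weight of a point `q` of `L`. -/
noncomputable def wt (Z : Finset Sub) (L q : Sub) : ℕ :=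
  ((skew Z L).filter fun l => q ⊔ l ∈ planes Z).card

lemma ww_sum : (ww Y Z L).card = ∑ y ∈ Y, wt Z L y := by
  simp only [ww, wt, card_filter, sum_product]

lemma vv_ins (hZ : IsPts Z) (hq : rk q = 1) (hqZ : q ∉ Z) (h : Av x (insert q Z)) :
    vv (insert x Z) q = vv Z q := by
  have hZ' := hZ.ins hq
  have h' := h.mono (subset_insert q Z)
  ext z
  simp only [vv, mem_filter, mem_insert, lines_ins hZ h', mem_union, mem_image]
  constructor
  · rintro ⟨rfl | hz, h1 | ⟨a, ha, e⟩⟩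
    · exact absurd le_sup_right (h'.nl _ h1)
    · exact absurd (h.eq hZ' (mem_insert_of_mem ha) (mem_insert_self _ _) (e ▸ le_sup_left))
        fun e => hqZ (e ▸ ha)
    · exact ⟨hz, h1⟩
    · exact absurd (h.eq hZ' (mem_insert_of_mem ha) (mem_insert_self _ _) (e ▸ le_sup_left))
        fun e => hqZ (e ▸ ha)
  · rintro ⟨hz, h1⟩; exact ⟨Or.inr hz, Or.inl h1⟩

lemma wt_ins (hZ : IsPts Z) (hL : rk L = 2) (hoff : ∀ z ∈ Z, ¬ z ≤ L) (hq : rk q = 1) (hqL : q ≤ L)
    (hx : ¬ x ≤ L) (h : Av x (insert q Z))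
    (hp : ∀ p ∈ planes (insert q Z), x ≤ p → q ≤ p → L ≤ p) :
    wt (insert x Z) L q = wt Z L q + (off (vv Z q) (x ⊔ L)).card := by
  have hZ' := hZ.ins hq
  have h' := h.mono (subset_insert q Z)
  have hZx := hZ.ins h.pt
  unfold wt
  rw [skew_ins hZ h' hL hx, filter_union, card_union_of_disjoint
    (disjoint_filter_filter (disj_ins h' _ _)), filter_image,
    card_image_of_injOn ((h'.inj hZ).mono fun a ha => off_sub (mem_filter.1 ha).1)]
  congr 2
  · refine filter_congr fun l hl => ⟨fun e => plane_restrict hZ hZx e (ins_of_not_le fun e' => ?_),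
      fun e => planes_mono (subset_insert _ _) e⟩
    obtain ⟨l1, l2⟩ := mem_skew.1 hl
    exact skew_not_le hL (rk_line l1) l2 (rk_plane e) le_sup_right (hp _ (sup_mem_planes hZ'
      (mem_insert_self _ _) (lines_mono (subset_insert _ _) l1) (not_le_skew hq hqL l2)) e'
      le_sup_left)
  · ext z
    simp only [mem_filter, mem_off, vv]
    constructor
    · rintro ⟨⟨z1, z2⟩, e⟩
      refine ⟨⟨z1, ?_⟩, z2⟩
      have r := rk_pp h.pt (hZ z z1) (h'.ne z1)
      obtain ⟨u, hu, u1, u2⟩ := exists_off e r.le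
      have hu := (mem_insert.1 hu).resolve_left fun e => u2 (e ▸ le_sup_left)
      have zu : z ≠ u := fun e => u2 (e ▸ le_sup_right)
      have hl := sup_mem_lines hZ z1 hu zu
      have hle : z ⊔ u ≤ q ⊔ (x ⊔ z) := sup_le (le_sup_right.trans le_sup_right) u1
      by_cases hqq : q ≤ z ⊔ u
      · rwa [line_eq (rk_line hl) hq (hZ z z1) (fun e => hoff z z1 (e ▸ hqL)) hqq le_sup_left]
      · have e' := plane_eq (rk_plane e) hq (rk_line hl) hqq le_sup_left hle
        exact absurd (hp _ (e' ▸ sup_mem_planes hZ' (mem_insert_self _ _)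
          (lines_mono (subset_insert _ _) hl) hqq) (le_sup_left.trans le_sup_right) le_sup_left)
          (skew_not_le hL r ((skew_iff hL h.pt (hZ z z1) (h'.ne z1) hx).2 z2) (rk_plane e)
            le_sup_right)
    · rintro ⟨⟨z1, e⟩, z2⟩
      refine ⟨⟨z1, z2⟩, ?_⟩
      rw [sup_left_comm]
      exact ins_plane hZ h' e

end Pool.Agent.P.MP_390d44_co
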