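import Pool.Agent.P.MP_390d44_co.Cover

/-! Transfer between affine and projective space. -/

namespace Pool.Agent.P.MP_390d44_co

open Finset

abbrev E3 := Fin 3 → ℝ

structure Chart where
  u : V
  A : E3 →ₗ[ℝ] V
  f : Fn
  t : V →ₗ[ℝ] E3
  fu : f u = 1
  fA : ∀ x, f (A x) = 0
  tu : t u = 0
  tA : ∀ x, t (A x) = x
  sj : ∀ v, f v = 1 → u + A (t v) = v

lemma exists_chart (X : Finset Sub) (hX : IsPts X) :
    ∃ C : Chart, ∀ x ∈ X, ¬ x ≤ LinearMap.ker C.f := by
  let e : V := Pi.single 0 1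
  have e0 : e ≠ 0 := by simp [e]
  obtain ⟨f, -, hf⟩ := choose_fn ⊥ (insert (Submodule.span ℝ {e}) X) fun W hW => by
    rcases mem_insert.1 hW with rfl | hW
    · exact not_le_of_rk (by rw [rk_bot, rk, finrank_span_singleton e0]; omega)
    · exact not_le_of_rk (by rw [rk_bot, hX W hW]; omega)
  have fe : f e ≠ 0 := fun h => hf _ (mem_insert_self _ _)
    ((Submodule.span_singleton_le_iff_mem _ _).2 h)
  let i : E3 →ₗ[ℝ] V :=
    { toFun := fun x => Fin.cons 0 x
      map_add' := fun x y => by ext k; refine Fin.cases ?_ (fun k => ?_) k <;> simp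
      map_smul' := fun c x => by ext k; refine Fin.cases ?_ (fun k => ?_) k <;> simp }
  let t : V →ₗ[ℝ] E3 :=
    { toFun := fun v => fun k => v k.succ
      map_add' := fun x y => by ext k; simp
      map_smul' := fun c x => by ext k; simp }
  have te : t e = 0 := by ext k; simp [t, e]
  have ti : ∀ x, t (i x) = x := fun x => by ext k; simp [t, i]
  have it : ∀ v, i (t v) = v - v 0 • e := fun v => by
    ext k; refine Fin.cases ?_ (fun k => ?_) k <;> simp [t, i, e]
  refine ⟨⟨(f e)⁻¹ • e, i - ((f e)⁻¹ • f.comp i).smulRight e, f, t, by simp [fe], fun x => ?_,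
    by simp [te], fun x => by simp [te, ti], fun v hv => ?_⟩,
    fun x hx => hf x (mem_insert_of_mem hx)⟩
  · simp [mul_right_comm, fe]
  · simp only [LinearMap.sub_apply, LinearMap.smulRight_apply, LinearMap.smul_apply,
      LinearMap.comp_apply, it, map_sub, map_smul, hv, smul_eq_mul]
    rw [mul_sub, mul_one, mul_left_comm, inv_mul_cancel₀ fe, sub_smul]
    simp

namespace Chart

variable (C : Chart) {x y a b c : E3} {W : Sub}

def h (x : E3) : V := C.u + C.A x

noncomputable def pt (x : E3) : Sub := Submodule.span ℝ {C.h x}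

def aff (W : Sub) : AffineSubspace ℝ E3 where
  carrier := {x | C.h x ∈ W}
  smul_vsub_vadd_mem' := fun c p1 p2 p3 h1 h2 h3 => by
    have : C.h (c • (p1 -ᵥ p2) +ᵥ p3) = c • (C.h p1 - C.h p2) + C.h p3 := by
      simp only [h, vsub_eq_sub, vadd_eq_add, map_add, map_smul, map_sub]; module
    change C.h _ ∈ W
    rw [this]; exact W.add_mem (W.smul_mem _ (W.sub_mem h1 h2)) h3

lemma fh (x : E3) : C.f (C.h x) = 1 := by simp [h, C.fu, C.fA]

lemma th (x : E3) : C.t (C.h x) = x := by simp [h, C.tu, C.tA]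

lemma mem_aff : x ∈ C.aff W ↔ C.pt x ≤ W := (Submodule.span_singleton_le_iff_mem _ _).symm

lemma rk_pt (x : E3) : rk (C.pt x) = 1 :=
  finrank_span_singleton fun e => by have := C.fh x; rw [e] at this; simp at this

lemma aff_span (S : Set E3) (ha : a ∈ S) :
    C.aff (Submodule.span ℝ (C.h '' S)) = affineSpan ℝ S := by
  refine le_antisymm (fun x hx => ?_) (affineSpan_le.2 fun x hx =>
    Submodule.subset_span ⟨x, hx, rfl⟩)
  have : Submodule.span ℝ (C.h '' S) ≤ (affineSpan ℝ S).direction.comap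
      (C.t - C.f.smulRight a) := Submodule.span_le.2 (by
    rintro _ ⟨y, hy, rfl⟩
    simpa [C.fh, C.th] using AffineSubspace.vsub_mem_direction (mem_affineSpan ℝ hy)
      (mem_affineSpan ℝ ha))
  have h1 := this hx
  simp only [Submodule.mem_comap, LinearMap.sub_apply, LinearMap.smulRight_apply, C.fh, C.th,
    one_smul] at h1
  simpa using AffineSubspace.vadd_mem_of_mem_direction h1 (mem_affineSpan ℝ ha)

lemma aff_two (a b : E3) : C.aff (C.pt a ⊔ C.pt b) = affineSpan ℝ {a, b} := by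
  rw [← C.aff_span _ (Set.mem_insert _ _), Set.image_pair, Submodule.span_insert]; rfl

lemma aff_three (a b c : E3) : C.aff (C.pt c ⊔ (C.pt a ⊔ C.pt b)) = affineSpan ℝ {c, a, b} := by
  rw [← C.aff_span _ (Set.mem_insert _ _), Set.image_insert_eq, Set.image_pair,
    Submodule.span_insert, Submodule.span_insert]; rfl

lemma pt_inj : Function.Injective C.pt := fun a b e => by
  have : a ∈ C.aff (C.pt b ⊔ C.pt b) := C.mem_aff.2 (e.le.trans le_sup_left)
  rw [C.aff_two] at this
  simpa using this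

lemma ncol : ¬ Collinear ℝ {c, a, b} ↔ a ≠ b ∧ ¬ C.pt c ≤ C.pt a ⊔ C.pt b := by
  rw [← C.mem_aff, C.aff_two]
  constructor
  · intro h
    exact ⟨fun e => h (by rw [e]; simpa using collinear_pair ℝ c b),
      fun e => h (collinear_insert_of_mem_affineSpan_pair e)⟩
  · rintro ⟨h1, h2⟩ h
    exact h2 (h.mem_affineSpan_of_mem_of_ne (by simp) (by simp) (by simp) h1)

end Chart

def dPlanes (X : Finset E3) : Set (AffineSubspace ℝ E3) :=
  {P | Module.finrank ℝ P.direction = 2 ∧ ∃ a ∈ X, ∃ b ∈ X, ∃ c ∈ X,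
    ¬ Collinear ℝ {a, b, c} ∧ a ∈ P ∧ b ∈ P ∧ c ∈ P}

lemma isPts_img (C : Chart) (X : Finset E3) : IsPts (X.image C.pt) := fun u hu => by
  obtain ⟨x, -, rfl⟩ := mem_image.1 hu; exact C.rk_pt x

lemma span_three {a b c : E3} (h : ¬ Collinear ℝ {a, b, c}) :
    Module.finrank ℝ (affineSpan ℝ {a, b, c}).direction = 2 := by
  have := (affineIndependent_iff_not_collinear_set.2 h).finrank_vectorSpan (n := 2) (by simp)
  rwa [direction_affineSpan, show ({a, b, c} : Set E3) = Set.range ![a, b, c] by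
    ext x; simp; tauto]

lemma ncard_planes (C : Chart) (X : Finset E3) :
    (dPlanes X).ncard = (planes (X.image C.pt)).card := by
  have hX := isPts_img C X
  have e : dPlanes X = C.aff '' (planes (X.image C.pt)) := by
    ext P
    constructor
    · rintro ⟨h1, c, hc, a, ha, b, hb, h, c1, a1, b1⟩
      obtain ⟨h2, h3⟩ := C.ncol.1 h
      refine ⟨_, sup_mem_planes hX (mem_image_of_mem _ hc) (sup_mem_lines hX
        (mem_image_of_mem _ ha) (mem_image_of_mem _ hb) fun e => h2 (C.pt_inj e)) h3, ?_⟩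
      rw [C.aff_three]
      have hle : affineSpan ℝ {c, a, b} ≤ P := affineSpan_le.2 (by
        rintro _ (rfl | rfl | rfl) <;> assumption)
      exact AffineSubspace.eq_of_direction_eq_of_nonempty_of_le (Submodule.eq_of_le_of_finrank_eq
        (AffineSubspace.direction_le hle) (by rw [h1, span_three h]))
        ⟨c, mem_affineSpan ℝ (by simp)⟩ hle
    · rintro ⟨W, hW, rfl⟩
      obtain ⟨r, u, hu, l, hl, h, u1, l1⟩ := (mem_planes hX).1 hW
      obtain ⟨r', v, hv, w, hw, h', v1, w1⟩ := (mem_lines hX).1 hl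
      obtain ⟨c, hc, rfl⟩ := mem_image.1 hu
      obtain ⟨a, ha, rfl⟩ := mem_image.1 hv
      obtain ⟨b, hb, rfl⟩ := mem_image.1 hw
      have e1 := line_eq r' (C.rk_pt a) (C.rk_pt b) h' v1 w1
      have nc := C.ncol.2 ⟨fun e => h' (by rw [e]), e1 ▸ h⟩
      refine ⟨?_, c, hc, a, ha, b, hb, nc, C.mem_aff.2 u1, C.mem_aff.2 (v1.trans l1),
        C.mem_aff.2 (w1.trans l1)⟩
      rw [← plane_eq r (C.rk_pt c) r' h u1 l1, ← e1, C.aff_three, span_three nc]
  rw [e, Set.InjOn.ncard_image, Set.ncard_coe_finset]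
  intro W hW W' hW' e
  refine eq_of_rk (plane_le_of_pts hW fun u hu e' => ?_) (by rw [rk_plane hW, rk_plane hW'])
  obtain ⟨x, -, rfl⟩ := mem_image.1 hu
  exact C.mem_aff.1 (e ▸ C.mem_aff.2 e')

theorem real_iff {n p : ℕ} :
    (∃ X : Finset E3, X.card = n ∧ (dPlanes X).ncard = p) ↔ Real n p := by
  constructor
  · rintro ⟨X, rfl, rfl⟩
    obtain ⟨C, -⟩ := exists_chart ∅ (by simp [IsPts])
    exact ⟨_, isPts_img C X, card_image_of_injective _ C.pt_inj, (ncard_planes C X).symm⟩
  · rintro ⟨Y, hY, rfl, rfl⟩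
    obtain ⟨C, hC⟩ := exists_chart Y hY
    obtain ⟨X, -, rfl⟩ := subset_set_image_iff.1 (show (Y : Set Sub) ⊆ C.pt '' Set.univ from
      fun y hy => by
        have h0 := hC y hy
        rw [le_ker (hY y hy)] at h0
        refine ⟨C.t ((C.f (rep y))⁻¹ • rep y), trivial, ?_⟩
        rw [Chart.pt, Chart.h, C.sj _ (by simp [h0]), Submodule.span_singleton_smul_eq
          (IsUnit.mk0 _ (inv_ne_zero h0))]
        exact ((exists_rep y).choose_spec (hY y hy)).symm)
    exact ⟨X, (card_image_of_injective _ C.pt_inj).symm, ncard_planes C X⟩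

end Pool.Agent.P.MP_390d44_co
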