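import Pool.Agent.P.MP_390d44_co.Embed

/-! Beck type theorems. -/

namespace Pool.Agent.P.MP_390d44_co

open Finset

variable {a b c l l' p p' A B W L : Sub} {X Y Z : Finset Sub}

lemma img_bound {α β γ : Type*} [DecidableEq β] [DecidableEq γ] (f : α → β → γ) (Y : Finset α)
    (S : Finset β) (ha : ∀ s ∈ S, ∀ y ∈ Y, ∀ y' ∈ Y, f y s = f y' s → y = y')
    (hb : ∀ s ∈ S, ∀ s' ∈ S, s ≠ s' → ∀ y1 ∈ Y, ∀ y2 ∈ Y, ∀ y1' ∈ Y, ∀ y2' ∈ Y,
      f y1 s = f y1' s' → f y2 s = f y2' s' → y1 = y2) :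
    Y.card * S.card ≤ (image₂ f Y S).card + S.card.choose 2 := by
  classical
  induction S using Finset.induction_on with
  | empty => simp
  | insert s S hs ih =>
  have ih := ih (fun s h => ha s (mem_insert_of_mem h))
    fun s h s' h' => hb s (mem_insert_of_mem h) s' (mem_insert_of_mem h')
  set bad := Y.filter fun y => f y s ∈ image₂ f Y S with hbad
  have c1 : bad.card ≤ S.card := by
    have : ∀ y ∈ bad, ∃ s' ∈ S, ∃ y' ∈ Y, f y s = f y' s' := fun y hy => by
      obtain ⟨y', h1, s', h2, e⟩ := mem_image₂.1 (mem_filter.1 hy).2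
      exact ⟨s', h2, y', h1, e.symm⟩
    have : Nonempty β := ⟨s⟩
    choose! g g1 g2 using ‹∀ y ∈ bad, _›
    refine card_le_card_of_injOn g g1 fun y hy y' hy' e => ?_
    obtain ⟨u, hu, e1⟩ := g2 y hy
    obtain ⟨u', hu', e2⟩ := g2 y' hy'
    exact hb s (mem_insert_self _ _) (g y) (mem_insert_of_mem (g1 y hy))
      (fun h => hs (h ▸ g1 y hy)) y (mem_filter.1 hy).1 y' (mem_filter.1 hy').1 u hu u' hu' e1
      (e ▸ e2)
  have c2 : (image₂ f Y S).card + (Y.filter fun y => ¬ f y s ∈ image₂ f Y S).card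
      ≤ (image₂ f Y (insert s S)).card := by
    rw [← card_image_of_injOn (s := Y.filter fun y => ¬ f y s ∈ image₂ f Y S) (f := fun y => f y s)
      fun y hy y' hy' e => ha s (mem_insert_self _ _) y (mem_filter.1 hy).1 y'
        (mem_filter.1 hy').1 e, ← card_union_of_disjoint]
    · refine card_le_card (union_subset (image₂_subset_left (subset_insert _ _)) fun w hw => ?_)
      obtain ⟨y, hy, rfl⟩ := mem_image.1 hw
      exact mem_image₂_of_mem (mem_filter.1 hy).1 (mem_insert_self _ _)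
    · refine disjoint_left.2 fun w h1 h2 => ?_
      obtain ⟨y, hy, rfl⟩ := mem_image.1 h2
      exact (mem_filter.1 hy).2 h1
  have c3 := card_filter_add_card_filter_not (s := Y) fun y => f y s ∈ image₂ f Y S
  rw [card_insert_of_notMem hs, Nat.choose_succ_succ' S.card 1, Nat.choose_one_right, mul_add]
  rw [← hbad] at c3
  simp only [Nat.reduceAdd]
  omega

lemma beck (hX : IsPts X) (hn : 1 ≤ X.card) {K T : ℕ} (hK : 1 ≤ K) (S : Finset Sub)
    (hS : S ⊆ lines X) (h : ∀ l ∈ S, K < (pts X l).card ∧ (pts X l).card ≤ T) :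
    (∑ l ∈ S, ((pts X l).card : ℝ) ^ 2) ≤ 2592 * X.card ^ 2 / K + 30 * X.card * T := by
  rcases S.eq_empty_or_nonempty with rfl | ⟨l0, hl0⟩
  · simp; positivity
  have KT : K ≤ T := by have := h l0 hl0; omega
  set n : ℝ := (X.card : ℝ) with hn'
  have n0 : 0 ≤ n := by positivity
  have K0 : (0 : ℝ) < K := by exact_mod_cast hK
  have sq : ∀ s : ℕ, K ≤ s → (s : ℝ) ^ 2 ≤ K ^ 2 + ∑ u ∈ Ico K s, (4 * u : ℝ) := by
    intro s hs
    induction s, hs using Nat.le_induction with
    | base => simp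
    | succ s hs ih =>
      rw [sum_Ico_succ_top hs]
      have : (1 : ℝ) ≤ s := by exact_mod_cast hK.trans hs
      push_cast; nlinarith
  have h1 : ∀ l ∈ S, ((pts X l).card : ℝ) ^ 2 ≤
      K ^ 2 + ∑ u ∈ Ico K T, if u + 1 ≤ (pts X l).card then (4 * u : ℝ) else 0 := by
    intro l hl
    refine (sq _ (h l hl).1.le).trans (le_of_eq ?_)
    rw [← sum_filter]; congr 2
    ext u; have := h l hl; simp only [mem_Ico, mem_filter]; omega
  refine (sum_le_sum h1).trans ?_
  rw [sum_add_distrib, sum_comm, sum_const, nsmul_eq_mul]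
  have h2 : (S.card : ℝ) * K ^ 2 ≤ 288 * n ^ 2 / K + 6 * n * T := by
    have := rich_lines hX hn hK S hS fun l hl => (h l hl).1
    have e : (288 * n ^ 2 / K ^ 3 + 6 * n / K) * K ^ 2 = 288 * n ^ 2 / K + 6 * n * K := by
      field_simp
    have : (K : ℝ) ≤ T := by exact_mod_cast KT
    nlinarith [mul_le_mul_of_nonneg_right ‹(S.card : ℝ) ≤ _› (sq_nonneg (K : ℝ))]
  have h3 : ∀ u ∈ Ico K T, (∑ l ∈ S, if u + 1 ≤ (pts X l).card then (4 * u : ℝ) else 0)
      ≤ 1152 * n ^ 2 * ((u : ℝ) ^ 2)⁻¹ + 24 * n := by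
    intro u hu
    have hu1 : 1 ≤ u := hK.trans (mem_Ico.1 hu).1
    have u0 : (0 : ℝ) < u := by exact_mod_cast hu1
    rw [← sum_filter, sum_const, nsmul_eq_mul]
    have := rich_lines hX hn hu1 (S.filter fun l => u + 1 ≤ (pts X l).card)
      ((filter_subset _ _).trans hS) fun l hl => (mem_filter.1 hl).2
    refine (mul_le_mul_of_nonneg_right this (by positivity)).trans (le_of_eq ?_)
    field_simp; ring
  have h4 := sum_le_sum h3
  rw [sum_add_distrib, ← mul_sum, sum_const, nsmul_eq_mul, Nat.card_Ico] at h4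
  have h5 : ∑ u ∈ Ico K T, ((u : ℝ) ^ 2)⁻¹ ≤ 2 / K := by
    have := sum_Ioo_inv_sq_le (α := ℝ) (K - 1) T
    rw [show Ioo (K - 1) T = Ico K T by ext u; simp only [mem_Ioo, mem_Ico]; omega,
      Nat.cast_sub hK] at this
    simpa using this
  have h6 : ((T - K : ℕ) : ℝ) ≤ T := by exact_mod_cast Nat.sub_le _ _
  have h7 := mul_le_mul_of_nonneg_left h5 (by positivity : 0 ≤ 1152 * n ^ 2)
  have h8 := mul_le_mul_of_nonneg_right h6 (by positivity : 0 ≤ 24 * n)
  have e : 2592 * n ^ 2 / K = 288 * n ^ 2 / K + 1152 * n ^ 2 * (2 / K) := by ring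
  linarith

/-- pairs on lines with at most `60000` points. -/
noncomputable def poor (X : Finset Sub) : Finset (Sub × Sub) :=
  X.offDiag.filter fun q => (pts X (q.1 ⊔ q.2)).card ≤ 60000

lemma card_poor (hX : IsPts X) (hn : 10 ≤ X.card)
    (h : ∀ l ∈ lines X, 600 * (pts X l).card ≤ X.card) :
    8 * X.card ^ 2 ≤ 10 * (poor X).card := by
  set S := (lines X).filter fun l => 60000 < (pts X l).card with hS
  have h1 := beck hX (by omega) (K := 60000) (T := X.card / 600) (by norm_num) S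
    (filter_subset _ _) fun l hl => ⟨(mem_filter.1 hl).2, by
      have := h l (mem_filter.1 hl).1; omega⟩
  have h2 := sum_pairs hX S (filter_subset _ _)
  have h3 : ((X.offDiag.filter fun q => q.1 ⊔ q.2 ∈ S).card : ℝ)
      ≤ ∑ l ∈ S, ((pts X l).card : ℝ) ^ 2 := by
    rw [h2]; push_cast
    exact sum_le_sum fun l _ => by
      have : (((pts X l).card - 1 : ℕ) : ℝ) ≤ (pts X l).card := by exact_mod_cast Nat.sub_le _ _
      rw [sq]; exact mul_le_mul_of_nonneg_left this (by positivity)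
  have h4 : X.offDiag ⊆ poor X ∪ X.offDiag.filter fun q => q.1 ⊔ q.2 ∈ S := fun q hq => by
    by_cases e : (pts X (q.1 ⊔ q.2)).card ≤ 60000
    · exact mem_union_left _ (mem_filter.2 ⟨hq, e⟩)
    · obtain ⟨a, b, c⟩ := mem_offDiag.1 hq
      exact mem_union_right _ (mem_filter.2 ⟨hq, mem_filter.2 ⟨sup_mem_lines hX a b c, by omega⟩⟩)
  have h5 := (card_le_card h4).trans (card_union_le _ _)
  rw [offDiag_card] at h5
  have h6 : ((X.card / 600 : ℕ) : ℝ) ≤ X.card / 600 := Nat.cast_div_le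
  have h7 : ((X.card * X.card - X.card : ℕ) : ℝ) = X.card * X.card - X.card := by
    rw [Nat.cast_sub (Nat.le_mul_self _)]; push_cast; ring
  have h8 : ((X.card * X.card - X.card : ℕ) : ℝ) ≤ (poor X).card +
      (X.offDiag.filter fun q => q.1 ⊔ q.2 ∈ S).card := by exact_mod_cast h5
  have n10 : (10 : ℝ) ≤ X.card := by exact_mod_cast hn
  have : (8 * X.card ^ 2 : ℝ) ≤ 10 * (poor X).card := by
    push_cast at h1
    nlinarith
  exact_mod_cast this

lemma lines_quad (hX : IsPts X) (hn : 10 ≤ X.card)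
    (h : ∀ l ∈ lines X, 600 * (pts X l).card ≤ X.card) :
    X.card ^ 2 ≤ 4500000000 * (lines X).card := by
  have h1 := card_poor hX hn h
  set S := (lines X).filter fun l => (pts X l).card ≤ 60000 with hS
  have h2 := sum_pairs hX S (filter_subset _ _)
  have h3 : poor X ⊆ X.offDiag.filter fun q => q.1 ⊔ q.2 ∈ S := fun q hq => by
    obtain ⟨h1, h2⟩ := mem_filter.1 hq
    obtain ⟨a, b, c⟩ := mem_offDiag.1 h1
    exact mem_filter.2 ⟨h1, mem_filter.2 ⟨sup_mem_lines hX a b c, h2⟩⟩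
  have h4 := card_le_card h3
  have h5 := sum_le_card_nsmul S (fun l => (pts X l).card * ((pts X l).card - 1)) (60000 * 60000)
    fun l hl => Nat.mul_le_mul (mem_filter.1 hl).2 ((Nat.sub_le _ _).trans (mem_filter.1 hl).2)
  have h6 := card_le_card (filter_subset (fun l => (pts X l).card ≤ 60000) (lines X))
  rw [smul_eq_mul] at h5
  rw [← hS] at h6
  omega

lemma lines_long (hX : IsPts X) (hL : rk L = 2) (hZ : Z ⊆ X) (hoff : ∀ z ∈ Z, ¬ z ≤ L) :
    (pts X L).card * Z.card ≤ (lines X).card + Z.card.choose 2 := by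
  have inj : ∀ s ∈ Z, ∀ y ∈ pts X L, ∀ y' ∈ pts X L, y ⊔ s = y' ⊔ s → y = y' := by
    intro s hs y hy y' hy' e
    obtain ⟨y1, y2⟩ := mem_pts.1 hy
    obtain ⟨y3, y4⟩ := mem_pts.1 hy'
    by_contra hne
    have r := rk_pp (hX y y1) (hX s (hZ hs)) fun e => hoff s hs (e ▸ y2)
    exact hoff s hs (le_sup_right.trans (lines_eq r hL (hX y y1) (hX y' y3) hne le_sup_left
      (e ▸ le_sup_left) y2 y4).le)
  refine (img_bound (· ⊔ ·) (pts X L) Z inj ?_).trans (Nat.add_le_add_right (card_le_card ?_) _)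
  · intro s hs s' hs' hne y1 h1 y2 h2 y1' _ y2' _ e1 e2
    have r := fun y (hy : y ∈ pts X L) => rk_pp (hX y (mem_pts.1 hy).1) (hX s (hZ hs))
      fun e => hoff s hs (e ▸ (mem_pts.1 hy).2)
    exact inj s hs y1 h1 y2 h2 (lines_eq (r y1 h1) (r y2 h2) (hX s (hZ hs)) (hX s' (hZ hs')) hne
      le_sup_right (e1 ▸ le_sup_right) le_sup_right (e2 ▸ le_sup_right))
  · intro w hw
    obtain ⟨y, hy, z, hz, rfl⟩ := mem_image₂.1 hw
    exact sup_mem_lines hX (mem_pts.1 hy).1 (hZ hz) fun e => hoff z hz (e ▸ (mem_pts.1 hy).2)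

lemma two_choose (n : ℕ) : 2 * n.choose 2 + n = n * n := by
  induction n with
  | zero => simp
  | succ n ih => rw [Nat.choose_succ_succ' n 1, Nat.choose_one_right]; nlinarith

theorem erdos_beck (hX : IsPts X) (hn : 2 ≤ X.card) {k : ℕ}
    (h : ∀ l ∈ lines X, (pts X l).card + k ≤ X.card) :
    X.card * k ≤ 4500000000 * (lines X).card := by
  obtain ⟨a, ha, b, hb, hab⟩ := one_lt_card.1 hn
  have hl := sup_mem_lines hX ha hb hab
  have kn : k ≤ X.card := by have := h _ hl; omega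
  have l1 : 1 ≤ (lines X).card := card_pos.2 ⟨_, hl⟩
  by_cases h10 : X.card < 2400
  · nlinarith
  by_cases hr : ∀ l ∈ lines X, 600 * (pts X l).card ≤ X.card
  · have := lines_quad hX (by omega) hr
    nlinarith
  push Not at hr
  obtain ⟨L, hL, hr⟩ := hr
  have c : min k (X.card / 600) ≤ (X.filter fun x => ¬ x ≤ L).card := by
    have := card_filter_add_card_filter_not (s := X) (· ≤ L)
    have := h L hL
    simp only [pts] at this
    omega
  obtain ⟨Z, hZ, hc⟩ := exists_subset_card_eq c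
  have h1 := lines_long hX (rk_line hL) (hZ.trans (filter_subset _ _))
    fun z hz => (mem_filter.1 (hZ hz)).2
  have h2 := two_choose Z.card
  have h3 : k ≤ 1200 * Z.card := by omega
  have h4 : Z.card ≤ (pts X L).card := by omega
  have h5 : (pts X L).card * Z.card ≤ 2 * (lines X).card := by nlinarith
  calc X.card * k ≤ (600 * (pts X L).card) * (1200 * Z.card) := Nat.mul_le_mul hr.le h3
    _ = 720000 * ((pts X L).card * Z.card) := by ring
    _ ≤ _ := by omega

lemma cone_inj (hX : IsPts X) (hY : Y ⊆ X) (ha : a ∈ X) (hap : ¬ a ≤ p)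
    (hYp : ∀ y ∈ Y, y ≤ p) : (lines Y).card ≤ (planes X).card := by
  have le : ∀ l ∈ lines Y, l ≤ p := fun l hl => line_le_of_pts hl fun x hx _ => hYp x hx
  refine card_le_card_of_injOn (a ⊔ ·) (fun l hl => sup_mem_planes hX ha (lines_mono hY hl)
    fun e => hap (e.trans (le l hl))) fun l hl l' hl' e => ?_
  by_contra hne
  have e : a ⊔ l = a ⊔ l' := e
  have r := rk_pl (hX a ha) (rk_line hl) fun e => hap (e.trans (le l hl))
  have := plane_eq' r (rk_line hl) (rk_line hl') hne le_sup_right (e ▸ le_sup_right)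
  exact hap (le_sup_left.trans (this.symm.le.trans (sup_le (le l hl) (le l' hl'))))

lemma exists_plane_avoid (ha : rk a = 1) : ∃ H, rk H = 3 ∧ ¬ a ≤ H := by
  obtain ⟨f, -, hf⟩ := choose_fn ⊥ {a} fun W hW =>
    not_le_of_rk (by rw [mem_singleton.1 hW, rk_bot, ha]; omega)
  have h1 := hf a (mem_singleton_self _)
  have h2 := rk_inf_ker ⊤ f
  have h3 := rk_lt (le_top : LinearMap.ker f ≤ ⊤) fun e => h1 (le_top.trans e)
  rw [top_inf_eq, rk_top] at h2
  rw [rk_top] at h3
  exact ⟨_, by omega, h1⟩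

/-- central projection from `a` onto the plane `H`. -/
def pr (a H x : Sub) : Sub := (a ⊔ x) ⊓ H

lemma pr_rk {H x : Sub} (ha : rk a = 1) (hH : rk H = 3) (haH : ¬ a ≤ H) (hx : rk x = 1)
    (hne : a ≠ x) : rk (pr a H x) = 1 :=
  meet_lp (rk_pp ha hx hne) hH fun e => haH (le_sup_left.trans e)

lemma sup_pr {H x : Sub} (ha : rk a = 1) (hH : rk H = 3) (haH : ¬ a ≤ H) (hx : rk x = 1)
    (hne : a ≠ x) : a ⊔ pr a H x = a ⊔ x :=
  line_eq (rk_pp ha hx hne) ha (pr_rk ha hH haH hx hne) (fun e => haH (e ▸ inf_le_right))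
    le_sup_left inf_le_left

lemma pr_plane {H : Sub} (hX : IsPts X) (ha : a ∈ X) (hH : rk H = 3) (haH : ¬ a ≤ H)
    (hY : Y ⊆ X) (haY : a ∉ Y) (hl : l ∈ lines (Y.image (pr a H))) : a ⊔ l ∈ planes X := by
  obtain ⟨r, u, hu, v, hv, rfl⟩ := mem_lines'.1 hl
  obtain ⟨x, hx, rfl⟩ := mem_image.1 hu
  obtain ⟨y, hy, rfl⟩ := mem_image.1 hv
  have nx : a ≠ x := fun e => haY (e ▸ hx)
  have ny : a ≠ y := fun e => haY (e ▸ hy)
  have e : a ⊔ (pr a H x ⊔ pr a H y) = y ⊔ (a ⊔ x) := by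
    rw [sup_sup_distrib_left, sup_pr (hX a ha) hH haH (hX x (hY hx)) nx,
      sup_pr (hX a ha) hH haH (hX y (hY hy)) ny, ← sup_sup_distrib_left]; ac_rfl
  refine mem_planes'.2 ⟨rk_pl (hX a ha) r fun e => haH (e.trans (sup_le inf_le_right inf_le_right)),
    y, hY hy, _, sup_mem_lines hX ha (hY hx) nx, e.symm⟩

lemma pr_lines_le {H : Sub} (hX : IsPts X) (ha : a ∈ X) (hH : rk H = 3) (haH : ¬ a ≤ H)
    (hY : Y ⊆ X) (haY : a ∉ Y) :
    (lines (Y.image (pr a H))).card ≤ ((planes X).filter (a ≤ ·)).card := by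
  have le : ∀ l ∈ lines (Y.image (pr a H)), l ≤ H := fun l hl => line_le_of_pts hl fun x hx _ => by
    obtain ⟨y, -, rfl⟩ := mem_image.1 hx; exact inf_le_right
  refine card_le_card_of_injOn (a ⊔ ·) (fun l hl => mem_filter.2
    ⟨pr_plane hX ha hH haH hY haY hl, le_sup_left⟩) fun l hl l' hl' e => ?_
  by_contra hne
  have e : a ⊔ l = a ⊔ l' := e
  have r := rk_pl (hX a ha) (rk_line hl) fun e => haH (e.trans (le l hl))
  have := plane_eq' r (rk_line hl) (rk_line hl') hne le_sup_right (e ▸ le_sup_right)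
  exact haH (le_sup_left.trans (this.symm.le.trans (sup_le (le l hl) (le l' hl'))))

theorem planes_quad (hX : IsPts X) (hn : 400000 ≤ X.card) (hnc : ∀ p, rk p = 3 → ∃ x ∈ X, ¬ x ≤ p)
    (h : ∀ l ∈ lines X, 1200 * (pts X l).card ≤ X.card) :
    X.card ^ 2 ≤ 10 ^ 21 * (planes X).card := by
  by_cases hA : ∃ p ∈ planes X, X.card ≤ 2 * (pts X p).card
  · obtain ⟨p, hp, hc⟩ := hA
    obtain ⟨a, ha, hap⟩ := hnc p (rk_plane hp)
    have sub : pts X p ⊆ X := filter_subset _ _
    have h1 := lines_quad (hX.mono sub) (by omega) fun l hl => by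
      have := h l (lines_mono sub hl)
      have : (pts (pts X p) l).card ≤ (pts X l).card :=
        card_le_card (filter_subset_filter _ sub)
      omega
    have h2 := cone_inj hX sub ha hap fun y hy => (mem_pts.1 hy).2
    nlinarith
  push Not at hA
  have h1 := card_poor hX (by omega) fun l hl => by have := h l hl; omega
  obtain ⟨a, ha, hB⟩ : ∃ a ∈ X, 8 * X.card ≤ 10 * ((poor X).filter fun q => q.1 = a).card := by
    by_contra hh
    push Not at hh
    rw [card_eq_sum_card_fiberwise (s := poor X) (f := Prod.fst) (t := X)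
      (fun q hq => (mem_offDiag.1 (mem_filter.1 hq).1).1), mul_sum] at h1
    have := sum_lt_sum_of_nonempty (card_pos.1 (by omega)) hh
    rw [sum_const, smul_eq_mul] at this
    nlinarith
  set Y := X.filter fun x => a ≠ x ∧ (pts X (a ⊔ x)).card ≤ 60000 with hY
  have hYX : Y ⊆ X := filter_subset _ _
  have haY : a ∉ Y := fun e => (mem_filter.1 e).2.1 rfl
  have c1 : ((poor X).filter fun q => q.1 = a).card ≤ Y.card := by
    refine card_le_card_of_injOn Prod.snd (fun q hq => ?_) fun q hq q' hq' e => ?_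
    · obtain ⟨h1, rfl⟩ := mem_filter.1 hq
      obtain ⟨h2, h3⟩ := mem_filter.1 h1
      exact mem_filter.2 ⟨(mem_offDiag.1 h2).2.1, (mem_offDiag.1 h2).2.2, h3⟩
    · exact Prod.ext ((mem_filter.1 hq).2.trans (mem_filter.1 hq').2.symm) e
  obtain ⟨H, hH, haH⟩ := exists_plane_avoid (hX a ha)
  have sp : ∀ x ∈ Y, a ⊔ pr a H x = a ⊔ x := fun x hx =>
    sup_pr (hX a ha) hH haH (hX x (hYX hx)) (mem_filter.1 hx).2.1
  have fib : ∀ Y' ⊆ Y, Y'.card ≤ 60000 * (Y'.image (pr a H)).card := fun Y' hY' =>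
    card_le_mul_card_image Y' 60000 fun u hu => by
      obtain ⟨x, hx, rfl⟩ := mem_image.1 hu
      refine le_trans (card_le_card fun y hy => ?_) (mem_filter.1 (hY' hx)).2.2
      obtain ⟨y1, y2⟩ := mem_filter.1 hy
      exact mem_pts.2 ⟨hYX (hY' y1), by rw [← sp x (hY' hx), ← y2, sp y (hY' y1)]; exact le_sup_right⟩
  have hP : IsPts (Y.image (pr a H)) := fun u hu => by
    obtain ⟨x, hx, rfl⟩ := mem_image.1 hu
    exact pr_rk (hX a ha) hH haH (hX x (hYX hx)) (mem_filter.1 hx).2.1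
  have f1 := fib Y subset_rfl
  have h2 := erdos_beck hP (by omega) (k := X.card / 200000) fun l hl => by
    have hp := pr_plane hX ha hH haH hYX haY hl
    have h3 := hA _ hp
    have f2 := fib (Y.filter fun x => ¬ x ≤ a ⊔ l) (filter_subset _ _)
    have s1 := card_filter_add_card_filter_not (s := Y) (· ≤ a ⊔ l)
    have s2 : (Y.filter (· ≤ a ⊔ l)).card ≤ (pts X (a ⊔ l)).card :=
      card_le_card (filter_subset_filter _ hYX)
    have s3 := card_filter_add_card_filter_not (s := Y.image (pr a H)) (· ≤ l)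
    have s4 : ((Y.filter fun x => ¬ x ≤ a ⊔ l).image (pr a H)).card
        ≤ ((Y.image (pr a H)).filter fun u => ¬ u ≤ l).card := card_le_card fun u hu => by
      obtain ⟨x, hx, rfl⟩ := mem_image.1 hu
      obtain ⟨x1, x2⟩ := mem_filter.1 hx
      exact mem_filter.2 ⟨mem_image_of_mem _ x1, fun e => x2
        (le_sup_right.trans ((sp x x1).symm.le.trans (sup_le_sup_left e a)))⟩
    simp only [pts] at h3 s2 ⊢
    omega
  have h3 := (pr_lines_le hX ha hH haH hYX haY).trans (card_le_card (filter_subset _ _))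
  have h4 : X.card ≤ 400000 * (X.card / 200000) := by omega
  have h5 : X.card ≤ 75000 * (Y.image (pr a H)).card := by omega
  calc X.card ^ 2 = X.card * X.card := sq _
    _ ≤ (75000 * (Y.image (pr a H)).card) * (400000 * (X.card / 200000)) := Nat.mul_le_mul h5 h4
    _ = 30000000000 * ((Y.image (pr a H)).card * (X.card / 200000)) := by ring
    _ ≤ _ := by omega

end Pool.Agent.P.MP_390d44_co
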