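import Pool.Agent.P.MP_390d44_co.Fam

/-! The families cover the bands and the continuum. -/

namespace Pool.Agent.P.MP_390d44_co

variable {a b j d x p s M U D n : ℕ}

def vf (n s a b : ℤ) : ℤ := 6 * n * s + 6 - 6 * (a + b - 1) * s + 3 * b * (a - 1) * (a - 2) +
  3 * (a - 1) * b * (b - 1) + b * (b - 1) * (b - 2)

lemma fam1' (ha : 3 ≤ a) (h1 : U ≤ a.choose 2) (h2 : U + a + 3 ≤ n)
    (h3 : vf n a a 1 - 12 * U ≤ 6 * p) (h4 : 6 * p + 24 ≤ vf n a a 1) : Real n p := by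
  obtain ⟨M, rfl⟩ := Nat.exists_eq_add_of_le (show a + 1 + 2 ≤ n by omega)
  have e1 := c3 (a + 2)
  have e2 := c3 (a + 1 + 2)
  unfold vf at h3 h4
  push_cast at e1 e2 h3 h4
  obtain ⟨x, hx⟩ := Nat.exists_eq_add_of_le (show p + (a + 2).choose 3 ≤
    1 + (a + 1 + 2).choose 3 + M * a by zify; linarith)
  have : (1 : ℤ) + (a + 1 + 2).choose 3 + M * a = p + (a + 2).choose 3 + x := by exact_mod_cast hx
  have x1 : 4 ≤ x := by zify; linarith
  have x2 : x ≤ 2 * U := by zify; linarith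
  exact fam1 ha x1 (by omega) (by omega) (by omega)

lemma famB' (hb : 2 ≤ b) (hb3 : b % 3 ≠ 0) (h1 : s ≤ a * b + b.choose 2)
    (h2 : a * b + b.choose 2 < s + b) (ha : 2 * b ≤ a ∨ s = a * b + b.choose 2 ∧ 4 ≤ a)
    (hU : U + 4 ≤ a.choose 2) (hn : U + a + 3 * b + 2 ≤ n)
    (h3 : vf n s a b - 12 * b * U ≤ 6 * p) (h4 : 6 * p + 36 * b ≤ vf n s a b) : Real n p := by
  obtain ⟨M, rfl⟩ := Nat.exists_eq_add_of_le (show a + b + 2 ≤ n by omega)
  obtain ⟨D, hD⟩ := Nat.exists_eq_add_of_le h1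
  have e1 := c3 (a + 2)
  have e2 := c3 (a + b + 2)
  have e3 := c2 b
  have e4 : (a : ℤ) * b + b.choose 2 = s + D := by exact_mod_cast hD
  unfold vf at h3 h4
  push_cast at e1 e2 h3 h4
  have b0 : (0 : ℤ) ≤ b := by positivity
  obtain ⟨x, hx⟩ := Nat.exists_eq_add_of_le (show p + (a + 2).choose 3 + 3 * D ≤
    1 + (a + b + 2).choose 3 + M * s by zify; linarith)
  have : (1 : ℤ) + (a + b + 2).choose 3 + M * s = p + (a + 2).choose 3 + 3 * D + x := by
    exact_mod_cast hx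
  exact famB (x := x) (U := U) (D := D) (s := s) hb hb3 (by omega) (by omega) (by zify; linarith)
    (by zify; linarith) hU (by omega) (by rw [add2]; omega) (by omega)

lemma ex_last (P : ℕ → Prop) (h0 : P 0) (k : ℕ) (hk : ¬ P k) : ∃ k, P k ∧ ¬ P (k + 1) := by
  induction k with
  | zero => exact absurd h0 hk
  | succ k ih => exact (em (P k)).elim (fun h => ⟨k, h, hk⟩) ih

lemma ex_star (hn : 10 ≤ n) : ∃ a, 3 ≤ a ∧ a.choose 2 + a + 3 ≤ n ∧ n < (a + 2).choose 2 + 3 := by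
  obtain ⟨a, h1, h2⟩ := ex_last (fun a => a.choose 2 + a + 3 ≤ n) (by simp; omega) n (by omega)
  refine ⟨a, by_contra fun h => ?_, h1, by rw [ch2]; omega⟩
  have := Nat.choose_le_choose 2 (show a + 1 ≤ 3 by omega)
  simp at this; omega

lemma chain1 {a0 : ℕ} (h0 : 3 ≤ a0) (h1 : a0.choose 2 + a0 + 3 ≤ n) (h2 : n < (a0 + 2).choose 2 + 3)
    (hp : vf n a0 a0 1 - 12 * a0.choose 2 ≤ 6 * p) (ha : a0 ≤ a) (hn : a + 10 ≤ n)
    (h : 6 * p + 24 ≤ vf n a a 1) : Real n p := by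
  induction a, ha using Nat.le_induction with
  | base => exact fam1' h0 le_rfl h1 hp h
  | succ a ha ih =>
    obtain ⟨U, rfl⟩ := Nat.exists_eq_add_of_le' (show a + 1 + 3 ≤ n by omega)
    by_cases c : vf (U + (a + 1 + 3) : ℕ) (a + 1 : ℕ) (a + 1 : ℕ) 1 - 12 * U ≤ 6 * p
    · refine fam1' (by omega) ?_ (by omega) c h
      have := Nat.choose_le_choose 2 (show a0 + 2 ≤ a + 1 + 1 by omega)
      rw [ch2 (a + 1)] at this; omega
    · refine ih (by omega) ?_
      have : (7 : ℤ) ≤ U := by omega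
      unfold vf at *; push_cast at *; linarith

lemma small_s (hn : 10 ^ 50 ≤ n) (h : s ^ 2 ≤ 5 * n) : 100 * s ≤ n := by
  by_contra hh
  have := Nat.pow_lt_pow_left (show n < 100 * s by omega) (two_ne_zero)
  nlinarith

lemma band1 (hn : 10 ^ 50 ≤ n) (hs : 3 ≤ s) (h : s ^ 2 ≤ 5 * n)
    (hp : vf n s s 1 - 12 * s.choose 2 ≤ 6 * p) (h' : 6 * p + 24 ≤ vf n s s 1) : Real n p := by
  by_cases c : s.choose 2 + s + 3 ≤ n
  · exact fam1' hs le_rfl c hp h'
  obtain ⟨a, a1, a2, a3⟩ := ex_star (n := n) (by omega)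
  have h1 := small_s hn h
  have as : a ≤ s := by
    by_contra hh
    have := Nat.choose_le_choose 2 (show s ≤ a by omega)
    omega
  refine chain1 a1 a2 a3 (le_trans ?_ hp) as (by omega) h'
  have e1 := c2 a
  have e2 := c2 s
  have := mul_nonneg (show (0 : ℤ) ≤ s - a by omega) (show (0 : ℤ) ≤ 2 * n - 1 - 3 * (s + a) by omega)
  unfold vf; linarith

lemma ex_a (hb : 1 ≤ b) (h : b.choose 2 ≤ s) :
    ∃ a, s ≤ a * b + b.choose 2 ∧ a * b + b.choose 2 < s + b := by
  obtain ⟨a, h1, h2⟩ := ex_last (fun a => a * b + b.choose 2 < s + b) (by simp; omega) (s + 1)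
    (by nlinarith [Nat.zero_le (b.choose 2)])
  exact ⟨a, by rw [add_mul] at h2; omega, h1⟩

lemma pow_mod3 (k : ℕ) : 2 ^ k % 3 ≠ 0 := by
  induction k with
  | zero => simp
  | succ k ih => rw [pow_succ]; omega

lemma ineq1 {n s a a' b : ℤ} (hb : 1 ≤ b) (h1 : 2 * s ≤ 2 * a * b + b * (b - 1))
    (h2 : 2 * a * b + b * (b - 1) < 2 * s + 2 * b) (h3 : s ≤ 2 * a' * b + b * (2 * b - 1))
    (h4 : 2 * a' * b + b * (2 * b - 1) < s + 2 * b) (h5 : 4 * b ≤ a') (h6 : 1000 ≤ s) :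
    vf n s a' (2 * b) - 12 * b * (a' * (a' - 1) - 8) ≤ vf n s a b - 36 * b := by
  have u1 : 2 * a ≤ 4 * a' + 3 * b := by
    by_contra h; nlinarith
  have u2 : 4 * a' + 3 * b - 4 ≤ 2 * a := by
    by_contra h; nlinarith
  have u3 : 18 ≤ a' := by
    by_contra h; nlinarith
  have t1 := mul_le_mul_of_nonneg_right (show 2 * (a - a' - b) ≤ 2 * a' + b by omega)
    (show 0 ≤ s by omega)
  have t2 := mul_le_mul_of_nonneg_left (show s ≤ b * (2 * a' + 2 * b) by linarith)
    (show 0 ≤ 2 * a' + b by omega)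
  have t3 := mul_le_mul_of_nonneg_left (show (4 * a' + 3 * b - 8) ^ 2 ≤ 4 * ((a - 1) * (a - 2)) by
    nlinarith) (show 0 ≤ b by omega)
  have t4 := mul_nonneg (show 0 ≤ b by omega) (show 0 ≤ 24 * a' ^ 2 - 48 * a' * b - 29 * b ^ 2 -
    144 * a' - 48 * b - 424 by nlinarith)
  have t5 := mul_nonneg (show 0 ≤ b by omega) (mul_nonneg (show 0 ≤ a - 1 by omega)
    (show 0 ≤ b - 1 by omega))
  have t6 : 0 ≤ b * (b - 1) * (b - 2) := by
    rcases hb.eq_or_lt with rfl | h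
    · simp
    · exact mul_nonneg (mul_nonneg (by omega) (by omega)) (by omega)
  unfold vf; linarith

lemma bandK (hn : 10 ^ 50 ≤ n) (hs : 1000 ≤ s) (h : s ^ 2 ≤ 5 * n)
    (hp : vf n s s 1 - 12 * s.choose 2 ≤ 6 * p) (k : ℕ) : ∀ a b : ℕ, b = 2 ^ k → 5 * b ^ 2 ≤ 2 * s →
      s ≤ a * b + b.choose 2 → a * b + b.choose 2 < s + b → 6 * p + 36 * b ≤ vf n s a b →
      Real n p := by
  induction k with
  | zero =>
    rintro a b rfl - h1 h2 h3
    obtain rfl : a = s := by simp at h1 h2; omega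
    exact band1 hn (by omega) h hp (by simp at h3; linarith)
  | succ k ih =>
    intro a' b' hb' h0 h1 h2 h3
    obtain ⟨b, hb⟩ : ∃ b, b = 2 ^ k := ⟨_, rfl⟩
    obtain rfl : b' = 2 * b := by rw [hb', hb, pow_succ']
    have b1 : 1 ≤ b := hb ▸ Nat.one_le_two_pow
    have e1 := two_choose b
    have e2 := two_choose (2 * b)
    have e3 := two_choose a'
    have a1 : 4 * b ≤ a' := by
      by_contra hh; nlinarith
    have a2 : 2 * a' ≤ s + 1 := by
      rcases b1.eq_or_lt with rfl | b2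
      · omega
      · by_contra hh; nlinarith [Nat.zero_le ((2 * b).choose 2)]
    have s1 := small_s hn h
    obtain ⟨U, hU⟩ := Nat.exists_eq_add_of_le' (show 4 ≤ a'.choose 2 from
      le_trans (by decide) (Nat.choose_le_choose 2 (show 4 ≤ a' by omega)))
    by_cases c : vf n s a' (2 * b : ℕ) - 12 * (2 * b : ℕ) * U ≤ 6 * p
    · refine famB' (by omega) (hb' ▸ pow_mod3 _) h1 h2 (Or.inl (by omega)) hU.ge ?_ c h3
      have := Nat.pow_le_pow_left a2 2
      nlinarith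
    obtain ⟨a, a3, a4⟩ := ex_a (s := s) b1 (by nlinarith)
    refine ih a b hb (by nlinarith) a3 a4 ?_
    have := ineq1 (n := n) (s := s) (a := a) (a' := a') (b := b) (by omega)
      (by zify at a3 e1; linarith) (by zify at a4 e1; linarith) (by zify at h1 e2; linarith)
      (by zify at h2 e2; linarith) (by omega) (by omega)
    have e4 : (a' : ℤ) * (a' - 1) - 8 = 2 * U := by rw [hU] at e3; zify at e3; linarith
    rw [e4] at this
    push_cast at c
    linarith

lemma ineq2 {n s a b j d : ℤ} (hb : 1 ≤ b) (h1 : 2 * s ≤ 2 * a * b + b * (b - 1))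
    (h2 : 2 * a * b + b * (b - 1) < 2 * s + 2 * b) (h3 : 5 * b ^ 2 ≤ 2 * s) (h4 : s < 10 * b ^ 2)
    (h5 : 2 * (s + d) = j * (j - 1)) (h6 : 0 ≤ d) (h7 : d + 2 ≤ j) (h8 : 60 ≤ j) :
    6 * s * (n - j) + 6 * j - 6 * d - 2 * (j * (j - 1) * (j - 2)) + 18 * d * j + 1512
      ≤ vf n s a b - 36 * b := by
  have u1 : j ≤ 5 * b := by
    by_contra h; nlinarith
  have u2 : b ≤ j := by
    by_contra h; nlinarith
  have u3 : 2 * a + 5 * b < 6 * j + 2 := by
    by_contra h
    nlinarith [mul_nonneg (sub_nonneg.2 u1) (sub_nonneg.2 u2)]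
  have u4 : 3 ≤ a := by
    by_contra h; nlinarith
  have s0 : 0 ≤ s := by nlinarith
  have t1 := mul_le_mul_of_nonneg_left (show 2 * s - b ^ 2 ≤ 2 * a * b by linarith)
    (show 0 ≤ a - 3 by omega)
  have t2 := mul_le_mul_of_nonneg_left (show a * b ≤ s + b by nlinarith) (show 0 ≤ b by omega)
  have t3 := mul_le_mul_of_nonneg_left u3.le s0
  have t4 := mul_le_mul_of_nonneg_left (show 2 * s ≤ j ^ 2 by linarith)
    (show 0 ≤ 3 * j + 18 by omega)
  have t5 := mul_nonneg (show 0 ≤ b by omega) (mul_nonneg (show 0 ≤ a - 1 by omega)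
    (show 0 ≤ b - 1 by omega))
  have t6 : 0 ≤ b * (b - 1) * (b - 2) := by
    rcases hb.eq_or_lt with rfl | h
    · simp
    · exact mul_nonneg (mul_nonneg (by omega) (by omega)) (by omega)
  have t7 := mul_le_mul_of_nonneg_right (show d ≤ j by omega) (show 0 ≤ j by omega)
  have t8 := mul_le_mul u2 u2 (by omega) (by omega)
  have t9 := mul_le_mul_of_nonneg_right h8 (sq_nonneg j)
  have t10 := mul_le_mul_of_nonneg_right h8 (show 0 ≤ j by omega)
  have t11 := sq_nonneg b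
  unfold vf; linarith

theorem band_real (hn : 10 ^ 50 ≤ n) (hp : 3000 * n ≤ p) (h : Band n p) : Real n p := by
  obtain ⟨j, d, s, h1, h2, h3, h4, x, h5, h6⟩ := h
  have hj : 60 ≤ j := by
    by_contra hh
    have e1 := Nat.choose_le_choose 2 (show j ≤ 60 by omega)
    have e2 := Nat.choose_le_choose 3 (show j ≤ 60 by omega)
    have e3 : Nat.choose 60 2 = 1770 := by decide +kernel
    have e4 : Nat.choose 60 3 = 34220 := by decide +kernel
    have : s * (n - j) ≤ 1770 * n := Nat.mul_le_mul (by omega) (by omega)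
    omega
  have e1 := two_choose j
  have hs : 1000 ≤ s := by nlinarith
  have s1 := small_s hn h3
  have js : j ≤ s := by nlinarith
  obtain ⟨k, k1, k2⟩ := ex_last (fun k => 5 * (2 ^ k) ^ 2 ≤ 2 * s) (by simp; omega) s (by
    have := Nat.lt_two_pow_self (n := s)
    nlinarith)
  rw [pow_succ 2 k] at k2
  have b1 : 1 ≤ 2 ^ k := Nat.one_le_two_pow
  have K := fun a hp' => bandK hn hs h3 (p := p) hp' k a _ rfl k1
  generalize 2 ^ k = b at *
  have e2 := two_choose b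
  obtain ⟨a, a1, a2⟩ := ex_a (s := s) b1 (by nlinarith)
  obtain ⟨m, rfl⟩ := Nat.exists_eq_add_of_le (show s + 1 ≤ n by omega)
  rw [show s + 1 + m - s - 1 = m by omega] at h4
  by_cases c : 6 * p + 36 * b ≤ vf (s + 1 + m : ℕ) s a b
  · refine K a ?_ a1 a2 c
    have := c2 s
    zify at h4
    unfold vf; push_cast; linarith
  have e3 := c3 j
  have e4 := c3 (j + 2)
  obtain ⟨T, hT⟩ := Nat.exists_eq_add_of_le' (show d * j + 84 ≤ j.choose 3 by
    zify at *; nlinarith)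
  obtain ⟨M, hM⟩ := Nat.exists_eq_add_of_le (show j + 2 ≤ s + 1 + m by omega)
  rw [hM, show j + 2 + M - j = M + 2 by omega] at h5
  rw [hM] at c h3 ⊢
  have := ineq2 (n := (j + 2 + M : ℕ)) (s := s) (a := a) (b := b) (j := j) (d := d) (by omega)
    (by zify at a1 e2; linarith) (by zify at a2 e2; linarith) (by exact_mod_cast k1)
    (by zify at k2; linarith) (by zify at h2 e1; linarith) (by omega) (by omega) (by omega)
  refine famT (T := T) (by omega) h1 h6 h2 ?_ (by omega) ?_ ?_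
  · zify at h5 hT ⊢; push_cast at this c; linarith
  · have t1 : 9 * (j * j) ≤ 20 * s := by nlinarith
    have t2 := Nat.pow_le_pow_left t1 2
    have t3 : 60 * j ^ 3 ≤ j * j ^ 3 := Nat.mul_le_mul_right _ hj
    have t4 : 6 * j.choose 3 ≤ j ^ 3 := by zify; nlinarith
    have t5 : 60 * j ≤ j ^ 3 := by nlinarith
    nlinarith
  · zify at h5 h2 e1 ⊢; push_cast at e4; linarith

lemma chainB {a0 : ℕ} (hb : 2 ≤ b) (hb3 : b % 3 ≠ 0) (h0 : 4 ≤ a0) (h2 : n < a0.choose 2 + 3)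
    (hp : vf n (a0 * b + b.choose 2 : ℕ) a0 b - 36 * b ≤ 6 * p) (ha : a0 ≤ a)
    (hn : a + 5 * b + 10 ≤ n) (h : 6 * p + 36 * b ≤ vf n (a * b + b.choose 2 : ℕ) a b) :
    Real n p := by
  induction a, ha using Nat.le_induction with
  | base => exact famB' (U := 3) hb hb3 le_rfl (by omega) (Or.inr ⟨rfl, h0⟩) (by omega) (by omega)
              (by push_cast at hp ⊢; linarith) h
  | succ a ha ih =>
    obtain ⟨U, rfl⟩ := Nat.exists_eq_add_of_le' (show a + 1 + 3 * b + 2 ≤ n by omega)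
    by_cases c : vf (U + (a + 1 + 3 * b + 2) : ℕ) ((a + 1) * b + b.choose 2 : ℕ) (a + 1 : ℕ) b
      - 12 * b * U ≤ 6 * p
    · refine famB' hb hb3 le_rfl (by omega) (Or.inr ⟨rfl, by omega⟩) ?_ (by omega) c h
      have := Nat.choose_le_choose 2 (show a0 ≤ a + 1 by omega)
      omega
    · refine ih (by omega) ?_
      have := mul_le_mul_of_nonneg_left (show 2 * (b : ℤ) + 8 ≤ U by omega)
        (show (0 : ℤ) ≤ b by omega)
      have e := c2 b
      unfold vf at *; push_cast at *; linarith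

lemma ineq3 {n s a b : ℤ} (hb : 2 ≤ b) (ha : 1 ≤ a) (h1 : 20 * b ≤ n) (h2 : 100 * a ≤ n)
    (h : 2 * s = 2 * a * b + b * (b - 1)) : vf n s a b - 36 * b ≤ b * n ^ 2 := by
  have s0 : 0 ≤ s := by nlinarith
  have t1 := mul_nonneg (show 0 ≤ a + b - 1 by omega) s0
  have t2 := mul_le_mul_of_nonneg_left (show 6 * n * a + 3 * n * (b - 1) + 3 * (a - 1) * (a - 2) +
    3 * (a - 1) * (b - 1) + (b - 1) * (b - 2) ≤ n ^ 2 by nlinarith) (show 0 ≤ b by omega)
  have t3 : n * (2 * s) = n * (2 * a * b + b * (b - 1)) := by rw [h]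
  unfold vf; linarith

lemma ineq4 {n s a b : ℤ} (hb : 2 ≤ b) (h1 : 20 * b ≤ n) (h2 : n = a + (5 * b + 10))
    (h : 2 * s = 2 * a * b + b * (b - 1)) : 2 * b * n ^ 2 + 36 * b ≤ vf n s a b := by
  subst h2
  have t1 := mul_nonneg (show 0 ≤ b by omega) (show 0 ≤ a ^ 2 + 4 * a * b - 50 * b ^ 2 + 17 * a
    - 200 * b - 236 by nlinarith)
  have t2 := mul_nonneg (show 0 ≤ a + 4 * b + 10 by omega) (mul_nonneg (show 0 ≤ b by omega)
    (show 0 ≤ b - 1 by omega))
  have t3 := mul_nonneg (show 0 ≤ b - 2 by omega) (mul_nonneg (show 0 ≤ b by omega)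
    (show 0 ≤ b - 1 by omega))
  have t4 : (4 * b + 11) * (2 * s) = (4 * b + 11) * (2 * a * b + b * (b - 1)) := by rw [h]
  unfold vf; linarith

theorem cont_real (hn : 10 ^ 50 ≤ n) (hT : Top n p) (hp : 4 * n ^ 3 ≤ p ^ 2) : Real n p := by
  by_cases c : n ^ 3 ≤ 120 * p
  · exact famU (le_trans (by norm_num) hn) hT c
  obtain ⟨a, a1, a2, a3⟩ := ex_star (n := n) (by omega)
  have ea := two_choose a
  have a4 : 100 * (a + 2) ≤ n := small_s hn (by nlinarith)
  have n0 : (10 ^ 50 : ℤ) ≤ n := by exact_mod_cast hn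
  have key : ∀ k, 20 * 2 ^ k ≤ n → 3 * p ≤ 2 ^ k * n ^ 2 → Real n p := by
    intro k
    induction k with
    | zero =>
      intro _ h
      obtain ⟨m, rfl⟩ := Nat.exists_eq_add_of_le' (show 10 ≤ n by omega)
      refine chain1 a1 a2 a3 ?_ (a := m) (by omega) le_rfl ?_
      · have : a * (m + 10) ≤ p := by
          refine Nat.le_of_not_lt fun hh => ?_
          have := Nat.pow_lt_pow_left hh two_ne_zero
          have : a ^ 2 * (m + 10) ^ 2 ≤ 2 * (m + 10) * (m + 10) ^ 2 :=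
            Nat.mul_le_mul_right _ (by nlinarith)
          nlinarith
        zify at this ea a1
        unfold vf; push_cast; nlinarith
      · zify at h
        unfold vf; push_cast at *; nlinarith
    | succ k ih =>
      intro h1 h2
      by_cases c' : 3 * p ≤ 2 ^ k * n ^ 2
      · exact ih (by rw [pow_succ] at h1; omega) c'
      have b3 := pow_mod3 (k + 1)
      have b1 : 1 ≤ 2 ^ k := Nat.one_le_two_pow
      have c'' : 2 ^ (k + 1) * n ^ 2 ≤ 6 * p := by rw [pow_succ]; nlinarith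
      have b2 : 2 ≤ 2 ^ (k + 1) := by rw [pow_succ]; omega
      generalize 2 ^ (k + 1) = b at *
      obtain ⟨m, rfl⟩ := Nat.exists_eq_add_of_le' (show 5 * b + 10 ≤ n by omega)
      have e := c2 b
      refine chainB (a := m) b2 b3 (by omega) a3 ?_ (by omega) (by omega) ?_
      · exact (ineq3 (by omega) (by omega) (by omega) (by omega) (by push_cast; linarith)).trans
          (by exact_mod_cast c'')
      · refine le_trans ?_ (ineq4 (by omega) (by omega) (by push_cast; ring)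
          (by push_cast; linarith))
        zify at h2; push_cast; linarith
  obtain ⟨k, k1, k2⟩ := ex_last (fun k => 20 * 2 ^ k ≤ n) (by simp; omega) n (by
    have := Nat.lt_two_pow_self (n := n)
    omega)
  refine key k k1 ?_
  rw [pow_succ] at k2
  have : n * n ^ 2 ≤ 40 * 2 ^ k * n ^ 2 := Nat.mul_le_mul_right _ (by omega)
  nlinarith

theorem main (hn : 10 ^ 50 ≤ n) (hp : 3000 * n ≤ p) :
    Real n p ↔ Top n p ∧ (4 * n ^ 3 ≤ p ^ 2 ∨ Band n p) := by
  refine ⟨?_, fun ⟨h1, h2⟩ => h2.elim (cont_real hn h1) (band_real hn hp)⟩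
  rintro ⟨X, hX, rfl, rfl⟩
  exact necessity hX hn hp

end Pool.Agent.P.MP_390d44_co
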