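import Pool.Agent.P.MP_390d44_co.Long

/-! The upper end of a band. -/

namespace Pool.Agent.P.MP_390d44_co

open Finset

variable {a b c l l' p p' y z A B W L : Sub} {X Y Z : Finset Sub}

def Good (d x : ℕ) : Prop := x % 3 = 0 ∨ (x % 3 = 1 ∧ (19 ≤ x ∨ 6 ≤ d)) ∨
  (x % 3 = 2 ∧ (38 ≤ x ∨ (20 ≤ x ∧ 6 ≤ d) ∨ 12 ≤ d))

lemma good_big {d x : ℕ} (h : 38 ≤ x) : Good d x := by unfold Good; omega

lemma three_choose (n : ℕ) : 3 * n.choose 3 = n.choose 2 * (n - 2) := by
  rw [mul_comm]; exact Nat.choose_succ_right_eq n 2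

lemma c2 (n : ℕ) : 2 * (n.choose 2 : ℤ) = n * (n - 1) := by
  have : 2 * (n.choose 2 : ℤ) + n = n * n := by exact_mod_cast two_choose n
  linarith

lemma c3 (n : ℕ) : 6 * (n.choose 3 : ℤ) = n * (n - 1) * (n - 2) := by
  induction n with
  | zero => simp
  | succ n ih =>
    rw [Nat.choose_succ_succ' n 2]; push_cast
    have := c2 n
    linarith

lemma good_plane {d x m i : ℕ} (h : Good d x) (hm : 3 ≤ m) (hi : i ≤ 1) :
    Good d (x + (m.choose 3 - 1 + i * m.choose 2)) := by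
  by_cases h8 : 8 ≤ m
  · have : 56 ≤ m.choose 3 := Nat.choose_le_choose 3 h8
    exact good_big (by omega)
  · unfold Good at *
    interval_cases m <;> interval_cases i <;> simp only [Nat.choose] <;> omega

lemma good_cls {d x m : ℕ} (h : Good d x) : Good (d + m.choose 2) (x + (m - 1).choose 3) := by
  by_cases h6 : 6 ≤ m
  · have : 15 ≤ m.choose 2 := Nat.choose_le_choose 2 h6
    unfold Good; omega
  · unfold Good at *
    interval_cases m <;> simp only [Nat.choose, Nat.reduceSub, Nat.zero_sub] <;> omega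

lemma good_sum1 {ι : Type*} (S : Finset ι) (m i : ι → ℕ) (hm : ∀ u ∈ S, 3 ≤ m u ∧ i u ≤ 1) :
    Good 0 (∑ u ∈ S, ((m u).choose 3 - 1 + i u * (m u).choose 2)) := by
  classical
  induction S using Finset.induction_on with
  | empty => left; simp
  | insert u S hu ih =>
    rw [sum_insert hu, add_comm]
    exact good_plane (ih fun v hv => hm v (mem_insert_of_mem hv)) (hm u (mem_insert_self _ _)).1
      (hm u (mem_insert_self _ _)).2

lemma good_sum2 {ι : Type*} (S : Finset ι) (m : ι → ℕ) {x : ℕ} (h : Good 0 x) :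
    Good (∑ u ∈ S, (m u).choose 2) (x + ∑ u ∈ S, (m u - 1).choose 3) := by
  classical
  induction S using Finset.induction_on with
  | empty => simpa
  | insert u S hu ih =>
    rw [sum_insert hu, sum_insert hu, add_comm ((m u).choose 2), add_comm ((m u - 1).choose 3),
      ← add_assoc]
    exact good_cls ih

lemma lns_le (hZ : IsPts Z) (c : Sub) : (lns Z c).card ≤ (pts Z c).card.choose 2 := by
  rw [← pairs_choose' hZ]
  simpa using card_nsmul_le_sum (lns Z c) (fun l => (pts Z l).card.choose 2) 1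
    fun l hl => one_le_choose hZ (mem_lns.1 hl).1

lemma card_add_le {ι : Type*} (S : Finset ι) (g : ι → ℕ) (h : ∀ u ∈ S, 1 ≤ g u) {u : ι} (hu : u ∈ S)
    (h3 : 3 ≤ g u) : S.card + 2 ≤ ∑ v ∈ S, g v := by
  classical
  rw [← add_sum_erase S g hu, ← card_erase_add_one hu]
  have : (S.erase u).card ≤ ∑ v ∈ S.erase u, g v := by
    simpa using card_nsmul_le_sum (S.erase u) g 1 fun v hv => h v (mem_of_mem_erase hv)
  omega

lemma tang1 (c k : ℤ) (hc : 1 ≤ c) (hk : 5 ≤ k) :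
    24 + 4 * (c * (c - 1)) * (k - c) ≤ ((k - 1) ^ 2 + 8) * c := by
  rcases hc.eq_or_lt with rfl | h
  · nlinarith
  rcases (show (2 : ℤ) ≤ c from h).eq_or_lt with rfl | h
  · nlinarith
  nlinarith [mul_nonneg (show 0 ≤ c by omega) (sq_nonneg (k + 1 - 2 * c))]

lemma tang (hZ : IsPts Z) (hL : rk L = 2) (hoff : ∀ z ∈ Z, ¬ z ≤ L) (k : ℤ) (hk : 5 ≤ k) :
    8 * (3 * ((cls Z L).card : ℤ) + (∑ c ∈ cls Z L, (pts Z c).card.choose 2 * (off Z c).card : ℕ))
      ≤ ((k - 1) ^ 2 + 8) * Z.card +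
        8 * (∑ c ∈ cls Z L, (pts Z c).card.choose 2 : ℕ) * (Z.card - k) := by
  conv_rhs => enter [1, 2]; rw [← sum_cls hZ hL hoff]
  push_cast
  rw [card_eq_sum_ones (cls Z L)]
  push_cast
  simp only [mul_sum, sum_mul, ← sum_add_distrib]
  refine sum_le_sum fun c hc => ?_
  have h1 := tang1 (pts Z c).card k (by exact_mod_cast cls_pos hc) hk
  have h2 : ((pts Z c).card : ℤ) + (off Z c).card = Z.card := by exact_mod_cast card_pts_off Z c
  rw [← c2] at h1
  rw [← h2]; linarith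

lemma lns_card (hZ : IsPts Z) (h2 : ∀ l ∈ lines Z, (pts Z l).card = 2) (c : Sub) :
    (lns Z c).card = (pts Z c).card.choose 2 := by
  rw [← pairs_choose' hZ, sum_congr rfl fun l hl => by rw [h2 l (mem_lns.1 hl).1]]
  simp

lemma exact_gen (hZ : IsPts Z) (hL : rk L = 2) (hoff : ∀ z ∈ Z, ¬ z ≤ L)
    (h2 : ∀ l ∈ lines Z, (pts Z l).card = 2) :
    3 * ∑ p ∈ pz Z L, (pts Z p).card.choose 3 = (skew Z L).card * (Z.card - 2) +
      ∑ c ∈ cls Z L, (pts Z c).card.choose 2 * (off Z c).card := by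
  have h := flags_eq hZ hL hoff
  rw [sum_congr rfl fun l hl => show (off Z l).card = Z.card - 2 by
    have := card_pts_off Z l; have := h2 l (mem_skew.1 hl).1; omega] at h
  simp only [lns_card hZ h2, sum_const, smul_eq_mul] at h
  rw [← h, mul_sum]
  refine sum_congr rfl fun p _ => ?_
  rw [three_choose, ← lns_card hZ h2, ← smul_eq_mul, ← sum_const]
  refine sum_congr rfl fun l hl => ?_
  have := card_pts_off (pts Z p) l
  rw [pts_pts (mem_lns.1 hl).2, h2 l (mem_lns.1 hl).1] at this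
  omega

lemma ww_eq (hL : rk L = 2) (hY : ∀ y ∈ Y, rk y = 1 ∧ y ≤ L)
    (h : ∀ y ∈ Y, ∀ l ∈ lines Z, ¬ y ≤ l) :
    (ww Y Z L).card = ∑ p ∈ pz Z L, (pts Y p).card * (lns Z p).card := by
  rw [card_eq_sum_card_fiberwise (s := ww Y Z L) (f := fun q => q.1 ⊔ q.2) (t := pz Z L)
    fun q hq => by
      obtain ⟨h1, h2⟩ := mem_filter.1 (mem_coe.1 hq)
      obtain ⟨l1, l2⟩ := mem_skew.1 (mem_product.1 h1).2
      exact mem_coe.2 (mem_pz.2 ⟨h2, skew_not_le hL (rk_line l1) l2 (rk_plane h2) le_sup_right⟩)]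
  refine sum_congr rfl fun p hp => ?_
  obtain ⟨p1, p2⟩ := mem_pz.1 hp
  rw [← card_product]; congr 1; ext ⟨y, l⟩
  simp only [ww, mem_filter, mem_product, mem_pts, mem_lns, mem_skew]
  constructor
  · rintro ⟨⟨⟨h1, h2, -⟩, -⟩, rfl⟩
    exact ⟨⟨h1, le_sup_left⟩, h2, le_sup_right⟩
  · rintro ⟨⟨h1, h2⟩, h3, h4⟩
    have e := plane_eq (rk_plane p1) (hY y h1).1 (rk_line h3) (h y h1 l h3) h2 h4
    refine ⟨⟨⟨h1, h3, ?_⟩, e ▸ p1⟩, e⟩
    by_contra hne
    obtain ⟨q, q1, q2, -⟩ := generic (W := l ⊓ L) (Nat.pos_of_ne_zero fun e => hne (rk_zero.1 e)) ∅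
      (by simp)
    have := pt_unique hL p2 (hY y h1).1 q1 (hY y h1).2 (q2.trans inf_le_right) h2
      (q2.trans (inf_le_left.trans h4))
    exact h y h1 l h3 (this ▸ q2.trans inf_le_left)

lemma pts_le_one (hL : rk L = 2) (hY : ∀ y ∈ Y, rk y = 1 ∧ y ≤ L) (hp : ¬ L ≤ p) :
    (pts Y p).card ≤ 1 := card_le_one.2 fun a ha b hb => by
  obtain ⟨a1, a2⟩ := mem_pts.1 ha
  obtain ⟨b1, b2⟩ := mem_pts.1 hb
  exact pt_unique hL hp (hY a a1).1 (hY b b1).1 (hY a a1).2 (hY b b1).2 a2 b2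

lemma ww_ge (hZ : IsPts Z) (hL : rk L = 2) (hoff : ∀ z ∈ Z, ¬ z ≤ L)
    (h2 : ∀ l ∈ lines Z, (pts Z l).card = 2) (hy : y ∈ Y) (hy1 : rk y = 1) (hyL : y ≤ L)
    (hl : l ∈ lines Z) (hyl : y ≤ l) : ∃ c ∈ cls Z L, (off Z c).card ≤ (ww Y Z L).card := by
  obtain ⟨u, hu, ul, -⟩ := exists_ne hZ hl ⊥
  have e : y ⊔ u = l := line_eq (rk_line hl) hy1 (hZ u hu) (fun e => hoff u hu (e ▸ hyL)) hyl ul
  refine ⟨u ⊔ L, mem_image_of_mem _ hu, card_le_card_of_injOn (fun z => (y, u ⊔ z))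
    (fun z hz => ?_) fun z hz z' hz' h => ?_⟩
  · obtain ⟨z1, z2⟩ := mem_off.1 hz
    have uz : u ≠ z := fun e => z2 (e ▸ le_sup_left)
    refine mem_filter.2 ⟨mem_product.2 ⟨hy, mem_skew.2 ⟨sup_mem_lines hZ hu z1 uz,
      (skew_iff hL (hZ u hu) (hZ z z1) uz (hoff u hu)).2 z2⟩⟩, ?_⟩
    rw [← sup_assoc, e, sup_comm]
    exact sup_mem_planes hZ z1 hl fun h => z2 (h.trans (e ▸ sup_le (hyL.trans le_sup_right)
      le_sup_left))
  · obtain ⟨z1, z2⟩ := mem_off.1 hz
    obtain ⟨z3, z4⟩ := mem_off.1 hz'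
    have h : u ⊔ z = u ⊔ z' := (Prod.ext_iff.1 h).2
    have uz : u ≠ z := fun e => z2 (e ▸ le_sup_left)
    have uz' : u ≠ z' := fun e => z4 (e ▸ le_sup_left)
    by_contra hne
    have := two_lt_card_iff.2 ⟨u, z, z', mem_pts.2 ⟨hu, (le_sup_left : u ≤ u ⊔ z)⟩,
      mem_pts.2 ⟨z1, le_sup_right⟩, mem_pts.2 ⟨z3, h ▸ le_sup_right⟩, uz, uz', hne⟩
    have := h2 _ (sup_mem_lines hZ hu z1 uz)
    omega

lemma three_le_pts (hZ : IsPts Z) (hp : p ∈ planes Z) : 3 ≤ (pts Z p).card := by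
  by_contra h
  have := (three_le_lns hZ hp).trans (lns_le hZ p)
  have := Nat.choose_le_choose 2 (show (pts Z p).card ≤ 2 by omega)
  simp at this; omega

lemma cls_id (m : ℕ) (h : 1 ≤ m) :
    3 * (m - 1).choose 3 + 3 * m.choose 2 + 3 + 2 * m.choose 2 = 3 * m + m.choose 2 * m := by
  obtain ⟨k, rfl⟩ := Nat.exists_eq_add_of_le' h
  rw [Nat.add_sub_cancel]
  have h1 := c3 k
  have h2 := c2 (k + 1)
  zify; push_cast at h2 ⊢; nlinarith

/-- the exact count in general position. -/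
lemma exact_good (hZ : IsPts Z) (hL : rk L = 2) (hoff : ∀ z ∈ Z, ¬ z ≤ L)
    (h2 : ∀ l ∈ lines Z, (pts Z l).card = 2) (hY : ∀ y ∈ Y, rk y = 1 ∧ y ≤ L)
    (h : ∀ y ∈ Y, ∀ l ∈ lines Z, ¬ y ≤ l) {d : ℕ} (hd : (skew Z L).card + d = Z.card.choose 2)
    (hj : 2 ≤ Z.card) : ∃ x, (cls Z L).card + (pz Z L).card + x + d =
      Z.card + Z.card.choose 3 + (ww Y Z L).card ∧ Good d x := by
  have e1 := pairs_split hZ hL hoff
  rw [sum_congr rfl fun l hl => by rw [h2 l (mem_skew.1 hl).1]] at e1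
  simp only [Nat.choose_self, sum_const, smul_eq_mul, mul_one] at e1
  obtain rfl : d = ∑ c ∈ cls Z L, (pts Z c).card.choose 2 := by omega
  refine ⟨_, ?_, good_sum2 (cls Z L) (fun c => (pts Z c).card) (good_sum1 (pz Z L)
    (fun p => (pts Z p).card) (fun p => (pts Y p).card) fun p hp =>
      ⟨three_le_pts hZ (mem_pz.1 hp).1, pts_le_one hL hY (mem_pz.1 hp).2⟩)⟩
  have e2 := exact_gen hZ hL hoff h2
  have e3 := ww_eq hL hY h
  simp only [lns_card hZ h2] at e3
  have e4 : (pz Z L).card + ∑ p ∈ pz Z L, ((pts Z p).card.choose 3 - 1 +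
      (pts Y p).card * (pts Z p).card.choose 2) = ∑ p ∈ pz Z L, (pts Z p).card.choose 3 +
      (ww Y Z L).card := by
    rw [e3, card_eq_sum_ones, ← sum_add_distrib, ← sum_add_distrib]
    exact sum_congr rfl fun p hp => by
      have := Nat.choose_pos (three_le_pts hZ (mem_pz.1 hp).1); omega
  have e5 : 3 * ∑ c ∈ cls Z L, ((pts Z c).card - 1).choose 3 + 3 * ∑ c ∈ cls Z L,
      (pts Z c).card.choose 2 + 3 * (cls Z L).card + 2 * ∑ c ∈ cls Z L, (pts Z c).card.choose 2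
      + ∑ c ∈ cls Z L, (pts Z c).card.choose 2 * (off Z c).card
      = 3 * ∑ c ∈ cls Z L, (pts Z c).card + (∑ c ∈ cls Z L, (pts Z c).card.choose 2) * Z.card := by
    rw [card_eq_sum_ones (cls Z L)]
    simp only [mul_sum, sum_mul, ← sum_add_distrib]
    exact sum_congr rfl fun c hc => by
      rw [← card_pts_off Z c, mul_add, mul_one, cls_id _ (cls_pos hc)]; ring
  rw [sum_cls hZ hL hoff] at e5
  have e6 := three_choose Z.card
  obtain ⟨k, hk⟩ := Nat.exists_eq_add_of_le' hj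
  rw [e1] at e6
  rw [hk, Nat.add_sub_cancel] at e2 e6
  rw [hk] at e5 ⊢
  rw [add_mul] at e6
  rw [mul_add, mul_add] at e5
  omega

lemma arithB3 {a i s d r P W N p S1 A' A D sa sb : ℤ} (h0 : p + W = r + N * s + P)
    (h1 : 3 * P ≤ S1 + A') (h2 : S1 + 2 * s ≤ s * (a + i)) (h3 : A' + sb ≤ A)
    (h4 : 2 * (s + D + sa) ≤ (a + i) * (a + i - 1))
    (h5 : 8 * (3 * r + A) ≤ ((3 * i + 5 - 1) ^ 2 + 8) * (a + i) + 8 * D * (a + i - (3 * i + 5)))
    (h6 : 2 * (s + d) = a * (a - 1)) (hk : 2 * i + 5 ≤ a) :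
    24 * (p + W + d) + 8 * sb + 8 * sa * (a - 2 * i - 5) +
      i * (3 * a * i + 12 * a - i ^ 2 - 12 * i - 44)
      ≤ 24 * s * (N + i) + 24 * a + 4 * (a * (a - 1) * (a - 2)) := by
  have := mul_le_mul_of_nonneg_right h4 (show 0 ≤ a - 2 * i - 5 by omega)
  linarith

lemma arithB2 {a i s d r P N p : ℤ} (h0 : p ≤ r + N * s + P) (h1 : 2 * P + 2 * s ≤ s * (a + i))
    (h2 : r ≤ a + i) (h6 : 2 * (s + d) = a * (a - 1)) (hk : a < 2 * i + 5) (ha : 76 ≤ a)
    (hd : d + 2 ≤ a) (hd0 : 0 ≤ d) :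
    6 * (p + 38 + d) ≤ 6 * s * (N + i) + 6 * a + a * (a - 1) * (a - 2) := by
  have hs : 2 ≤ s := by nlinarith
  have e : a * (a - 1) * (a - 2) = 2 * (s + d) * (a - 2) := by rw [h6]
  have h7 : 0 ≤ (s - 2) * (3 * i - a + 2) := mul_nonneg (by omega) (by omega)
  have h8 : 0 ≤ d * (a - 5) := mul_nonneg hd0 (by omega)
  have h9 : 100 * a ≤ s * (3 * i - a + 2) - 6 * i + 2 * d * (a - 5) := by
    have : 30 * a ≤ s := by nlinarith
    nlinarith [mul_nonneg (show 0 ≤ s - 6 by omega) (show 0 ≤ 2 * i + 4 - a by omega),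
      mul_nonneg (show 0 ≤ s - 30 * a by omega) (show 0 ≤ a - 76 by omega)]
  nlinarith

theorem upper (hX : IsPts X) (hL : L ∈ lines X) {a d : ℕ} (ha : 76 ≤ a) (hd : d + 2 ≤ a)
    (hs : (skew (off X L) L).card + d = a.choose 2) : a ≤ (off X L).card ∧
    ∃ x, (planes X).card + x + d = (skew (off X L) L).card * (X.card - a) + a + a.choose 3 ∧
      Good d x := by
  have hZ := hX.mono (off_sub (X := X) (L := L))
  have r2 := rk_line hL
  have F0 := long_formula hX hL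
  have hn := card_pts_off X L
  have hY : ∀ y ∈ pts X L, rk y = 1 ∧ y ≤ L := fun y hy => ⟨hX y (mem_pts.1 hy).1, (mem_pts.1 hy).2⟩
  have hoff : ∀ z ∈ off X L, ¬ z ≤ L := fun z hz => (mem_off.1 hz).2
  generalize off X L = Z at *
  generalize pts X L = Y at *
  have F1 := three_pz hZ r2 hoff
  have F2 := sum_off_skew (L := L) hZ
  have F3 := pairs_split hZ r2 hoff
  have F4 : (skew Z L).card ≤ ∑ l ∈ skew Z L, (pts Z l).card.choose 2 := by
    simpa using card_nsmul_le_sum (skew Z L) (fun l => (pts Z l).card.choose 2) 1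
      fun l hl => one_le_choose hZ (mem_skew.1 hl).1
  have F5 : ∑ c ∈ cls Z L, (lns Z c).card * (off Z c).card ≤
      ∑ c ∈ cls Z L, (pts Z c).card.choose 2 * (off Z c).card :=
    sum_le_sum fun c _ => Nat.mul_le_mul_right _ (lns_le hZ c)
  have hj : a ≤ Z.card := by
    by_contra h
    have h1 := Nat.choose_le_choose 2 (show Z.card ≤ a - 1 by omega)
    obtain ⟨k, rfl⟩ := Nat.exists_eq_add_of_le' (show 1 ≤ a by omega)
    rw [Nat.choose_succ_succ' k 1, Nat.choose_one_right] at hs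
    simp only [Nat.add_sub_cancel, Nat.reduceAdd] at h1 hs
    omega
  refine ⟨hj, ?_⟩
  obtain ⟨i, hi⟩ := Nat.exists_eq_add_of_le hj
  rw [show X.card - a = Y.card + i by omega]
  have big : (planes X).card + 38 + d ≤ (skew Z L).card * (Y.card + i) + a + a.choose 3 →
      ∃ x, (planes X).card + x + d = (skew Z L).card * (Y.card + i) + a + a.choose 3 ∧
      Good d x := fun h => ⟨_, (Nat.add_right_comm _ _ _).trans (Nat.add_sub_cancel' (by omega)),
        good_big (by omega)⟩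
  have h6 : 2 * (((skew Z L).card : ℤ) + d) = a * (a - 1) := by rw [← c2]; exact_mod_cast by omega
  have ca := c3 a
  have hi' : (Z.card : ℤ) = a + i := by exact_mod_cast hi
  have F0' : ((planes X).card : ℤ) + (ww Y Z L).card = (cls Z L).card + Y.card * (skew Z L).card
      + (pz Z L).card := by exact_mod_cast F0
  by_cases hk : a < 2 * i + 5
  · have h1 : 2 * ((pz Z L).card : ℤ) + 2 * (skew Z L).card ≤ (skew Z L).card * (a + i) := by
      rw [← hi']; exact_mod_cast two_pz hZ r2 hoff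
    have h2 : ((cls Z L).card : ℤ) ≤ a + i := by rw [← hi']; exact_mod_cast card_image_le
    have := arithB2 (p := (planes X).card) (N := Y.card) (by omega) h1 h2 h6 (by omega) (by omega)
      (by omega) (by omega)
    exact big (by zify; linarith)
  have key := fun (sa sb : ℕ) (h3 : ∑ c ∈ cls Z L, (lns Z c).card * (off Z c).card + sb ≤
      ∑ c ∈ cls Z L, (pts Z c).card.choose 2 * (off Z c).card)
      (h4 : (skew Z L).card + sa ≤ ∑ l ∈ skew Z L, (pts Z l).card.choose 2) =>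
    arithB3 (a := a) (i := i) (sa := sa) (sb := sb)
      (S1 := (∑ l ∈ skew Z L, (off Z l).card : ℕ))
      (A' := (∑ c ∈ cls Z L, (lns Z c).card * (off Z c).card : ℕ))
      (A := (∑ c ∈ cls Z L, (pts Z c).card.choose 2 * (off Z c).card : ℕ))
      (D := (∑ c ∈ cls Z L, (pts Z c).card.choose 2 : ℕ)) F0' (by exact_mod_cast F1)
      (by rw [← hi']; exact_mod_cast F2) (by exact_mod_cast h3)
      (by rw [← hi', ← c2]; exact_mod_cast (by omega : 2 * ((skew Z L).card +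
        ∑ c ∈ cls Z L, (pts Z c).card.choose 2 + sa) ≤ 2 * Z.card.choose 2))
      (by rw [← hi']; exact tang hZ r2 hoff _ (by omega)) h6 (by omega)
  have W0 : (0 : ℤ) ≤ (ww Y Z L).card := by positivity
  rcases i.eq_zero_or_pos with rfl | hi0
  swap
  · have h1 := key 0 0 F5 F4
    have h2 : (912 : ℤ) ≤ i * (3 * a * i + 12 * a - i ^ 2 - 12 * i - 44) := by
      have i1 : (1 : ℤ) ≤ i := by exact_mod_cast hi0
      have a1 : (76 : ℤ) ≤ a := by exact_mod_cast ha
      have a2 : 2 * (i : ℤ) + 5 ≤ a := by omega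
      have : (912 : ℤ) ≤ 3 * a * i + 12 * a - i ^ 2 - 12 * i - 44 := by nlinarith
      nlinarith
    exact big (by zify; simp only [Nat.cast_zero] at h1; linarith)
  by_cases hα : ∃ l ∈ skew Z L, 3 ≤ (pts Z l).card
  · obtain ⟨l, hl, h⟩ := hα
    have h1 := key 2 0 F5 (card_add_le _ _ (fun l hl => one_le_choose hZ (mem_skew.1 hl).1) hl
      (Nat.choose_le_choose 2 h))
    have a1 : (76 : ℤ) ≤ a := by exact_mod_cast ha
    exact big (by zify; simp only [Nat.cast_zero, Nat.cast_ofNat] at h1 ⊢; linarith)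
  have offc : ∀ c ∈ cls Z L, 57 ≤ (off Z c).card := fun c hc => by
    have h1 := single_le_sum (f := fun c => (pts Z c).card.choose 2) (fun _ _ => Nat.zero_le _) hc
    have h2 := card_pts_off Z c
    have h3 := two_choose (pts Z c).card
    rw [add_zero] at hi
    rw [hi] at F3
    by_contra h
    have : 20 * (pts Z c).card ≤ (pts Z c).card * (pts Z c).card :=
      Nat.mul_le_mul_right _ (by omega)
    omega
  by_cases hβ : ∃ c ∈ cls Z L, ∃ l ∈ lns Z c, 3 ≤ (pts Z l).card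
  · obtain ⟨c, hc, l, hl, h⟩ := hβ
    have h0 := card_add_le _ _ (fun l hl => one_le_choose hZ (mem_lns.1 hl).1) hl
      (Nat.choose_le_choose 2 h)
    rw [pairs_choose' hZ] at h0
    have h1 := key 0 114 (by
      rw [← add_sum_erase _ _ hc, ← add_sum_erase _ _ hc]
      have := Nat.mul_le_mul_right (off Z c).card h0
      have := offc c hc
      have : ∑ c ∈ (cls Z L).erase c, (lns Z c).card * (off Z c).card ≤
          ∑ c ∈ (cls Z L).erase c, (pts Z c).card.choose 2 * (off Z c).card :=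
        sum_le_sum fun c _ => Nat.mul_le_mul_right _ (lns_le hZ c)
      nlinarith) F4
    exact big (by zify; simp only [Nat.cast_zero, Nat.cast_ofNat] at h1 ⊢; linarith)
  have h2 : ∀ l ∈ lines Z, (pts Z l).card = 2 := by
    have := sum_lines_split hZ r2 hoff fun l => (pts Z l).card - 2
    rw [sum_eq_zero (s := skew Z L) fun l hl => by
        have : ¬ 3 ≤ (pts Z l).card := fun h => hα ⟨l, hl, h⟩
        omega, sum_eq_zero (s := cls Z L) fun c hc => sum_eq_zero fun l hl => by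
        have : ¬ 3 ≤ (pts Z l).card := fun h => hβ ⟨c, hc, l, hl, h⟩
        omega, add_zero, sum_eq_zero_iff] at this
    intro l hl
    have := this l hl
    have := two_le_pts hZ hl
    omega
  by_cases hγ : ∃ y ∈ Y, ∃ l ∈ lines Z, y ≤ l
  · obtain ⟨y, hy, l, hl, h⟩ := hγ
    obtain ⟨c, hc, h1⟩ := ww_ge hZ r2 hoff h2 hy (hY y hy).1 (hY y hy).2 hl h
    have : (57 : ℤ) ≤ (ww Y Z L).card := by exact_mod_cast (offc c hc).trans h1
    have h1 := key 0 0 F5 F4
    exact big (by zify; simp only [Nat.cast_zero] at h1 ⊢; linarith)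
  push Not at hγ
  rw [add_zero] at hi
  obtain ⟨x, e, hx⟩ := exact_good hZ r2 hoff h2 hY hγ (hi ▸ hs) (by omega)
  refine ⟨x, ?_, hx⟩
  rw [hi] at e
  rw [add_zero, mul_comm]
  omega

/-- crude bound. -/
theorem crude (hX : IsPts X) (hL : L ∈ lines X) :
    (planes X).card ≤ X.card * ((skew (off X L) L).card + 1) := by
  have F0 := long_formula hX hL
  have hn := card_pts_off X L
  have h1 := two_pz (hX.mono off_sub) (rk_line hL) fun z (hz : z ∈ off X L) => (mem_off.1 hz).2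
  have h2 : (cls (off X L) L).card ≤ (off X L).card := card_image_le
  rw [← hn]; nlinarith

end Pool.Agent.P.MP_390d44_co
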