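import Pool.Agent.P.MP_390d44_co.ST

/-! A non-collinear planar set of `j` points spans at least `j - 1` non-vertical lines. -/

namespace Pool.Agent.P.MP_390d44_co

open Finset

/-- slope and intercept of the line through two points. -/
noncomputable def lt2 (u v : Pt) : Pt :=
  ((v.2 - u.2) / (v.1 - u.1), u.2 - (v.2 - u.2) / (v.1 - u.1) * u.1)

lemma lt2_left (u v : Pt) : u.2 = (lt2 u v).1 * u.1 + (lt2 u v).2 := by simp [lt2]

lemma lt2_right {u v : Pt} (h : u.1 ≠ v.1) : v.2 = (lt2 u v).1 * v.1 + (lt2 u v).2 := by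
  have : v.1 - u.1 ≠ 0 := sub_ne_zero.2 h.symm
  simp only [lt2]; field_simp; ring

open Classical in
noncomputable def nv (P : Finset Pt) : Finset Pt :=
  ((P ×ˢ P).filter fun p => p.1.1 ≠ p.2.1).image fun p => lt2 p.1 p.2

lemma mem_nv {P : Finset Pt} {g : Pt} :
    g ∈ nv P ↔ ∃ u ∈ onl P g, ∃ v ∈ onl P g, u.1 ≠ v.1 := by
  simp only [nv, mem_image, mem_filter, mem_product, mem_onl]
  constructor
  · rintro ⟨⟨u, v⟩, ⟨⟨hu, hv⟩, h⟩, rfl⟩
    exact ⟨u, ⟨hu, lt2_left u v⟩, v, ⟨hv, lt2_right h⟩, h⟩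
  · rintro ⟨u, ⟨hu, h1⟩, v, ⟨hv, h2⟩, h⟩
    exact ⟨(u, v), ⟨⟨hu, hv⟩, h⟩,
      line_eq_of_two h (by rw [← lt2_left, h1]) (by rw [← lt2_right h, h2])⟩

lemma lt2_mem {P : Finset Pt} {u v : Pt} (hu : u ∈ P) (hv : v ∈ P) (h : u.1 ≠ v.1) :
    lt2 u v ∈ nv P :=
  mem_nv.2 ⟨u, mem_onl.2 ⟨hu, lt2_left u v⟩, v, mem_onl.2 ⟨hv, lt2_right h⟩, h⟩

lemma onl_eq {P : Finset Pt} {g u v : Pt} (hu : u ∈ onl P g) (hv : v ∈ onl P g) (h : u.1 = v.1) :
    u = v := Prod.ext h (by rw [(mem_onl.1 hu).2, (mem_onl.1 hv).2, h])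

/-- vertical offset of `b` from the line through `z` and `c`, when `b, c` lie on `g`. -/
lemma off_lt2 {g z b c : Pt} (hb : b.2 = g.1 * b.1 + g.2) (hc : c.2 = g.1 * c.1 + g.2)
    (h : z.1 ≠ c.1) :
    b.2 - ((lt2 z c).1 * b.1 + (lt2 z c).2)
      = -(z.2 - (g.1 * z.1 + g.2)) * ((c.1 - b.1) / (c.1 - z.1)) ∧
    (lt2 z c).1 = g.1 - (z.2 - (g.1 * z.1 + g.2)) / (c.1 - z.1) := by
  have : c.1 - z.1 ≠ 0 := sub_ne_zero.2 h.symm
  simp only [lt2, hb, hc]
  constructor <;> field_simp <;> ring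

theorem exists_ordinary (P : Finset Pt) (h1 : ∃ u ∈ P, ∃ v ∈ P, u.1 ≠ v.1)
    (h2 : ∀ g : Pt, ∃ u ∈ P, u ∉ onl P g) : ∃ g ∈ nv P, (onl P g).card = 2 := by
  classical
  let d : Pt × Pt → ℝ := fun p => |p.1.2 - (p.2.1 * p.1.1 + p.2.2)|
  set A := (P ×ˢ nv P).filter fun p => p.1 ∉ onl P p.2 with hA
  have hne : A.Nonempty := by
    obtain ⟨u, hu, v, hv, h⟩ := h1
    obtain ⟨w, hw, hw'⟩ := h2 (lt2 u v)
    exact ⟨(w, lt2 u v), mem_filter.2 ⟨mem_product.2 ⟨hw, lt2_mem hu hv h⟩, hw'⟩⟩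
  obtain ⟨p0, hp0, hmin⟩ := exists_min_image A d hne
  obtain ⟨⟨z, g⟩, hp, hmax⟩ := exists_max_image (A.filter fun p => d p = d p0) (fun p => p.2.1)
    ⟨p0, mem_filter.2 ⟨hp0, rfl⟩⟩
  obtain ⟨hpA, hd⟩ := mem_filter.1 hp
  obtain ⟨hzg, hoff⟩ := mem_filter.1 hpA
  obtain ⟨hz, hg⟩ := mem_product.1 hzg
  refine ⟨g, hg, ?_⟩
  set δ := z.2 - (g.1 * z.1 + g.2) with hδ
  have δ0 : δ ≠ 0 := fun h => hoff (mem_onl.2 ⟨hz, by linarith⟩)
  have hd' : d p0 = |δ| := hd.symm
  -- the key comparison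
  have key : ∀ b ∈ onl P g, ∀ c ∈ onl P g, b.1 ≠ c.1 → z.1 ≠ c.1 →
      1 ≤ |(c.1 - b.1) / (c.1 - z.1)| ∧ (b.1 = z.1 → 0 ≤ δ / (c.1 - z.1)) := by
    intro b hb c hc hbc hzc
    obtain ⟨o1, o2⟩ := off_lt2 (mem_onl.1 hb).2 (mem_onl.1 hc).2 hzc
    have r0 : (c.1 - b.1) / (c.1 - z.1) ≠ 0 :=
      div_ne_zero (sub_ne_zero.2 hbc.symm) (sub_ne_zero.2 hzc.symm)
    have hm : (b, lt2 z c) ∈ A := mem_filter.2 ⟨mem_product.2 ⟨(mem_onl.1 hb).1,
      lt2_mem hz (mem_onl.1 hc).1 hzc⟩, fun h => by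
        have := (mem_onl.1 h).2
        exact mul_ne_zero (neg_ne_zero.2 δ0) r0 (by rw [← o1]; linarith)⟩
    have e : d (b, lt2 z c) = |δ| * |(c.1 - b.1) / (c.1 - z.1)| := by
      simp only [d]; rw [o1, abs_mul, abs_neg]
    have a0 : 0 < |δ| := abs_pos.2 δ0
    refine ⟨?_, fun h => ?_⟩
    · have := hmin _ hm
      rw [e, hd'] at this
      nlinarith
    · have := hmax (b, lt2 z c) (mem_filter.2 ⟨hm, by
        rw [e, hd', h, div_self (sub_ne_zero.2 hzc.symm), abs_one, mul_one]⟩)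
      simp only at this
      linarith
  obtain ⟨u, hu, v, hv, huv⟩ := mem_nv.1 hg
  have c2 : 2 ≤ (onl P g).card :=
    one_lt_card.2 ⟨u, hu, v, hv, fun h => huv (by rw [h])⟩
  by_contra hne
  obtain ⟨a, ha, hamin⟩ := exists_min_image (onl P g) (fun u => u.1) ⟨u, hu⟩
  obtain ⟨c, hc, hcmax⟩ := exists_max_image (onl P g) (fun u => u.1) ⟨u, hu⟩
  obtain ⟨b, hb, hba, hbc⟩ : ∃ b ∈ onl P g, b ≠ a ∧ b ≠ c := by
    by_contra hh
    push Not at hh
    have : onl P g ⊆ {a, c} := fun b hb => by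
      by_cases h : b = a
      · simp [h]
      · simp [hh b hb h]
    have := (card_le_card this).trans card_le_two
    omega
  have l1 : a.1 < b.1 := lt_of_le_of_ne (hamin b hb) fun h => hba (onl_eq hb ha h.symm)
  have l2 : b.1 < c.1 := lt_of_le_of_ne (hcmax b hb) fun h => hbc (onl_eq hb hc h)
  rcases lt_trichotomy z.1 b.1 with h | h | h
  · have := (key b hb c hc l2.ne (by linarith)).1
    rw [abs_of_pos (div_pos (by linarith) (by linarith)), le_div_iff₀ (by linarith)] at this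
    linarith
  · have k1 := (key b hb c hc l2.ne (by linarith)).2 h.symm
    have k2 := (key b hb a ha l1.ne' (by linarith)).2 h.symm
    rcases lt_or_gt_of_ne δ0 with h' | h'
    · exact absurd k1 (not_le.2 (div_neg_of_neg_of_pos h' (by linarith)))
    · exact absurd k2 (not_le.2 (div_neg_of_pos_of_neg h' (by linarith)))
  · have := (key b hb a ha l1.ne' (by linarith)).1
    rw [abs_of_pos (div_pos_of_neg_of_neg (by linarith) (by linarith)),
      le_div_iff_of_neg (by linarith)] at this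
    linarith

lemma nv_mono {P Q : Finset Pt} (h : P ⊆ Q) : nv P ⊆ nv Q := fun g hg => by
  obtain ⟨u, hu, v, hv, huv⟩ := mem_nv.1 hg
  exact mem_nv.2 ⟨u, mem_onl.2 ⟨h (mem_onl.1 hu).1, (mem_onl.1 hu).2⟩, v,
    mem_onl.2 ⟨h (mem_onl.1 hv).1, (mem_onl.1 hv).2⟩, huv⟩

theorem nv_card (P : Finset Pt) (h1 : ∃ u ∈ P, ∃ v ∈ P, u.1 ≠ v.1)
    (h2 : ∀ g : Pt, ∃ u ∈ P, u ∉ onl P g) : P.card ≤ (nv P).card + 1 := by
  classical
  induction P using Finset.strongInduction with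
  | H P ih =>
  obtain ⟨g, hg, hc⟩ := exists_ordinary P h1 h2
  obtain ⟨z, z', hzz, hzs⟩ := card_eq_two.1 hc
  have hz : z ∈ onl P g := by rw [hzs]; simp
  have hzP := (mem_onl.1 hz).1
  have hcard : P.card = (P.erase z).card + 1 := (card_erase_add_one hzP).symm
  by_cases v : ∃ u ∈ P.erase z, ∃ v ∈ P.erase z, u.1 ≠ v.1
  · by_cases w : ∀ g : Pt, ∃ u ∈ P.erase z, u ∉ onl (P.erase z) g
    · have := ih _ (erase_ssubset hzP) v w
      have hs : nv (P.erase z) ⊂ nv P := ⟨nv_mono (erase_subset _ _), fun h => by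
        obtain ⟨a, ha, b, hb, hab⟩ := mem_nv.1 (h hg)
        have f : ∀ a ∈ onl (P.erase z) g, a = z' := fun a ha => by
          have h1 := mem_erase.1 (mem_onl.1 ha).1
          have : a ∈ onl P g := mem_onl.2 ⟨h1.2, (mem_onl.1 ha).2⟩
          rw [hzs] at this
          simpa [h1.1] using this
        exact hab (by rw [f a ha, f b hb])⟩
      have := card_lt_card hs
      omega
    · push Not at w
      obtain ⟨m, hm⟩ := w
      have hzm : z.2 ≠ m.1 * z.1 + m.2 := fun h => by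
        obtain ⟨u, hu, hu'⟩ := h2 m
        by_cases huz : u = z
        · exact hu' (mem_onl.2 ⟨hu, huz ▸ h⟩)
        · exact hu' (mem_onl.2 ⟨hu, (mem_onl.1 (hm u (mem_erase.2 ⟨huz, hu⟩))).2⟩)
      have hmP : m ∈ nv P := by
        obtain ⟨a, ha, b, hb, hab⟩ := v
        exact nv_mono (erase_subset z P) (mem_nv.2 ⟨a, hm a ha, b, hm b hb, hab⟩)
      have : (P.erase z).card ≤ (nv P).card := by
        refine card_le_card_of_injOn (fun u => if u.1 = z.1 then m else lt2 z u) ?_ ?_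
        · intro u hu
          by_cases h : u.1 = z.1
          · simpa [h] using hmP
          · simpa [h] using lt2_mem hzP (mem_erase.1 hu).2 (Ne.symm h)
        · intro a ha b hb hab
          have ha' := hm a ha
          have hb' := hm b hb
          by_cases h : a.1 = z.1 <;> by_cases h' : b.1 = z.1 <;> simp only [h, h', if_true,
            if_false] at hab
          · exact onl_eq ha' hb' (h.trans h'.symm)
          · exact absurd (by rw [hab]; exact lt2_left z b) hzm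
          · exact absurd (by rw [← hab]; exact lt2_left z a) hzm
          · by_contra hne
            have : lt2 z a = m := line_eq_of_two (fun e => hne (onl_eq ha' hb' e))
              (by rw [← lt2_right (Ne.symm h), (mem_onl.1 ha').2])
              (by rw [hab, ← lt2_right (Ne.symm h'), (mem_onl.1 hb').2])
            exact hzm (by rw [← this]; exact lt2_left z a)
      omega
  · push Not at v
    have hx : ∀ u ∈ P.erase z, z.1 ≠ u.1 := fun u hu h => by
      obtain ⟨a, ha, b, hb, hab⟩ := h1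
      have f : ∀ a ∈ P, a.1 = z.1 := fun a ha => by
        by_cases e : a = z
        · rw [e]
        · rw [h]; exact v a (mem_erase.2 ⟨e, ha⟩) u hu
      exact hab (by rw [f a ha, f b hb])
    have : (P.erase z).card ≤ (nv P).card := by
      refine card_le_card_of_injOn (fun u => lt2 z u)
        (fun u hu => lt2_mem hzP (mem_erase.1 hu).2 (hx u hu)) fun a ha b hb hab => ?_
      have e := v a ha b hb
      have hab : lt2 z a = lt2 z b := hab
      exact Prod.ext e (by rw [lt2_right (hx a ha), lt2_right (hx b hb), hab, e])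
    omega

end Pool.Agent.P.MP_390d44_co
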