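import Pool.Agent.P.MP_390d44_co.Proj
import Pool.Agent.P.MP_390d44_co.NV

/-! Transfer of the planar inequalities to projective point sets. -/

namespace Pool.Agent.P.MP_390d44_co

open Finset

variable {a b c l l' p p' A B W L : Sub} {X Y Z : Finset Sub}

abbrev Fn := Module.Dual ℝ V

lemma exists_rep (x : Sub) : ∃ v : V, rk x = 1 → x = Submodule.span ℝ {v} := by
  by_cases h : rk x = 1
  · obtain ⟨v, hv, v0⟩ := (Submodule.ne_bot_iff x).1 (ne_bot_of_rk (by omega))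
    exact ⟨v, fun _ => (eq_of_rk ((Submodule.span_singleton_le_iff_mem _ _).2 hv)
      (by rw [h]; exact (finrank_span_singleton v0).ge)).symm⟩
  · exact ⟨0, fun e => absurd e h⟩

noncomputable def rep (x : Sub) : V := (exists_rep x).choose

lemma le_ker (ha : rk a = 1) (f : Fn) : a ≤ LinearMap.ker f ↔ f (rep a) = 0 := by
  conv_lhs => rw [(exists_rep a).choose_spec ha]
  rw [Submodule.span_singleton_le_iff_mem]; rfl

lemma rk_inf_ker (W : Sub) (f : Fn) : rk W ≤ rk (W ⊓ LinearMap.ker f) + 1 := by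
  have h1 := rk_sup_inf W (LinearMap.ker f)
  have h2 := rk_le_four (W ⊔ LinearMap.ker f)
  have h3 := f.finrank_range_add_finrank_ker
  have h4 : Module.finrank ℝ (LinearMap.range f) ≤ 1 := by
    simpa using Submodule.finrank_le (LinearMap.range f)
  have h5 : Module.finrank ℝ V = 4 := by simp
  have : rk (LinearMap.ker f) = Module.finrank ℝ (LinearMap.ker f) := rfl
  omega

lemma choose_fn (L : Sub) (F : Finset Sub) (h : ∀ W ∈ F, ¬ W ≤ L) :
    ∃ f : Fn, L ≤ LinearMap.ker f ∧ ∀ W ∈ F, ¬ W ≤ LinearMap.ker f := by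
  have : ∀ W : F, ∃ v ∈ W.1, v ∉ L := fun W => SetLike.not_le_iff_exists.1 (h W.1 W.2)
  choose v hv hv' using this
  obtain ⟨f, hf⟩ := Module.exists_dual_forall_apply_ne_zero (K := ℝ) (fun W : F => L.mkQ (v W))
    fun W => by simpa using hv' W
  refine ⟨f.comp L.mkQ, fun u hu => ?_, fun W hW e => hf ⟨W, hW⟩ (e (hv ⟨W, hW⟩))⟩
  simp [(Submodule.Quotient.mk_eq_zero L).2 hu]

noncomputable def phi (f0 f1 f2 : Fn) (x : Sub) : Pt :=
  (f1 (rep x) / f0 (rep x), f2 (rep x) / f0 (rep x))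

variable {f0 f1 f2 : Fn}

lemma phi_fst (ha : rk a = 1) (h0 : ¬ a ≤ LinearMap.ker f0) (t : ℝ) :
    (phi f0 f1 f2 a).1 = t ↔ a ≤ LinearMap.ker (f1 - t • f0) := by
  rw [le_ker ha] at h0 ⊢
  simp only [phi, LinearMap.sub_apply, LinearMap.smul_apply, smul_eq_mul, div_eq_iff h0,
    sub_eq_zero]

lemma phi_on (ha : rk a = 1) (h0 : ¬ a ≤ LinearMap.ker f0) (g : Pt) :
    (phi f0 f1 f2 a).2 = g.1 * (phi f0 f1 f2 a).1 + g.2 ↔
      a ≤ LinearMap.ker (f2 - g.1 • f1 - g.2 • f0) := by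
  rw [le_ker ha] at h0 ⊢
  simp only [phi, LinearMap.sub_apply, LinearMap.smul_apply, smul_eq_mul]
  constructor
  · intro h; field_simp at h; linarith
  · intro h; field_simp; linarith

lemma ker_step {t : ℝ} (h : W ≤ LinearMap.ker (f1 - t • f0)) :
    W ⊓ LinearMap.ker f0 ≤ LinearMap.ker f1 := fun v hv => by
  have h1 := h hv.1
  have h2 := hv.2
  simp only [LinearMap.mem_ker, LinearMap.sub_apply, LinearMap.smul_apply, SetLike.mem_coe]
    at h1 h2 ⊢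
  rw [h2] at h1; simpa using h1

lemma ker_step2 {g : Pt} (h : W ≤ LinearMap.ker (f2 - g.1 • f1 - g.2 • f0)) :
    W ⊓ LinearMap.ker f0 ⊓ LinearMap.ker f1 ≤ LinearMap.ker f2 := by
  refine ker_step (t := g.1) (ker_step (t := g.2) h)

theorem rich_lines (hX : IsPts X) (hn : 1 ≤ X.card) {t : ℕ} (ht : 1 ≤ t) (S : Finset Sub)
    (hS : S ⊆ lines X) (h : ∀ l ∈ S, t + 1 ≤ (pts X l).card) :
    (S.card : ℝ) ≤ 288 * X.card ^ 2 / t ^ 3 + 6 * X.card / t := by
  classical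
  obtain ⟨f0, -, h0⟩ := choose_fn ⊥ X fun W hW => not_le_of_rk (by rw [rk_bot, hX W hW]; omega)
  obtain ⟨f1, -, h1⟩ := choose_fn ⊥ ((lines X).image (· ⊓ LinearMap.ker f0)) fun W hW => by
    obtain ⟨l, hl, rfl⟩ := mem_image.1 hW
    have := rk_inf_ker l f0
    exact not_le_of_rk (by rw [rk_bot]; rw [rk_line hl] at this; omega)
  obtain ⟨f2, -, h2⟩ := choose_fn ⊥
    ((planes X).image (· ⊓ LinearMap.ker f0 ⊓ LinearMap.ker f1)) fun W hW => by
    obtain ⟨l, hl, rfl⟩ := mem_image.1 hW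
    have := rk_inf_ker l f0
    have := rk_inf_ker (l ⊓ LinearMap.ker f0) f1
    exact not_le_of_rk (by rw [rk_bot]; have := rk_plane hl; omega)
  have inj : ∀ a ∈ X, ∀ b ∈ X, (phi f0 f1 f2 a).1 = (phi f0 f1 f2 b).1 → a = b := by
    intro a ha b hb e
    by_contra hne
    exact h1 _ (mem_image_of_mem _ (sup_mem_lines hX ha hb hne)) (ker_step (sup_le
      ((phi_fst (hX a ha) (h0 a ha) _).1 e) ((phi_fst (hX b hb) (h0 b hb) _).1 rfl)))
  have inj' : Set.InjOn (phi f0 f1 f2) X := fun a ha b hb e => inj a ha b hb (by rw [e])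
  have hg : ∀ l ∈ lines X, ∃ g : Pt, l ≤ LinearMap.ker (f2 - g.1 • f1 - g.2 • f0) := by
    intro l hl
    obtain ⟨hl2, a, ha, b, hb, e, la, lb⟩ := (mem_lines hX).1 hl
    exact ⟨lt2 (phi f0 f1 f2 a) (phi f0 f1 f2 b), line_le hl2 (hX a ha) (hX b hb) e la lb
      ((phi_on (hX a ha) (h0 a ha) _).1 (lt2_left _ _))
      ((phi_on (hX b hb) (h0 b hb) _).1 (lt2_right fun e' => e (inj a ha b hb e')))⟩
  choose! g hg using hg
  have ginj : Set.InjOn g S := by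
    intro l hl l' hl' e
    by_contra hne
    have hl := hS hl
    have hl' := hS hl'
    obtain ⟨x, hx, x1, x2⟩ : ∃ x ∈ X, x ≤ l' ∧ ¬ x ≤ l := by
      by_contra hh
      push Not at hh
      exact hne (eq_of_rk (line_le_of_pts hl' hh) (by rw [rk_line hl, rk_line hl'])).symm
    exact h2 _ (mem_image_of_mem _ (sup_mem_planes hX hx hl x2))
      (ker_step2 (g := g l) (sup_le (x1.trans (e ▸ hg l' hl')) (hg l hl)))
  have := st_rich (X.image (phi f0 f1 f2)) (by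
      intro u hu v hv e
      obtain ⟨a, ha, rfl⟩ := mem_image.1 hu
      obtain ⟨b, hb, rfl⟩ := mem_image.1 hv
      rw [inj a ha b hb e]) (S.image g) ht (by rw [card_image_of_injOn inj']; exact hn) (by
      intro u hu
      obtain ⟨l, hl, rfl⟩ := mem_image.1 hu
      refine (h l hl).trans (card_le_card_of_injOn (phi f0 f1 f2) (fun x hx => ?_)
        (inj'.mono fun x hx => (mem_pts.1 hx).1))
      obtain ⟨x1, x2⟩ := mem_pts.1 hx
      exact mem_onl.2 ⟨mem_image_of_mem _ x1,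
        (phi_on (hX x x1) (h0 x x1) _).2 (x2.trans (hg l (hS hl)))⟩)
  rwa [card_image_of_injOn inj', card_image_of_injOn ginj] at this

/-- lines of `Z` skew to `L`. -/
noncomputable def skew (Z : Finset Sub) (L : Sub) : Finset Sub :=
  (lines Z).filter fun l => l ⊓ L = ⊥

lemma mem_skew : l ∈ skew Z L ↔ l ∈ lines Z ∧ l ⊓ L = ⊥ := mem_filter

lemma skew_iff (hL : rk L = 2) (ha : rk a = 1) (hb : rk b = 1) (hab : a ≠ b) (h : ¬ a ≤ L) :
    (a ⊔ b) ⊓ L = ⊥ ↔ ¬ b ≤ a ⊔ L := by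
  have h1 := rk_sup_inf (a ⊔ b) L
  have e : a ⊔ b ⊔ L = b ⊔ (a ⊔ L) := by ac_rfl
  rw [rk_pp ha hb hab, hL, e] at h1
  rw [← rk_zero]
  constructor
  · intro h2 h3
    rw [sup_eq_right.2 h3, rk_pl ha hL h] at h1; omega
  · intro h2
    rw [pt_sup hb h2, rk_pl ha hL h] at h1; omega

theorem skew_card (hZ : IsPts Z) (hL : rk L = 2) (hoff : ∀ z ∈ Z, ¬ z ≤ L)
    (h2c : ∃ a ∈ Z, ∃ b ∈ Z, ¬ b ≤ a ⊔ L) (hnc : ∀ l, rk l = 2 → ∃ z ∈ Z, ¬ z ≤ l) :
    Z.card ≤ (skew Z L).card + 1 := by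
  classical
  obtain ⟨f0, k0, h0⟩ := choose_fn L Z hoff
  obtain ⟨f1, k1, h1⟩ := choose_fn L ((skew Z L).image (· ⊓ LinearMap.ker f0)) fun W hW => by
    obtain ⟨l, hl, rfl⟩ := mem_image.1 hW
    have := rk_inf_ker l f0
    intro e
    have e' := rk_mono (le_inf (inf_le_left : l ⊓ LinearMap.ker f0 ≤ l) e)
    rw [(mem_skew.1 hl).2, rk_bot] at e'
    rw [rk_line (mem_skew.1 hl).1] at this; omega
  obtain ⟨f2, -, h2⟩ := choose_fn ⊥
    (((lines Z ∪ planes Z).image (· ⊓ LinearMap.ker f0 ⊓ LinearMap.ker f1)).filter (· ≠ ⊥))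
    fun W hW e => (mem_filter.1 hW).2 (le_bot_iff.1 e)
  have inj : Set.InjOn (phi f0 f1 f2) Z := by
    intro a ha b hb e
    by_contra hne
    have hl := sup_mem_lines hZ ha hb hne
    have e1 : a ⊔ b ≤ _ := sup_le ((phi_fst (f2 := f2) (hZ a ha) (h0 a ha) _).1 (by rw [e]))
      ((phi_fst (f1 := f1) (f2 := f2) (hZ b hb) (h0 b hb) _).1 rfl)
    have e2 : a ⊔ b ≤ _ := sup_le ((phi_on (f1 := f1) (f2 := f2) (hZ a ha) (h0 a ha)
      (0, (phi f0 f1 f2 b).2)).1 (by simp [e]))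
      ((phi_on (f1 := f1) (f2 := f2) (hZ b hb) (h0 b hb) _).1 (by simp))
    refine h2 _ (mem_filter.2 ⟨mem_image_of_mem _ (mem_union_left _ hl), ?_⟩) (ker_step2 e2)
    rw [inf_eq_left.2 (ker_step e1)]
    have := rk_inf_ker (a ⊔ b) f0
    exact ne_bot_of_rk (by rw [rk_line hl] at this; omega)
  have sk : ∀ a ∈ Z, ∀ b ∈ Z, (phi f0 f1 f2 a).1 ≠ (phi f0 f1 f2 b).1 ↔ ¬ b ≤ a ⊔ L := by
    intro a ha b hb
    constructor
    · intro h e
      refine h ((phi_fst (hZ b hb) (h0 b hb) _).2 (e.trans (sup_le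
        ((phi_fst (f2 := f2) (hZ a ha) (h0 a ha) _).1 rfl) fun v hv => ?_))).symm
      have := k0 hv
      have := k1 hv
      simp_all
    · intro h e
      have hne : a ≠ b := fun e => h (e ▸ le_sup_left)
      exact h1 _ (mem_image_of_mem _ (mem_skew.2 ⟨sup_mem_lines hZ ha hb hne,
        (skew_iff hL (hZ a ha) (hZ b hb) hne (hoff a ha)).2 h⟩)) (ker_step (sup_le
        ((phi_fst (hZ a ha) (h0 a ha) _).1 e) ((phi_fst (hZ b hb) (h0 b hb) _).1 rfl)))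
  obtain ⟨a, ha, b, hb, hab⟩ := h2c
  have := nv_card (Z.image (phi f0 f1 f2))
    ⟨_, mem_image_of_mem _ ha, _, mem_image_of_mem _ hb, (sk a ha b hb).2 hab⟩ (by
      intro g
      by_contra hh
      push Not at hh
      have hl := sup_mem_lines hZ ha hb fun e => hab (e ▸ le_sup_left)
      obtain ⟨z, hz, hz'⟩ := hnc _ (rk_line hl)
      have hp := sup_mem_planes hZ hz hl hz'
      refine h2 _ (mem_filter.2 ⟨mem_image_of_mem _ (mem_union_right _ hp), ?_⟩)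
        (ker_step2 (g := g) (plane_le_of_pts hp fun x hx _ =>
          (phi_on (hZ x hx) (h0 x hx) g).1 (mem_onl.1 (hh _ (mem_image_of_mem _ hx))).2))
      have := rk_inf_ker (z ⊔ (a ⊔ b)) f0
      have := rk_inf_ker ((z ⊔ (a ⊔ b)) ⊓ LinearMap.ker f0) f1
      exact ne_bot_of_rk (by have := rk_plane hp; omega))
  rw [card_image_of_injOn inj] at this
  refine this.trans (Nat.add_le_add_right ?_ 1)
  have ex : ∀ g ∈ nv (Z.image (phi f0 f1 f2)), ∃ q : Sub × Sub, q.1 ∈ Z ∧ q.2 ∈ Z ∧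
      (phi f0 f1 f2 q.1).1 ≠ (phi f0 f1 f2 q.2).1 ∧
      q.1 ⊔ q.2 ≤ LinearMap.ker (f2 - g.1 • f1 - g.2 • f0) := by
    intro g hg
    obtain ⟨u, hu, v, hv, huv⟩ := mem_nv.1 hg
    obtain ⟨a, ha, rfl⟩ := mem_image.1 (mem_onl.1 hu).1
    obtain ⟨b, hb, rfl⟩ := mem_image.1 (mem_onl.1 hv).1
    exact ⟨(a, b), ha, hb, huv, sup_le ((phi_on (hZ a ha) (h0 a ha) g).1 (mem_onl.1 hu).2)
      ((phi_on (hZ b hb) (h0 b hb) g).1 (mem_onl.1 hv).2)⟩
  choose! q q1 q2 q3 q4 using ex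
  refine card_le_card_of_injOn (fun g => (q g).1 ⊔ (q g).2) (fun g hg => ?_) fun g hg g' hg' e => ?_
  · have h := (sk _ (q1 g hg) _ (q2 g hg)).1 (q3 g hg)
    have hne : (q g).1 ≠ (q g).2 := fun e => h (e ▸ le_sup_left)
    exact mem_skew.2 ⟨sup_mem_lines hZ (q1 g hg) (q2 g hg) hne,
      (skew_iff hL (hZ _ (q1 g hg)) (hZ _ (q2 g hg)) hne (hoff _ (q1 g hg))).2 h⟩
  · have e : (q g).1 ⊔ (q g).2 = (q g').1 ⊔ (q g').2 := e
    have u1 := q4 g hg
    have u2 := q4 g' hg'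
    rw [← e] at u2
    have on := fun x (hx : x ∈ Z) g => (phi_on (f1 := f1) (f2 := f2) (hZ x hx) (h0 x hx) g).2
    exact line_eq_of_two (q3 g hg)
      (by rw [← on _ (q1 g hg) g (le_sup_left.trans u1), on _ (q1 g hg) g' (le_sup_left.trans u2)])
      (by rw [← on _ (q2 g hg) g (le_sup_right.trans u1),
        on _ (q2 g hg) g' (le_sup_right.trans u2)])

end Pool.Agent.P.MP_390d44_co
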