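import Pool.Agent.P.MP_390d44_co.Moves

/-! Families of realisable pairs. -/

namespace Pool.Agent.P.MP_390d44_co

variable {a b j d x p s M U D n : ℕ}

lemma add2 (a b : ℕ) : (a + b).choose 2 = a.choose 2 + a * b + b.choose 2 := by
  have h1 := c2 (a + b); have h2 := c2 a; have h3 := c2 b
  zify; push_cast at h1; linarith

lemma add3 (a b : ℕ) :
    (a + b).choose 3 = a.choose 3 + a.choose 2 * b + a * b.choose 2 + b.choose 3 := by
  have h1 := c3 (a + b); have h2 := c3 a; have h3 := c3 b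
  have h4 : 2 * (a.choose 2 : ℤ) * b = a * (a - 1) * b := by rw [c2]
  have h5 : 2 * (b.choose 2 : ℤ) * a = b * (b - 1) * a := by rw [c2]
  zify; push_cast at h1; linarith

lemma exd (a : ℕ) (ha : 1 ≤ a) : ∃ δ, δ + 1 = (a + 2).choose 3 :=
  ⟨_, Nat.sub_add_cancel (Nat.choose_pos (by omega))⟩

theorem fam1 (ha : 3 ≤ a) (h1 : 4 ≤ x) (h2 : x ≤ 2 * a.choose 2) (h3 : x ≤ 2 * M)
    (hp : p + x + (a + 2).choose 3 = 1 + (a + 1 + 2).choose 3 + M * a) : Real (a + 1 + 2 + M) p := by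
  obtain ⟨δ, hδ⟩ := exd a (by omega)
  have hs : a + (a.choose 2 + Nat.choose 1 2) = (a + 1).choose 2 := by rw [ch2 a]; simp [add_comm]
  rcases Nat.even_or_odd' x with ⟨u, rfl | rfl⟩
  · exact ((st0 (by omega) hδ).cls (k := 1) (s := 0) (δ' := δ) le_rfl (by simp) (by simp)).finish
      (u2 := u) (u1 := 0) (u3 := 0) (by omega) le_rfl (by omega) (by omega) hs (by omega)
  · have : 3 ≤ a.choose 2 := Nat.choose_le_choose 2 ha
    exact ((st2 (U2 := a.choose 2 - 3) ha hδ (by omega)).cls (k := 1) (s := 0) (δ' := δ + 2) le_rfl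
      (by simp) (by simp)).finish (u2 := u - 2) (u1 := 1) (u3 := 0) (by omega) le_rfl
      (by omega) (by omega) hs (by omega)

lemma fam2 (h1 : 12 ≤ x) (h2 : x ≤ 4 * U) (hU : U + 4 ≤ a.choose 2) (hM : U + 4 ≤ M)
    (hs : s + (a.choose 2 + 1) = (a + 2).choose 2)
    (hp : p + x + (a + 2).choose 3 + 3 = 1 + (a + 2 + 2).choose 3 + M * s) :
    Real (a + 2 + 2 + M) p := by
  have ha : 3 ≤ a := by
    by_contra h
    have := Nat.choose_le_choose 2 (show a ≤ 2 by omega)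
    simp at this; omega
  obtain ⟨δ, hδ⟩ := exd a (by omega)
  have s0 := st0 (by omega) hδ
  have s2 := st2 (U2 := a.choose 2 - 4 + 1) ha hδ (by omega)
  obtain h | h | h | h : x % 4 = 0 ∨ x % 4 = 1 ∨ x % 4 = 2 ∨ x % 4 = 3 := by omega
  · exact (s0.cls (k := 2) (s := 0) (δ' := δ + 3) (by omega) (by simp) (by simp)).finish
      (u2 := x / 4) (u1 := 0) (u3 := 0) (by omega) le_rfl (by omega) (by omega) hs (by omega)
  · exact s2.m2.finish (u2 := (x - 13) / 4) (u1 := 1) (u3 := 0) (by omega) le_rfl (by omega)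
      (by omega) hs (by omega)
  · exact (s2.cls (k := 2) (s := 0) (δ' := δ + 7) (by omega) (by simp) (by simp)).finish
      (u2 := (x - 10) / 4) (u1 := 1) (u3 := 0) (by omega) le_rfl (by omega) (by omega) hs
      (by omega)
  · rw [show a.choose 2 = a.choose 2 - 1 + 1 by omega] at s0
    nth_rewrite 1 [show a.choose 2 - 1 + 1 = a.choose 2 by omega] at s0
    exact s0.m2.finish (u2 := (x - 3) / 4) (u1 := 0) (u3 := 0) (by omega) le_rfl (by omega)
      (by omega) hs (by omega)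

lemma fill3 (P : ℕ → ℕ → Prop) (h : ∀ b D k, 1 ≤ k → k ≤ 3 → P b D → P (b + k) (D + k.choose 2))
    {b0 D0 : ℕ} (h0 : P b0 D0) (h1 : b0 + (D - D0) + (D - D0) % 3 ≤ b) (h2 : D0 ≤ D) : P b D := by
  have it : ∀ k, 1 ≤ k → k ≤ 3 → ∀ t b D, P b D → P (b + k * t) (D + k.choose 2 * t) := by
    intro k k1 k2 t
    induction t with
    | zero => exact fun _ _ h => h
    | succ t ih => exact fun b D h' => by
                     have := h _ _ k k1 k2 (ih b D h')
                     rwa [add_assoc, add_assoc, ← Nat.mul_succ, ← Nat.mul_succ] at this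
  have := it 1 le_rfl (by omega) (b - (b0 + (D - D0) + (D - D0) % 3)) _ _
    (it 2 (by omega) (by omega) ((D - D0) % 3) _ _ (it 3 (by omega) le_rfl ((D - D0) / 3) _ _ h0))
  convert this using 1
  · omega
  · simp; omega

lemma resid (hb : b % 3 ≠ 0) (h1 : 4 * b ≤ x) (h2 : x ≤ 2 * b * U) :
    ∃ u t, x = 2 * b * u + 3 * t ∧ u ≤ U ∧ t ≤ 2 * b := by
  have b0 : 0 < 2 * b := by omega
  have e := Nat.div_add_mod x (2 * b)
  have r := Nat.mod_lt x b0
  have q1 : x / (2 * b) ≤ U := Nat.div_le_of_le_mul h2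
  have q2 : 2 ≤ x / (2 * b) := (Nat.le_div_iff_mul_le b0).2 (by omega)
  obtain ⟨q, hq⟩ := Nat.exists_eq_add_of_le' q2
  rw [hq] at e q1
  generalize x % (2 * b) = r' at *
  by_cases c0 : r' % 3 = 0
  · exact ⟨q + 2, r' / 3, by omega, q1, by omega⟩
  rw [mul_add] at e
  by_cases c1 : (2 * b + r') % 3 = 0
  · exact ⟨q + 1, (2 * b + r') / 3, by rw [mul_add]; omega, by omega, by omega⟩
  · have : (4 * b + r') % 3 = 0 := by
      obtain h | h : b % 3 = 1 ∨ b % 3 = 2 := by omega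
      all_goals obtain h' | h' : r' % 3 = 1 ∨ r' % 3 = 2 := by omega
      all_goals omega
    exact ⟨q, (4 * b + r') / 3, by omega, by omega, by omega⟩

lemma k3 {k : ℕ} (h1 : 1 ≤ k) (h2 : k ≤ 3) : (k + 2).choose 3 = 3 * k.choose 2 + 1 := by
  interval_cases k <;> rfl

theorem famB (hb : 2 ≤ b) (hb3 : b % 3 ≠ 0) (hD : D < b) (ha : 2 * b ≤ a ∨ D = 0 ∧ 4 ≤ a)
    (h1 : 6 * b ≤ x) (h2 : x ≤ 2 * b * U) (hU : U + 4 ≤ a.choose 2) (hM : U + 2 * b ≤ M)
    (hs : s + (a.choose 2 + D) = (a + b).choose 2)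
    (hp : p + x + (a + 2).choose 3 + 3 * D = 1 + (a + b + 2).choose 3 + M * s) :
    Real (a + b + 2 + M) p := by
  by_cases h : b = 2 ∧ D = 1
  · obtain ⟨rfl, rfl⟩ := h
    exact fam2 h1 h2 hU hM hs hp
  obtain ⟨δ, hδ⟩ := exd a (by omega)
  obtain ⟨T, hT, t1, -⟩ := fill3 (b := b) (D := D) (fun b D => ∃ T, St (a + b) 0 (δ + 3 * D)
      (a.choose 2 + D) b (a.choose 2) 0 T ∧ a * b.choose 2 ≤ T + a * D ∧ D ≤ b.choose 2)
    (fun b D k k1 k2 ⟨T, h, t1, t2⟩ => by
      obtain ⟨s, hs⟩ := Nat.exists_eq_add_of_le t2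
      have := h.cls (s := a * b + s) (δ' := δ + 3 * (D + k.choose 2)) k1
        (by rw [add2]; omega) (by rw [k3 k1 k2]; omega)
      rw [add_assoc a, add_assoc (a.choose 2)] at this
      refine ⟨_, this, ?_, ?_⟩ <;> rw [add2 b k]
      · nlinarith [Nat.zero_le (k * s)]
      · omega) (b0 := 0) (D0 := 0) ⟨0, st0 (by omega) hδ, by simp, by simp⟩ (by omega) (by omega)
  obtain ⟨u, t, rfl, u1, u2⟩ := resid hb3 (by omega) h2
  refine hT.finish (u2 := u) (u1 := 0) (u3 := t) (by omega) le_rfl (u2.trans ?_) (by omega) hs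
    (by omega)
  have e := two_choose b
  rcases ha with ha | ⟨rfl, ha⟩
  · have : D + 1 ≤ b.choose 2 := by
      rcases hb.eq_or_lt with rfl | h3
      · simp; omega
      · nlinarith
    nlinarith
  · nlinarith

def G (η j D : ℕ) : Prop := ∃ b U T, St j 0 (3 * D + η) D b U 0 T ∧
  j.choose 3 ≤ T + D * j + 84 ∧ D ≤ j.choose 2

lemma G.cls {η k : ℕ} (h : G η j D) (hk : 1 ≤ k) {η' : ℕ}
    (e : (k + 2).choose 3 + η = 3 * k.choose 2 + η' + 1) : G η' (j + k) (D + k.choose 2) := by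
  obtain ⟨b, U, T, h, t1, t2⟩ := h
  obtain ⟨s, hs⟩ := Nat.exists_eq_add_of_le' t2
  refine ⟨_, _, _, h.cls hk hs.symm (by omega), ?_, by rw [add2]; omega⟩
  have := three_choose k
  have : k.choose 2 * (k - 2) ≤ k.choose 2 * k := Nat.mul_le_mul_left _ (by omega)
  rw [add3, hs]; nlinarith [Nat.zero_le (D * k)]

theorem famT {T : ℕ} (hj : 30 ≤ j) (hd : d + 2 ≤ j) (hx : Good d x) (hs : s + d = j.choose 2)
    (h1 : x ≤ 3 * T) (h2 : T + d * j + 84 ≤ j.choose 3) (hM : T ≤ M)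
    (hp : p + x + 3 * d = (j + 2).choose 3 + M * s) : Real (j + 2 + M) p := by
  have s1 : St 1 0 0 0 0 0 0 0 := st0 le_rfl rfl
  have g0 : G 0 1 0 := ⟨_, _, _, s1, by decide, by simp⟩
  have g3 : G 0 3 3 := ⟨_, _, _, st0 (j := 3) (by omega) rfl, by simp, by simp⟩
  have g19 : G 19 5 0 := ⟨_, _, _, s1.six, by decide, by simp⟩
  have g38 : G 38 9 0 := ⟨_, _, _, s1.six.six, by decide, by simp⟩
  have g1 : G 1 5 6 := g0.cls (k := 4) (by omega) rfl
  have g2 : G 2 9 12 := g1.cls (k := 4) (by omega) rfl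
  have g20 : G 20 9 6 := g19.cls (k := 4) (by omega) rfl
  have key : ∀ η j0 d0, G η j0 d0 → j0 + (d - d0) + (d - d0) % 3 ≤ j → d0 ≤ d → η ≤ x →
      (x - η) % 3 = 0 → Real (j + 2 + M) p := fun η j0 d0 g e1 e2 e3 e4 => by
    obtain ⟨b, U, T', h, t1, -⟩ := fill3 (G η) (fun b D k k1 k2 h => h.cls k1
      (by rw [k3 k1 k2]; omega)) g e1 e2
    exact h.finish (u2 := 0) (u1 := 0) (u3 := (x - η) / 3) (by omega) le_rfl (by omega) (by omega)
      hs (by omega)
  unfold Good at hx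
  by_cases c0 : x % 3 = 0
  · by_cases c : 3 ≤ d
    · exact key _ _ _ g3 (by omega) c (by omega) (by omega)
    · exact key _ _ _ g0 (by omega) (by omega) (by omega) (by omega)
  by_cases c1 : x % 3 = 1
  · by_cases c : 6 ≤ d
    · exact key _ _ _ g1 (by omega) c (by omega) (by omega)
    · exact key _ _ _ g19 (by omega) (by omega) (by omega) (by omega)
  by_cases c : 12 ≤ d
  · exact key _ _ _ g2 (by omega) c (by omega) (by omega)
  by_cases c' : 6 ≤ d
  · exact key _ _ _ g20 (by omega) c' (by omega) (by omega)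
  · exact key _ _ _ g38 (by omega) (by omega) (by omega) (by omega)

def Tp (j δ : ℕ) : Prop := ∃ D b U T, St j 0 δ D b U 0 T ∧ D ≤ j.choose 2

def Cost (c x : ℕ) : Prop := ∀ j δ, Tp j δ → Tp (j + c) (δ + x)

lemma cost_cls {k : ℕ} (hk : 1 ≤ k) (e : x + 1 = (k + 2).choose 3) : Cost k x := by
  rintro j δ ⟨D, b, U, T, h, t⟩
  obtain ⟨s, hs⟩ := Nat.exists_eq_add_of_le' t
  exact ⟨_, _, _, _, h.cls hk hs.symm (by omega), by rw [add2]; omega⟩

lemma Cost.add {c c' x' : ℕ} (h : Cost c x) (h' : Cost c' x') : Cost (c + c') (x + x') :=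
  fun j δ t => by rw [← add_assoc, ← add_assoc]; exact h' _ _ (h _ _ t)

lemma Cost.mul {c : ℕ} (h : Cost c x) (t : ℕ) : Cost (c * t) (x * t) := by
  induction t with
  | zero => exact fun _ _ h => h
  | succ t ih => exact ih.add h

lemma Cost.mono {c c' : ℕ} (h : Cost c x) (h' : c ≤ c') : Cost c' x := by
  have := h.add ((cost_cls (k := 1) (x := 0) le_rfl rfl).mul (c' - c))
  rwa [one_mul, zero_mul, add_zero, Nat.add_sub_cancel' h'] at this

lemma cost_lin (hx : Good 0 x) : Cost x x := by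
  have c3 := cost_cls (k := 2) (x := 3) (by omega) rfl
  have c19 := cost_cls (k := 4) (x := 19) (by omega) rfl
  have := ((c19.mul (x % 3)).add (c3.mul ((x - 19 * (x % 3)) / 3))).mono (c' := x)
    (by unfold Good at hx; omega)
  rwa [show 19 * (x % 3) + 3 * ((x - 19 * (x % 3)) / 3) = x by unfold Good at hx; omega] at this

lemma exists_c (hx : 38 ≤ x) : ∃ c y z, 1 ≤ c ∧ z + 1 = (c + 2).choose 3 ∧ x = z + y ∧ 38 ≤ y ∧
    y ≤ 37 + (c + 2).choose 2 := by
  induction x, hx using Nat.le_induction with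
  | base => exact ⟨1, 38, 0, le_rfl, rfl, rfl, le_rfl, by decide⟩
  | succ x hx ih =>
    obtain ⟨c, y, z, h1, h2, h3, h4, h5⟩ := ih
    rcases h5.eq_or_lt with h5 | h5
    · exact ⟨c + 1, 38, z + (c + 2).choose 2, by omega, by rw [add_right_comm c, ch3]; omega,
        by omega, le_rfl, by have := Nat.choose_pos (show 2 ≤ c + 1 + 2 by omega); omega⟩
    · exact ⟨c, y + 1, z, h1, h2, by omega, by omega, by omega⟩

lemma cost_rec (k : ℕ) : ∀ x, Good 0 x → x ≤ (k + 2).choose 3 → Cost (2 * k + 4960) x := by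
  induction k using Nat.strong_induction_on with
  | _ k ih =>
  intro x hx h
  by_cases hs : x ≤ 4960
  · exact (cost_lin hx).mono (by omega)
  have hk : 30 ≤ k := by
    by_contra hk
    have := Nat.choose_le_choose 3 (show k + 2 ≤ 32 by omega)
    have : Nat.choose 32 3 = 4960 := by decide
    omega
  obtain ⟨c, y, z, h1, h2, rfl, h4, h5⟩ := exists_c (x := x) (by omega)
  have hc : c ≤ k := by
    by_contra hc
    have := Nat.choose_le_choose 3 (show k + 2 ≤ c + 2 by omega)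
    omega
  refine ((cost_cls h1 h2).add (ih (k / 2) (by omega) y (good_big h4) ?_)).mono (by omega)
  have e1 := Nat.choose_le_choose 2 (show c + 2 ≤ 2 * (k / 2) + 3 by omega)
  have e2 := c2 (2 * (k / 2) + 3)
  have e3 := c3 (k / 2 + 2)
  have e4 : (15 : ℤ) ≤ (k / 2 : ℕ) := by omega
  generalize k / 2 = m at *
  zify at *
  nlinarith [mul_nonneg (sub_nonneg.2 e4) (sq_nonneg (m : ℤ))]

theorem famU (hn : 1000000000000 ≤ n) (h : Top n p) (hp : n ^ 3 ≤ 120 * p) : Real n p := by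
  obtain ⟨x, e, hx⟩ := h
  suffices Cost (n - 3) x by
    obtain ⟨D, b, U, T, h, t⟩ := this 1 0 ⟨_, _, _, _, st0 le_rfl rfl, le_rfl⟩
    obtain ⟨s, hs⟩ := Nat.exists_eq_add_of_le' t
    have := h.finish (u2 := 0) (u1 := 0) (u3 := 0) (M := 0) (p := p) (by omega) le_rfl (by omega)
      le_rfl hs.symm (by rw [show 1 + (n - 3) + 2 = n by omega]; omega)
    rwa [show 1 + (n - 3) + 2 + 0 = n by omega] at this
  by_cases hs : x ≤ 38
  · exact (cost_lin hx).mono (by omega)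
  obtain ⟨c, y, z, h1, h2, rfl, h4, h5⟩ := exists_c (x := x) (by omega)
  have n0 : (1000000000000 : ℤ) ≤ n := by exact_mod_cast hn
  have hc : 500 * (c + 2) < 499 * n := by
    by_contra hc
    have e1 := c3 (c + 2)
    have e2 := c3 n
    have e3 : 997 * n ≤ 1000 * c := by omega
    have e4 := Nat.pow_le_pow_left e3 3
    zify at *
    nlinarith [sq_nonneg (c : ℤ), sq_nonneg (n : ℤ)]
  have hc' : c + (2 * (n / 2000) + 4960) ≤ n - 3 :=
    Nat.le_sub_of_add_le (by have := Nat.mul_div_le n 2000; linarith)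
  refine ((cost_cls h1 h2).add (cost_rec (n / 2000) y (good_big h4) ?_)).mono hc'
  have e1 := Nat.choose_le_choose 2 (show c + 2 ≤ 2000 * (n / 2000) + 2000 by omega)
  have e2 := c2 (2000 * (n / 2000) + 2000)
  have e3 := c3 (n / 2000 + 2)
  have e4 : (100000000 : ℤ) ≤ (n / 2000 : ℕ) := by omega
  refine h5.trans ((Nat.add_le_add_left e1 _).trans ?_)
  generalize n / 2000 = m at *
  zify
  push_cast at e2 e3
  nlinarith [mul_nonneg (sub_nonneg.2 e4) (sq_nonneg (m : ℤ))]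

end Pool.Agent.P.MP_390d44_co
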