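import Pool.Agent.P.MP_390d44_co.Beck

/-! Counting planes relative to a line `L` of the configuration. -/

namespace Pool.Agent.P.MP_390d44_co

open Finset

variable {a b c l l' p p' y z A B W L : Sub} {X Y Z : Finset Sub}

/-- points off `L`. -/
noncomputable def off (X : Finset Sub) (L : Sub) : Finset Sub := X.filter fun x => ¬ x ≤ L

/-- planes through `L` containing a point of `Z`. -/
noncomputable def cls (Z : Finset Sub) (L : Sub) : Finset Sub := Z.image (· ⊔ L)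

/-- planes of `Z` not containing `L`. -/
noncomputable def pz (Z : Finset Sub) (L : Sub) : Finset Sub := (planes Z).filter fun p => ¬ L ≤ p

/-- pairs (point of `Y`, skew line) spanning a plane of `Z`. -/
noncomputable def ww (Y Z : Finset Sub) (L : Sub) : Finset (Sub × Sub) :=
  (Y ×ˢ skew Z L).filter fun q => q.1 ⊔ q.2 ∈ planes Z

lemma mem_off : a ∈ off X L ↔ a ∈ X ∧ ¬ a ≤ L := mem_filter
lemma mem_pz : p ∈ pz Z L ↔ p ∈ planes Z ∧ ¬ L ≤ p := mem_filter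
lemma off_sub : off X L ⊆ X := filter_subset _ _
lemma pts_sub : pts X L ⊆ X := filter_subset _ _

lemma card_pts_off (X : Finset Sub) (L : Sub) : (pts X L).card + (off X L).card = X.card :=
  card_filter_add_card_filter_not _

lemma not_le_skew (hy : rk y = 1) (hyL : y ≤ L) (h : l ⊓ L = ⊥) : ¬ y ≤ l := fun e =>
  ne_bot_of_rk (by omega) (le_bot_iff.1 (h ▸ le_inf e hyL))

lemma skew_not_le (hL : rk L = 2) (hl : rk l = 2) (h : l ⊓ L = ⊥) (hp : rk p = 3) (h1 : l ≤ p) :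
    ¬ L ≤ p := fun e => by
  have := rk_sup_inf l L
  have := rk_mono (sup_le h1 e)
  rw [h, rk_bot] at *; omega

lemma rk_cls (hZ : IsPts Z) (hL : rk L = 2) (hoff : ∀ z ∈ Z, ¬ z ≤ L) (hc : c ∈ cls Z L) :
    rk c = 3 ∧ L ≤ c := by
  obtain ⟨z, hz, rfl⟩ := mem_image.1 hc
  exact ⟨rk_pl (hZ z hz) hL (hoff z hz), le_sup_right⟩

lemma cls_eq (hZ : IsPts Z) (hL : rk L = 2) (hoff : ∀ z ∈ Z, ¬ z ≤ L) (hc : rk c = 3) (h : L ≤ c)
    (hz : z ∈ Z) (h' : z ≤ c) : z ⊔ L = c := plane_eq hc (hZ z hz) hL (hoff z hz) h' h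

lemma y_inj (hL : rk L = 2) (hl : rk l = 2) (h : l ⊓ L = ⊥) {y y' : Sub} (hy : rk y = 1)
    (hy' : rk y' = 1) (h1 : y ≤ L) (h2 : y' ≤ L) (e : y' ≤ y ⊔ l) : y = y' :=
  pt_unique hL (skew_not_le hL hl h (rk_pl hy hl (not_le_skew hy h1 h)) le_sup_right) hy hy' h1 h2
    le_sup_left e

/-- a plane not through `L` spanned by `X` contains a skew line of the points off `L`. -/
lemma exists_skew (hX : IsPts X) (hL : rk L = 2) (hp : p ∈ planes X) (h : ¬ L ≤ p) :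
    ∃ a ∈ off X L, ∃ b ∈ off X L, a ≠ b ∧ a ⊔ b ∈ skew (off X L) L ∧ a ⊔ b ≤ p := by
  have hq := meet_lp hL (rk_plane hp) h
  obtain ⟨a, ha, a1, a2⟩ := exists_off hp hL.le
  obtain ⟨b, hb, b1, b2⟩ := exists_off (l := a ⊔ L ⊓ p) hp
    (by have := rk_sup_le a (L ⊓ p); rw [hX a ha] at this; omega)
  have b3 : ¬ b ≤ L := fun e => b2 ((le_inf e b1).trans le_sup_right)
  have ab : a ≠ b := fun e => b2 (e ▸ le_sup_left)
  have oa := mem_off.2 ⟨ha, a2⟩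
  have ob := mem_off.2 ⟨hb, b3⟩
  refine ⟨a, oa, b, ob, ab, mem_skew.2 ⟨sup_mem_lines (hX.mono off_sub) oa ob ab,
    (skew_iff hL (hX a ha) (hX b hb) ab a2).2 fun e => b2 ?_⟩, sup_le a1 b1⟩
  rw [← sup_inf_assoc_of_le _ a1]; exact le_inf e b1

lemma planes_split (hX : IsPts X) (hL : L ∈ lines X) :
    (planes X).card = (cls (off X L) L).card + ((planes X).filter fun p => ¬ L ≤ p).card := by
  rw [← card_filter_add_card_filter_not (s := planes X) (L ≤ ·)]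
  congr 2; ext p
  simp only [mem_filter, cls, mem_image]
  constructor
  · rintro ⟨hp, h⟩
    obtain ⟨x, hx, x1, x2⟩ := exists_off hp (rk_line hL).le
    exact ⟨x, mem_off.2 ⟨hx, x2⟩, plane_eq (rk_plane hp) (hX x hx) (rk_line hL) x2 x1 h⟩
  · rintro ⟨x, hx, rfl⟩
    exact ⟨sup_mem_planes hX (mem_off.1 hx).1 hL (mem_off.1 hx).2, le_sup_right⟩

lemma ys_mem (hX : IsPts X) (hL : rk L = 2) (hy : y ∈ pts X L) (hl : l ∈ skew (off X L) L) :
    y ⊔ l ∈ (planes X).filter fun p => ¬ L ≤ p := by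
  obtain ⟨y1, y2⟩ := mem_pts.1 hy
  obtain ⟨l1, l2⟩ := mem_skew.1 hl
  have := sup_mem_planes hX y1 (lines_mono off_sub l1) (not_le_skew (hX y y1) y2 l2)
  exact mem_filter.2 ⟨this, skew_not_le hL (rk_line l1) l2 (rk_plane this) le_sup_right⟩

theorem long_lower (hX : IsPts X) (hL : L ∈ lines X) (S : Finset Sub) (hS : S ⊆ skew (off X L) L) :
    (pts X L).card * S.card + (cls (off X L) L).card ≤ (planes X).card + S.card.choose 2 := by
  have inj : ∀ s ∈ S, ∀ y ∈ pts X L, ∀ y' ∈ pts X L, y ⊔ s = y' ⊔ s → y = y' :=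
    fun s hs y hy y' hy' e => y_inj (rk_line hL) (rk_line (mem_skew.1 (hS hs)).1)
      (mem_skew.1 (hS hs)).2 (hX y (mem_pts.1 hy).1) (hX y' (mem_pts.1 hy').1) (mem_pts.1 hy).2
      (mem_pts.1 hy').2 (e ▸ le_sup_left)
  have h1 := img_bound (· ⊔ ·) (pts X L) S inj (by
    intro s hs s' hs' hne y1 h1 y2 h2 y1' _ y2' _ e1 e2
    have r := fun y (hy : y ∈ pts X L) => rk_plane (mem_filter.1 (ys_mem hX (rk_line hL) hy
      (hS hs))).1
    have r1 := rk_line (mem_skew.1 (hS hs)).1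
    have r2 := rk_line (mem_skew.1 (hS hs')).1
    exact inj s hs y1 h1 y2 h2 ((plane_eq' (r y1 h1) r1 r2 hne le_sup_right
      (e1 ▸ le_sup_right)).symm.trans (plane_eq' (r y2 h2) r1 r2 hne le_sup_right
      (e2 ▸ le_sup_right))))
  have h2 : image₂ (· ⊔ ·) (pts X L) S ⊆ (planes X).filter fun p => ¬ L ≤ p := fun w hw => by
    obtain ⟨y, hy, z, hz, rfl⟩ := mem_image₂.1 hw
    exact ys_mem hX (rk_line hL) hy (hS hz)
  have := card_le_card h2
  have := planes_split hX hL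
  omega

theorem long_formula (hX : IsPts X) (hL : L ∈ lines X) :
    (planes X).card + (ww (pts X L) (off X L) L).card = (cls (off X L) L).card +
      (pts X L).card * (skew (off X L) L).card + (pz (off X L) L).card := by
  have h1 := planes_split hX hL
  have hZ := hX.mono (off_sub (X := X) (L := L))
  have h2 := card_filter_add_card_filter_not (s := (planes X).filter fun p => ¬ L ≤ p)
    (· ∈ planes (off X L))
  have h3 : ((planes X).filter fun p => ¬ L ≤ p).filter (· ∈ planes (off X L)) = pz (off X L) L := by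
    ext p; simp only [mem_filter, mem_pz]
    exact ⟨fun h => ⟨h.2, h.1.2⟩, fun h => ⟨⟨planes_mono off_sub h.1, h.2⟩, h.1⟩⟩
  have h4 := card_filter_add_card_filter_not (s := pts X L ×ˢ skew (off X L) L)
    fun q => q.1 ⊔ q.2 ∈ planes (off X L)
  have h5 : ((pts X L ×ˢ skew (off X L) L).filter fun q => ¬ q.1 ⊔ q.2 ∈ planes (off X L)).card
      = (((planes X).filter fun p => ¬ L ≤ p).filter fun p => ¬ p ∈ planes (off X L)).card := by
    refine card_bij (fun q _ => q.1 ⊔ q.2) (fun q hq => ?_) (fun q hq q' hq' e => ?_)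
      fun p hp => ?_
    · obtain ⟨h1, h2⟩ := mem_filter.1 hq
      exact mem_filter.2 ⟨ys_mem hX (rk_line hL) (mem_product.1 h1).1 (mem_product.1 h1).2, h2⟩
    · obtain ⟨h1, h2⟩ := mem_filter.1 hq
      obtain ⟨y1, s1⟩ := mem_product.1 h1
      obtain ⟨y2, s2⟩ := mem_product.1 (mem_filter.1 hq').1
      have r := rk_plane (mem_filter.1 (ys_mem hX (rk_line hL) y1 s1)).1
      have l1 := (mem_skew.1 s1).1
      have l2 := (mem_skew.1 s2).1
      refine Prod.ext (y_inj (rk_line hL) (rk_line l1) (mem_skew.1 s1).2 (hX _ (mem_pts.1 y1).1)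
        (hX _ (mem_pts.1 y2).1) (mem_pts.1 y1).2 (mem_pts.1 y2).2 (e ▸ le_sup_left)) ?_
      refine (eq_of_rk (line_le_of_pts l2 fun x hx x1 => by_contra fun x2 => h2 ?_)
        (by rw [rk_line l1, rk_line l2])).symm
      exact (mem_planes hZ).2 ⟨r, x, hx, _, l1, x2, x1.trans (e ▸ le_sup_right), le_sup_right⟩
    · obtain ⟨h1, h2⟩ := mem_filter.1 hp
      obtain ⟨h3, h4⟩ := mem_filter.1 h1
      obtain ⟨a, -, b, -, -, hs, hle⟩ := exists_skew hX (rk_line hL) h3 h4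
      have l1 := (mem_skew.1 hs).1
      obtain ⟨x, hx, x1, x2⟩ := exists_off h3 (rk_line l1).le
      have e := plane_eq (rk_plane h3) (hX x hx) (rk_line l1) x2 x1 hle
      have xL : x ≤ L := by_contra fun xL => h2 (e ▸ sup_mem_planes hZ (mem_off.2 ⟨hx, xL⟩) l1 x2)
      exact ⟨(x, a ⊔ b), mem_filter.2 ⟨mem_product.2 ⟨mem_pts.2 ⟨hx, xL⟩, hs⟩, by rwa [e]⟩, e⟩
  rw [h3] at h2
  rw [card_product] at h4
  unfold ww
  omega

lemma lines_pts (hZ : IsPts Z) : lines (pts Z c) = lns Z c := by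
  ext l
  rw [mem_lns]
  constructor
  · intro h
    exact ⟨lines_mono pts_sub h, line_le_of_pts h fun x hx _ => (mem_pts.1 hx).2⟩
  · rintro ⟨h, h'⟩
    obtain ⟨r, a, ha, b, hb, e, a1, b1⟩ := (mem_lines hZ).1 h
    exact (mem_lines (hZ.mono pts_sub)).2 ⟨r, a, mem_pts.2 ⟨ha, a1.trans h'⟩, b,
      mem_pts.2 ⟨hb, b1.trans h'⟩, e, a1, b1⟩

lemma pts_pts (h : l ≤ c) : pts (pts Z c) l = pts Z l := by
  ext x; simp only [mem_pts]; exact ⟨fun h => ⟨h.1.1, h.2⟩, fun h' => ⟨⟨h'.1, h'.2.trans h⟩, h'.2⟩⟩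

lemma two_choose' (n : ℕ) : 2 * n.choose 2 = n * (n - 1) := by
  have := two_choose n
  rw [Nat.mul_sub_one]; omega

lemma pairs_choose (hZ : IsPts Z) : ∑ l ∈ lines Z, (pts Z l).card.choose 2 = Z.card.choose 2 := by
  have h := sum_pairs hZ (lines Z) subset_rfl
  rw [filter_true_of_mem fun q hq => by
    obtain ⟨a, b, c⟩ := mem_offDiag.1 hq; exact sup_mem_lines hZ a b c, offDiag_card] at h
  simp only [← two_choose'] at h
  rw [← mul_sum] at h
  have := two_choose Z.card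
  omega

lemma pairs_choose' (hZ : IsPts Z) (c : Sub) :
    ∑ l ∈ lns Z c, (pts Z l).card.choose 2 = (pts Z c).card.choose 2 := by
  rw [← pairs_choose (hZ.mono pts_sub), lines_pts hZ]
  exact sum_congr rfl fun l hl => by rw [pts_pts (mem_lns.1 hl).2]

lemma one_le_choose (hZ : IsPts Z) (hl : l ∈ lines Z) : 1 ≤ (pts Z l).card.choose 2 :=
  Nat.choose_pos (two_le_pts hZ hl)

lemma sum_lines_split (hZ : IsPts Z) (hL : rk L = 2) (hoff : ∀ z ∈ Z, ¬ z ≤ L) (g : Sub → ℕ) :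
    ∑ l ∈ lines Z, g l = ∑ l ∈ skew Z L, g l + ∑ c ∈ cls Z L, ∑ l ∈ lns Z c, g l := by
  rw [← sum_filter_add_sum_filter_not (lines Z) (fun l => l ⊓ L = ⊥)]
  congr 1
  have key : ∀ l ∈ lines Z, ¬ l ⊓ L = ⊥ → ∀ z ∈ Z, z ≤ l → l ⊔ L = z ⊔ L := by
    intro l hl h z hz zl
    have h1 := rk_sup_inf l L
    have h2 : rk (l ⊓ L) ≠ 0 := fun e => h (rk_zero.1 e)
    rw [rk_line hl, hL] at h1
    exact (eq_of_rk (sup_le_sup_right zl L) (by rw [rk_pl (hZ z hz) hL (hoff z hz)]; omega)).symm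
  rw [← sum_fiberwise_of_maps_to (g := (· ⊔ L)) (t := cls Z L) fun l hl => by
    obtain ⟨h1, h2⟩ := mem_filter.1 hl
    obtain ⟨z, hz, z1, -⟩ := exists_ne hZ h1 ⊥
    exact mem_image.2 ⟨z, hz, (key l h1 h2 z hz z1).symm⟩]
  refine sum_congr rfl fun c hc => sum_congr ?_ fun _ _ => rfl
  obtain ⟨c1, c2⟩ := rk_cls hZ hL hoff hc
  ext l
  simp only [mem_filter, mem_lns]
  constructor
  · rintro ⟨⟨h1, -⟩, rfl⟩; exact ⟨h1, le_sup_left⟩
  · rintro ⟨h1, h2⟩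
    have h3 : ¬ l ⊓ L = ⊥ := fun e => skew_not_le hL (rk_line h1) e c1 h2 c2
    obtain ⟨z, hz, z1, -⟩ := exists_ne hZ h1 ⊥
    exact ⟨⟨h1, h3⟩, (key l h1 h3 z hz z1).trans (cls_eq hZ hL hoff c1 c2 hz (z1.trans h2))⟩

lemma sum_cls (hZ : IsPts Z) (hL : rk L = 2) (hoff : ∀ z ∈ Z, ¬ z ≤ L) :
    ∑ c ∈ cls Z L, (pts Z c).card = Z.card := by
  rw [card_eq_sum_card_fiberwise (s := Z) (f := (· ⊔ L)) (t := cls Z L)
    fun z hz => mem_image_of_mem _ hz]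
  refine sum_congr rfl fun c hc => congrArg card ?_
  obtain ⟨c1, c2⟩ := rk_cls hZ hL hoff hc
  ext z; simp only [mem_pts, mem_filter]
  exact and_congr_right fun hz => ⟨cls_eq hZ hL hoff c1 c2 hz, fun e => e ▸ le_sup_left⟩

lemma cls_pos (hc : c ∈ cls Z L) : 1 ≤ (pts Z c).card := by
  obtain ⟨z, hz, rfl⟩ := mem_image.1 hc
  exact card_pos.2 ⟨z, mem_pts.2 ⟨hz, le_sup_left⟩⟩

lemma pairs_split (hZ : IsPts Z) (hL : rk L = 2) (hoff : ∀ z ∈ Z, ¬ z ≤ L) :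
    Z.card.choose 2 = ∑ l ∈ skew Z L, (pts Z l).card.choose 2 +
      ∑ c ∈ cls Z L, (pts Z c).card.choose 2 := by
  rw [← pairs_choose hZ, sum_lines_split hZ hL hoff, sum_congr rfl fun c _ => pairs_choose' hZ c]

lemma off_pts (W : Sub) (l : Sub) : off (pts Z W) l = (off Z l).filter (· ≤ W) := by
  ext x; simp only [mem_off, mem_pts, mem_filter]; tauto

/-- flags (line, point off the line), counted by lines and by planes. -/
lemma flags (hZ : IsPts Z) (S : Finset Sub) (hS : S ⊆ lines Z) (T : Finset Sub)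
    (hT : T ⊆ planes Z) :
    ∑ l ∈ S, ((off Z l).filter fun z => z ⊔ l ∈ T).card
      = ∑ p ∈ T, ∑ l ∈ S.filter (· ≤ p), (off (pts Z p) l).card := by
  simp only [sum_filter]
  rw [sum_comm]
  refine sum_congr rfl fun l hl => ?_
  rw [card_eq_sum_card_fiberwise (s := (off Z l).filter fun z => z ⊔ l ∈ T) (f := (· ⊔ l)) (t := T)
    fun z hz => mem_coe.2 (mem_filter.1 (mem_coe.1 hz)).2]
  refine sum_congr rfl fun p hp => ?_
  split_ifs with h
  · congr 1; ext z; simp only [mem_filter, mem_off, mem_pts]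
    constructor
    · rintro ⟨⟨⟨h1, h2⟩, -⟩, rfl⟩; exact ⟨⟨h1, le_sup_left⟩, h2⟩
    · rintro ⟨⟨h1, h2⟩, h3⟩
      have := plane_eq (rk_plane (hT hp)) (hZ z h1) (rk_line (hS hl)) h3 h2 h
      exact ⟨⟨⟨h1, h3⟩, this ▸ hp⟩, this⟩
  · exact card_eq_zero.2 (filter_eq_empty_iff.2 fun z _ e => h (e ▸ le_sup_right))

lemma flag_skew (hZ : IsPts Z) (hL : rk L = 2) (hl : l ∈ skew Z L) :
    ((off Z l).filter fun z => z ⊔ l ∈ pz Z L) = off Z l :=
  filter_true_of_mem fun z hz => by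
    obtain ⟨l1, l2⟩ := mem_skew.1 hl
    have := sup_mem_planes hZ (mem_off.1 hz).1 l1 (mem_off.1 hz).2
    exact mem_pz.2 ⟨this, skew_not_le hL (rk_line l1) l2 (rk_plane this) le_sup_right⟩

lemma flag_cls (hZ : IsPts Z) (hL : rk L = 2) (hoff : ∀ z ∈ Z, ¬ z ≤ L) (hc : c ∈ cls Z L)
    (hl : l ∈ lns Z c) : ((off Z l).filter fun z => z ⊔ l ∈ pz Z L) = off Z c := by
  obtain ⟨c1, c2⟩ := rk_cls hZ hL hoff hc
  obtain ⟨l1, l2⟩ := mem_lns.1 hl
  have lL : l ≠ L := fun e => by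
    obtain ⟨z, hz, z1, -⟩ := exists_ne hZ l1 ⊥
    exact hoff z hz (e ▸ z1)
  ext z; simp only [mem_filter, mem_off, mem_pz]
  constructor
  · rintro ⟨⟨h1, h2⟩, -, h4⟩
    exact ⟨h1, fun e => h4 (plane_eq c1 (hZ z h1) (rk_line l1) h2 e l2 ▸ c2)⟩
  · rintro ⟨h1, h2⟩
    have h3 : ¬ z ≤ l := fun e => h2 (e.trans l2)
    have h4 := sup_mem_planes hZ h1 l1 h3
    refine ⟨⟨h1, h3⟩, h4, fun e => h2 ?_⟩
    rw [← plane_eq' c1 (rk_line l1) hL lL l2 c2,
      plane_eq' (rk_plane h4) (rk_line l1) hL lL le_sup_right e]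
    exact le_sup_left

theorem flags_eq (hZ : IsPts Z) (hL : rk L = 2) (hoff : ∀ z ∈ Z, ¬ z ≤ L) :
    ∑ p ∈ pz Z L, ∑ l ∈ lns Z p, (off (pts Z p) l).card
      = ∑ l ∈ skew Z L, (off Z l).card + ∑ c ∈ cls Z L, (lns Z c).card * (off Z c).card := by
  have h := flags hZ (lines Z) subset_rfl (pz Z L) (filter_subset _ _)
  rw [sum_lines_split hZ hL hoff, sum_congr rfl fun l hl => by rw [flag_skew hZ hL hl],
    sum_congr rfl fun c hc => (sum_congr rfl fun l hl => by rw [flag_cls hZ hL hoff hc hl])] at h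
  simp only [sum_const, smul_eq_mul] at h
  exact h.symm

lemma off_pos (hp : p ∈ planes Z) (hl : rk l = 2) : 1 ≤ (off (pts Z p) l).card := by
  obtain ⟨x, hx, x1, x2⟩ := exists_off hp hl.le
  exact card_pos.2 ⟨x, mem_off.2 ⟨mem_pts.2 ⟨hx, x1⟩, x2⟩⟩

/-- three non-collinear points give three lines. -/
lemma tri (ha : rk a = 1) (hb : rk b = 1) (hc : rk c = 1) (hab : a ≠ b) (h : ¬ c ≤ a ⊔ b) :
    c ≠ a ∧ c ≠ b ∧ a ⊔ b ≠ c ⊔ a ∧ a ⊔ b ≠ c ⊔ b ∧ c ⊔ a ≠ c ⊔ b := by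
  have h1 : c ≠ a := fun e => h (e ▸ le_sup_left)
  have h2 : c ≠ b := fun e => h (e ▸ le_sup_right)
  refine ⟨h1, h2, fun e => h (e ▸ le_sup_left), fun e => h (e ▸ le_sup_left), fun e => h ?_⟩
  rw [line_eq (rk_pp hc ha h1) ha hb hab le_sup_right (e ▸ le_sup_right)]; exact le_sup_left

lemma three_le_lns (hZ : IsPts Z) (hp : p ∈ planes Z) : 3 ≤ (lns Z p).card := by
  obtain ⟨-, c, hc, l, hl, h, c1, l1⟩ := (mem_planes hZ).1 hp
  obtain ⟨r, a, ha, b, hb, hab, a1, b1⟩ := (mem_lines hZ).1 hl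
  have e := line_eq r (hZ a ha) (hZ b hb) hab a1 b1
  obtain ⟨t1, t2, t3, t4, t5⟩ := tri (hZ a ha) (hZ b hb) (hZ c hc) hab (e ▸ h)
  exact two_lt_card_iff.2 ⟨a ⊔ b, c ⊔ a, c ⊔ b, mem_lns.2 ⟨e ▸ hl, e ▸ l1⟩,
    mem_lns.2 ⟨sup_mem_lines hZ hc ha t1, sup_le c1 (a1.trans l1)⟩,
    mem_lns.2 ⟨sup_mem_lines hZ hc hb t2, sup_le c1 (b1.trans l1)⟩, t3, t4, t5⟩

theorem three_pz (hZ : IsPts Z) (hL : rk L = 2) (hoff : ∀ z ∈ Z, ¬ z ≤ L) :
    3 * (pz Z L).card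
      ≤ ∑ l ∈ skew Z L, (off Z l).card + ∑ c ∈ cls Z L, (lns Z c).card * (off Z c).card := by
  rw [← flags_eq hZ hL hoff, mul_comm, ← smul_eq_mul]
  refine card_nsmul_le_sum _ _ _ fun p hp => (three_le_lns hZ (mem_pz.1 hp).1).trans ?_
  simpa using card_nsmul_le_sum (lns Z p) (fun l => (off (pts Z p) l).card) 1
    fun l hl => off_pos (mem_pz.1 hp).1 (rk_line (mem_lns.1 hl).1)

lemma off_self (hoff : ∀ z ∈ Z, ¬ z ≤ L) : off Z L = Z := filter_true_of_mem hoff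

lemma two_le_skew (hZ : IsPts Z) (hL : rk L = 2) (hoff : ∀ z ∈ Z, ¬ z ≤ L) (hp : p ∈ pz Z L) :
    2 ≤ ((skew Z L).filter (· ≤ p)).card := by
  obtain ⟨p1, p2⟩ := mem_pz.1 hp
  obtain ⟨a, ha, b, hb, hab, hs, hle⟩ := exists_skew hZ hL p1 p2
  rw [off_self hoff] at ha hb hs
  obtain ⟨c, hc, c1, c2⟩ := exists_off p1 (rk_line (mem_skew.1 hs).1).le
  obtain ⟨t1, t2, t3, t4, t5⟩ := tri (hZ a ha) (hZ b hb) (hZ c hc) hab c2
  by_cases h : a ≤ c ⊔ L
  · have h' : ¬ b ≤ c ⊔ L := fun h' => skew_not_le hL (rk_line (mem_skew.1 hs).1)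
      (mem_skew.1 hs).2 (rk_pl (hZ c hc) hL (hoff c hc)) (sup_le h h') le_sup_right
    exact one_lt_card.2 ⟨a ⊔ b, mem_filter.2 ⟨hs, hle⟩, c ⊔ b, mem_filter.2 ⟨mem_skew.2
      ⟨sup_mem_lines hZ hc hb t2, (skew_iff hL (hZ c hc) (hZ b hb) t2 (hoff c hc)).2 h'⟩,
      sup_le c1 (le_sup_right.trans hle)⟩, t4⟩
  · exact one_lt_card.2 ⟨a ⊔ b, mem_filter.2 ⟨hs, hle⟩, c ⊔ a, mem_filter.2 ⟨mem_skew.2
      ⟨sup_mem_lines hZ hc ha t1, (skew_iff hL (hZ c hc) (hZ a ha) t1 (hoff c hc)).2 h⟩,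
      sup_le c1 (le_sup_left.trans hle)⟩, t3⟩

lemma sum_off_skew (hZ : IsPts Z) :
    ∑ l ∈ skew Z L, (off Z l).card + 2 * (skew Z L).card ≤ (skew Z L).card * Z.card := by
  rw [mul_comm 2, ← smul_eq_mul, ← sum_const, ← sum_add_distrib, ← smul_eq_mul]
  exact sum_le_card_nsmul _ _ _ fun l hl => by
    have := card_pts_off Z l
    have := two_le_pts hZ (mem_skew.1 hl).1
    omega

theorem two_pz (hZ : IsPts Z) (hL : rk L = 2) (hoff : ∀ z ∈ Z, ¬ z ≤ L) :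
    2 * (pz Z L).card + 2 * (skew Z L).card ≤ (skew Z L).card * Z.card := by
  refine le_trans (Nat.add_le_add_right ?_ _) (sum_off_skew hZ)
  have h := flags hZ (skew Z L) (filter_subset _ _) (pz Z L) (filter_subset _ _)
  rw [sum_congr rfl fun l hl => by rw [flag_skew hZ hL hl]] at h
  rw [h, mul_comm, ← smul_eq_mul]
  refine card_nsmul_le_sum _ _ _ fun p hp => (two_le_skew hZ hL hoff hp).trans ?_
  simpa using card_nsmul_le_sum ((skew Z L).filter (· ≤ p)) (fun l => (off (pts Z p) l).card) 1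
    fun l hl => off_pos (mem_pz.1 hp).1 (rk_line (mem_skew.1 (mem_filter.1 hl).1).1)

end Pool.Agent.P.MP_390d44_co
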