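import Pool.Agent.P.MP_390d44_co.State

/-! Starting configurations and special moves. -/

namespace Pool.Agent.P.MP_390d44_co

open Finset

variable {a b c c0 l l' p p' q x y z A B W L : Sub} {X X' Y Z Q S : Finset Sub}
variable {j e δ D n U2 U1 U3 : ℕ}

structure Pl (X : Finset Sub) (L c0 : Sub) (j e : ℕ) : Prop extends Base X L c0 where
  inc : ∀ x ∈ X, x ≤ c0
  nz : (off X L).card = j
  nl : (lines X).card + e = (j + 2).choose 2

lemma Pl.skew (P : Pl X L c0 j e) : skew (off X L) L = ∅ :=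
  skew_empty (rk_line P.ln) P.c0r P.c0L fun z hz => P.inc z (off_sub hz)

lemma Pl.off (P : Pl X L c0 j e) : off (off X L) c0 = ∅ :=
  filter_false_of_mem fun z hz => not_not.2 (P.inc z (off_sub hz))

lemma Pl.wt (P : Pl X L c0 j e) (q : Sub) (k : ℕ) :
    wt (MP_390d44_co.off X L) L q = 0 + k * (MP_390d44_co.off (MP_390d44_co.off X L) c0).card := by
  simp [MP_390d44_co.wt, P.skew, P.off]

lemma pl_step (P : Pl X L c0 j e) (hA : All X L c0 U2 U1 U3) :
    ∃ X', Pl X' L c0 (j + 1) e ∧ All X' L c0 (U2 + j) U1 U3 := by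
  obtain ⟨Q, hQ, hK⟩ := hA.track
  have r := rk_line P.ln
  have hZ := P.ip.mono (off_sub (X := X) (L := L))
  have hZc : ∀ z ∈ off X L, z ≤ c0 := fun z hz => P.inc z (off_sub hz)
  set Q' := Q ∪ (lines (off X L)).image (· ⊓ L) with hQ'
  have iQ : IsPts Q' := fun u hu => by
    simp only [hQ', mem_union, mem_image] at hu
    rcases hu with hu | ⟨l, hl, rfl⟩
    exacts [(hQ u hu).1, meet_ll P.c0r (rk_line hl) r (line_ne hZ hoff' hl)
      (line_le_of_pts hl fun z hz _ => hZc z hz) P.c0L]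
  obtain ⟨x, x1, x2, -, x4⟩ := gstep P.toBase iQ (c := c0) (by rw [P.c0r]; omega)
    (not_line P.c0r.ge) fun q _ _ _ p _ h _ => P.c0L.trans h
  have h := x2.mono (subset_union_left (s₁ := X))
  have h' := h.mono (off_sub (X := X) (L := L))
  have hL : ¬ x ≤ L := h.nl _ P.ln
  have n2 := fun z (hz : z ∈ off X L) => new2 (isPts_union P.ip iQ)
    (off_sub.trans subset_union_left) r hoff' P.c0r P.c0L hZc x2 x1 hL
    (fun l hl => mem_union_right _ (mem_union_right _ (mem_image_of_mem _ hl))) hz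
  have P' : Pl (insert x X) L c0 (j + 1) e := by
    refine ⟨P.toBase.ins h, fun u hu => ?_, ?_, ?_⟩
    · rcases mem_insert.1 hu with rfl | hu
      exacts [x1, P.inc u hu]
    · rw [off_ins_of_not hL, card_insert_of_notMem h'.nm, P.nz]
    · have := card_pts_off X L; have := P.two; have := P.nz; have := P.nl
      rw [card_lines_ins P.ip h, add_right_comm j, ch2]; omega
  refine ⟨_, P', ?_⟩
  have := hK (insert x X) Q' ((off X L).image fun z => (x ⊔ z) ⊓ L) ∅ subset_union_left x4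
    (fun q hq => by
      obtain ⟨z, hz, rfl⟩ := mem_image.1 hq
      obtain ⟨t1, t2, t3⟩ := n2 z hz
      refine ⟨fun e => t2 (mem_union_right _ e), t1, inf_le_right, fun e => ?_, ?_, ?_, P'.wt _ _⟩
      · rcases mem_insert.1 e with e | e
        exacts [hL (e ▸ inf_le_right), t2 (mem_union_left _ e)]
      · rw [off_ins_of_not hL, t3, card_pair (h'.ne hz)]
      · exact fun u hu => P'.inc u (off_sub (mem_filter.1 hu).1)) (by simp)
  rwa [card_image_of_injOn fun z hz z' hz' e => ?_, P.nz] at this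
  have e1 := (n2 z hz).2.2
  have e : (x ⊔ z) ⊓ L = (x ⊔ z') ⊓ L := e
  rw [e, (n2 z' hz').2.2] at e1
  have : z ∈ ({x, z'} : Finset Sub) := e1 ▸ mem_insert_of_mem (mem_singleton_self _)
  exact mem_singleton.1 ((mem_insert.1 this).resolve_left (h'.ne hz).symm)

lemma Pl.st (P : Pl X L c0 j e) (hA : All X L c0 U2 U1 U3) (hj : 1 ≤ j)
    (hδ : δ + 1 = (j + 2).choose 3) : St j e δ (j.choose 2) 0 U2 U1 U3 := by
  obtain ⟨z, hz⟩ := card_pos.1 (show 0 < (MP_390d44_co.off X L).card by have := P.nz; omega)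
  have hc : c0 ∈ planes X := cls_eq (P.ip.mono off_sub) (rk_line P.ln) hoff' P.c0r P.c0L hz
    (P.inc z (off_sub hz)) ▸ sup_mem_planes P.ip (off_sub hz) P.ln (hoff' z hz)
  have h1 := planes_le_one P.c0r P.inc
  have h2 := card_pos.2 ⟨_, hc⟩
  exact ⟨X, L, c0, ⟨P.toBase, hc, P.nz, P.nl, by omega, by simp [P.skew], by simp [P.off],
    by simp [P.skew]⟩, hA⟩

lemma base_of (hZ : IsPts Z) (hc : rk c0 = 3) (h : ∀ z ∈ Z, z ≤ c0)
    (he : (lines Z).card + e = Z.card.choose 2) : ∃ X L, Pl X L c0 Z.card e ∧ off X L = Z ∧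
      ∀ l ∈ lines Z, ∀ u ∈ X, u ≤ L → ¬ u ≤ l := by
  obtain ⟨y, y1, y2, -⟩ := gen3 hZ hc.ge
  have hZ1 := hZ.ins y2.pt
  obtain ⟨x, x1, x2, -⟩ := gen3 hZ1 hc.ge
  have hy : y ∈ insert y Z := mem_insert_self _ _
  have e1 := pts_new hZ1 x2 hy
  have e2 : off (insert x (insert y Z)) (x ⊔ y) = Z := by
    rw [off_ins_of_le le_sup_left, off_ins_of_le le_sup_right]
    exact off_self fun z hz e => y2.ne hz (x2.eq hZ1 hy (mem_insert_of_mem hz) e)
  refine ⟨insert x (insert y Z), x ⊔ y, ⟨⟨hZ1.ins x2.pt, sup_mem_lines (hZ1.ins x2.pt)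
    (mem_insert_self _ _) (mem_insert_of_mem hy) (x2.ne hy), by rw [e1, card_pair (x2.ne hy)], hc,
    sup_le x1 y1⟩, fun u hu => ?_, by rw [e2], ?_⟩, e2, fun l hl u hu e => ?_⟩
  · simp only [mem_insert] at hu
    rcases hu with rfl | rfl | hu
    exacts [x1, y1, h u hu]
  · rw [card_lines_ins hZ1 x2, card_lines_ins hZ y2, card_insert_of_notMem y2.nm, ch2, ch2]; omega
  · have : u ∈ ({x, y} : Finset Sub) := e1 ▸ mem_pts.2 ⟨hu, e⟩
    simp only [mem_insert, mem_singleton] at this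
    rcases this with rfl | rfl
    exacts [x2.nl l (lines_mono (subset_insert _ _) hl), y2.nl l hl]

lemma many_zero {k w : ℕ} : Many X L c0 k w 0 := ⟨∅, rfl, by simp⟩

lemma exists_plane : ∃ c : Sub, rk c = 3 := by
  obtain ⟨x, x1, -⟩ := generic (W := ⊤) (by rw [rk_top]; omega) ∅ (by simp)
  obtain ⟨H, h, -⟩ := exists_plane_avoid x1
  exact ⟨H, h⟩

lemma pl_iter (P : Pl X L c0 j e) (hA : All X L c0 U2 U1 U3) (k U : ℕ)
    (hU : U + j.choose 2 = U2 + (j + k).choose 2) :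
    ∃ X', Pl X' L c0 (j + k) e ∧ All X' L c0 U U1 U3 := by
  induction k generalizing U with
  | zero => obtain rfl : U = U2 := by simpa using hU
            exact ⟨X, P, hA⟩
  | succ k ih =>
    have := Nat.choose_le_choose 2 (Nat.le_add_right j k)
    rw [← add_assoc, ch2] at hU
    obtain ⟨X1, P1, A1⟩ := ih (U2 + (j + k).choose 2 - j.choose 2) (by omega)
    obtain ⟨X2, P2, A2⟩ := pl_step P1 A1
    exact ⟨X2, P2, by rwa [show U = U2 + (j + k).choose 2 - j.choose 2 + (j + k) by omega]⟩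

theorem st0 (hj : 1 ≤ j) (hδ : δ + 1 = (j + 2).choose 3) :
    St j 0 δ (j.choose 2) 0 (j.choose 2) 0 0 := by
  obtain ⟨c0, hc⟩ := exists_plane
  obtain ⟨X, L, P, -⟩ := base_of (Z := ∅) (e := 0) (by simp [IsPts]) hc (by simp) (by simp [lines])
  obtain ⟨X', P', A'⟩ := pl_iter P ⟨many_zero, many_zero, many_zero⟩ j (j.choose 2) (by simp)
  rw [card_empty, zero_add] at P'
  exact P'.st A' hj hδ

theorem st2 (hj : 3 ≤ j) (hδ : δ + 1 = (j + 2).choose 3) (hU : U2 + 3 = j.choose 2) :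
    St j 2 δ (j.choose 2) 0 U2 1 0 := by
  obtain ⟨c0, hc⟩ := exists_plane
  obtain ⟨X0, M, P0, -⟩ := base_of (Z := ∅) (e := 0) (by simp [IsPts]) hc (by simp)
    (by simp [lines])
  have rM := rk_line P0.ln
  obtain ⟨w, w1, w2, w3⟩ := generic (W := M) (by omega) X0 fun U hU =>
    not_le_of_rk (by rw [P0.ip U hU]; omega)
  have on : ∀ u ∈ insert w X0, u ≤ M := fun u hu => by
    rcases mem_insert.1 hu with rfl | hu
    · exact w2
    · by_contra e
      have := card_pos.2 ⟨u, mem_off.2 ⟨hu, e⟩⟩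
      have := P0.nz; rw [card_empty] at this; omega
  have hZ := P0.ip.ins w1
  have c3 : (insert w X0).card = 3 := by
    have := card_pts_off X0 M; have := P0.two; have := P0.nz
    rw [card_insert_of_notMem fun e => w3 w e le_rfl]; rw [card_empty] at this; omega
  have hM := lines_mono (subset_insert w X0) P0.ln
  have e1 : lines (insert w X0) = {M} := eq_singleton_iff_unique_mem.2 ⟨hM, fun l hl =>
    eq_of_rk (line_le_of_pts hl fun u hu _ => on u hu) (by rw [rM, rk_line hl])⟩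
  obtain ⟨X, L, P, e2, h⟩ := base_of (e := 2) hZ hc (fun u hu => (on u hu).trans P0.c0L)
    (by rw [e1, c3]; rfl)
  obtain ⟨y, hy, y1, -⟩ : ∃ y ∈ X, y ≤ L ∧ ¬ y ≤ M := by
    obtain ⟨y, hy, y1, -⟩ := exists_ne P.ip P.ln ⊥
    exact ⟨y, hy, y1, h M hM y hy y1⟩
  have rq := meet_ll hc rM (rk_line P.ln) (fun e => h M hM y hy y1 (e ▸ y1)) P0.c0L P.c0L
  have ev : vv (off X L) (M ⊓ L) = off X L := filter_true_of_mem fun z hz => by
    rw [line_eq rM rq (P.ip z (off_sub hz)) (fun e => hoff' z hz (e ▸ inf_le_right)) inf_le_left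
      (on z (e2 ▸ hz)), e2]; exact hM
  have T : Tr X L c0 (M ⊓ L) 3 0 := ⟨rq, inf_le_right, fun e => h M hM _ e inf_le_right inf_le_left,
    by rw [ev, e2, c3], by rw [ev]; exact fun z hz => P.inc z (off_sub hz), P.wt _ _⟩
  obtain ⟨k, rfl⟩ := Nat.exists_eq_add_of_le hj
  rw [c3] at P
  obtain ⟨X', P', A'⟩ := pl_iter P ⟨many_zero, ⟨{M ⊓ L}, rfl, by simpa⟩, many_zero⟩ k U2
    (by simpa using hU)
  exact P'.st A' (by omega) hδ

lemma new_cls (C : Base X L c0) (h : Av x X) (hp : ∀ p ∈ planes X, x ≤ p → ¬ L ≤ p) :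
    (pts (off X L) (x ⊔ L)).card = 0 := card_eq_zero.2 (filter_eq_empty_iff.2 fun z hz e =>
  hp _ (sup_mem_planes C.ip (off_sub hz) C.ln (hoff' z hz)) (cls_eq (C.ip.mono off_sub)
    (rk_line C.ln) hoff' (rk_pl h.pt (rk_line C.ln) (h.nl _ C.ln)) le_sup_right hz e ▸ le_sup_left)
    le_sup_right)

lemma free_step (C : Core X L c0 j e δ D n) (hQ : IsPts Q) : ∃ x, Av x X ∧
    (∀ p ∈ planes X, ¬ x ≤ p) ∧ Core (insert x X) L c0 (j + 1) e (δ + e) D (n + 1) ∧
    Keep X (insert x X) L c0 Q := by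
  have nt : ∀ p, rk p = 3 → ¬ ⊤ ≤ p := fun p hp => not_le_of_rk (by rw [rk_top]; omega)
  obtain ⟨x, -, x2, x3, x4⟩ := gstep C.toBase hQ (c := ⊤) (by rw [rk_top]; omega)
    (not_line (by rw [rk_top]; omega)) fun q _ _ _ p hp h _ => absurd h (nt p hp)
  have h := x2.mono (subset_union_left (s₁ := X))
  have h1 : ∀ p ∈ planes X, ¬ x ≤ p := fun p hp e =>
    nt p (rk_plane hp) (x3 p (planes_mono subset_union_left hp) e)
  exact ⟨x, h, h1, C.step h (h1 _ C.c0p) (sum_eq_zero fun p hp => absurd (mem_filter.1 hp).2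
    (h1 p (mem_filter.1 hp).1)) (new_cls C.toBase h fun p hp e => absurd e (h1 p hp)), x4⟩

lemma lns_new (hX : IsPts X) (h : Av x X) (hl : l ∈ lines X) (hn : x ⊔ l ∉ planes X) :
    (pts (insert x X) (x ⊔ l)).card = (pts X l).card + 1 ∧
      (lns (insert x X) (x ⊔ l)).card = (pts X l).card + 1 := by
  have e2 : lns X (x ⊔ l) = {l} := by
    ext g; simp only [mem_lns, mem_singleton]
    exact ⟨fun g1 => new_plane' hX h hl hn g1.1 g1.2, fun e => by rw [e]; exact ⟨hl, le_sup_right⟩⟩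
  have e3 : pts X (x ⊔ l) = pts X l := filter_congr fun a ha =>
    ⟨new_plane hX h hl hn ha, fun e => e.trans le_sup_right⟩
  rw [card_lns_ins hX h le_sup_left, e2, e3, pts_ins_of_le le_sup_left, e3,
    card_insert_of_notMem fun e => h.nm (pts_sub e), card_singleton, add_comm]
  exact ⟨rfl, rfl⟩

structure InP (X : Finset Sub) (L p : Sub) (i : ℕ) : Prop where
  mem : p ∈ planes X
  nl : ¬ L ≤ p
  ex : ∃ y ∈ X, y ≤ L ∧ y ≤ p
  np : (pts X p).card = i
  nn : (lns X p).card = i.choose 2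

lemma plane_step {i : ℕ} (C : Core X L c0 j e δ D n) (hA : All X L c0 U2 U1 U3)
    (I : InP X L p i) : ∃ X', Core X' L c0 (j + 1) e (δ + e + i.choose 2) D (n + 1) ∧
      All X' L c0 U2 U1 U3 ∧ InP X' L p (i + 1) := by
  obtain ⟨Q, hQ, hK⟩ := hA.track
  have r := rk_plane I.mem
  obtain ⟨y, hy, y1, y2⟩ := I.ex
  obtain ⟨x, x1, x2, x3, x4⟩ := gstep C.toBase (fun q hq => (hQ q hq).1) (c := p) (by omega)
    (not_line r.ge) fun q hq q1 q2 p' p1 p2 p3 => absurd (pt_unique (rk_line C.ln) I.nl (C.ip y hy)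
      (hQ q hq).1 y1 q1 y2 (eq_of_rk p2 (by omega) ▸ p3) ▸ hy) q2
  have h := x2.mono (subset_union_left (s₁ := X))
  have e1 : ∀ p' ∈ planes X, x ≤ p' → p' = p := fun p' hp e => (eq_of_rk
    (x3 p' (planes_mono subset_union_left hp) e) (by rw [rk_plane hp, r])).symm
  refine ⟨insert x X, C.step h (fun e => I.nl (e1 _ C.c0p e ▸ C.c0L)) ?_
    (new_cls C.toBase h fun p' hp e => e1 p' hp e ▸ I.nl),
    hK _ Q ∅ ∅ subset_rfl x4 (by simp) (by simp), planes_mono (subset_insert _ _) I.mem, I.nl,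
    ⟨y, mem_insert_of_mem hy, y1, y2⟩, ?_, ?_⟩
  · rw [show (planes X).filter (x ≤ ·) = {p} from eq_singleton_iff_unique_mem.2
      ⟨mem_filter.2 ⟨I.mem, x1⟩, fun p hp => e1 p (mem_filter.1 hp).1 (mem_filter.1 hp).2⟩,
      sum_singleton, I.nn]
  · rw [pts_ins_of_le x1, card_insert_of_notMem fun e => h.nm (pts_sub e), I.np]
  · rw [card_lns_ins C.ip h x1, I.nn, I.np, ch2]

theorem St.six (h : St j 0 δ D n U2 U1 U3) : St (j + 4) 0 (δ + 19) D (n + 4) U2 U1 U3 := by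
  obtain ⟨X, L, c0, C, hA⟩ := h
  obtain ⟨Q, hQ, hK⟩ := hA.track
  obtain ⟨x, x1, x2, C1, K⟩ := free_step C fun q hq => (hQ q hq).1
  obtain ⟨z, hz, -, z2⟩ := exists_off C.c0p (rk_line C.ln).le
  obtain ⟨y, hy, y1, -⟩ := exists_ne C.ip C.ln ⊥
  have hl := sup_mem_lines C.ip hy hz fun e => z2 (e ▸ y1)
  have h2 : (pts X (y ⊔ z)).card = 2 := by
    by_contra hne
    have := two_le_pts C.ip hl
    have := card_add_le _ _ (fun l hl => one_le_choose C.ip hl) hl
      (Nat.choose_le_choose 2 (show 3 ≤ _ by omega))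
    rw [pairs_choose C.ip, C.card] at this
    have := C.nl; omega
  obtain ⟨n1, n2⟩ := lns_new C.ip x1 hl fun e => x2 _ e le_sup_left
  have hp := ins_plane C.ip x1 hl
  have I : InP (insert x X) L (x ⊔ (y ⊔ z)) 3 := ⟨hp, fun e => x2 _ (sup_mem_planes C.ip hz C.ln z2)
    (plane_eq (rk_plane hp) (C.ip z hz) (rk_line C.ln) z2 (le_sup_right.trans le_sup_right) e ▸
      le_sup_left), ⟨y, mem_insert_of_mem hy, y1, le_sup_left.trans le_sup_right⟩,
      by rw [n1, h2], by rw [n2, h2]; rfl⟩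
  obtain ⟨X2, C2, A2, I2⟩ := plane_step C1 (hK _ Q ∅ ∅ subset_rfl K (by simp) (by simp)) I
  obtain ⟨X3, C3, A3, I3⟩ := plane_step C2 A2 I2
  obtain ⟨X4, C4, A4, -⟩ := plane_step C3 A3 I3
  exact ⟨X4, L, c0, C4, A4⟩

lemma Tr.thru (B : Base X L c0) (T : Tr X L c0 q 2 0) : ∃ g ∈ lines X, g ≠ L ∧ q ≤ g ∧
    (pts X g).card = 2 ∧ ∀ l ∈ lines X, q ≤ l → l = L ∨ l = g := by
  have r := rk_line B.ln
  have key : ∀ l ∈ lines X, q ≤ l → l ≠ L → pts X l = vv (off X L) q := by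
    intro l hl h1 h2
    have off1 : ∀ a ∈ X, a ≤ l → a ∈ off X L := fun a ha e => mem_off.2 ⟨ha, fun e' => h2
      (lines_eq (rk_line hl) r T.pt (B.ip a ha) (fun e => T.nm (e ▸ ha)) h1 e T.le e')⟩
    refine eq_of_subset_of_card_le (fun a ha => ?_) (T.cd ▸ two_le_pts B.ip hl)
    obtain ⟨a1, a2⟩ := mem_pts.1 ha
    refine mem_filter.2 ⟨off1 a a1 a2, ?_⟩
    rw [line_eq (rk_line hl) T.pt (B.ip a a1) (fun e => T.nm (e ▸ a1)) h1 a2]
    exact line_restrict (B.ip.mono off_sub) B.ip hl off1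
  obtain ⟨u, hu⟩ := card_pos.1 (show 0 < (vv (off X L) q).card by rw [T.cd]; omega)
  obtain ⟨u1, u2⟩ := mem_filter.1 hu
  have hg := lines_mono off_sub u2
  have ne : q ⊔ u ≠ L := fun e => hoff' u u1 (e ▸ le_sup_right)
  refine ⟨_, hg, ne, le_sup_left, by rw [key _ hg le_sup_left ne, T.cd], fun l hl e =>
    or_iff_not_imp_left.2 fun e' => ?_⟩
  have : u ∈ pts X l := key l hl e e' ▸ hu
  exact (line_eq (rk_line hl) T.pt (B.ip u (off_sub u1)) (fun e => T.nm (e ▸ off_sub u1)) e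
    (mem_pts.1 this).2).symm

theorem St.m2 (h : St j e δ D 0 (U2 + 1) U1 U3) :
    St (j + 2) e (δ + e + e + 6) (D + 1) 2 U2 U1 U3 := by
  obtain ⟨X, L, c0, C, ⟨Q2, c2, t2⟩, hA⟩ := h
  obtain ⟨q0, hq0⟩ := card_pos.1 (show 0 < Q2.card by omega)
  have T := t2 q0 hq0
  have r := rk_line C.ln
  have inc : ∀ u ∈ X, u ≤ c0 := fun u hu => by_contra fun e => by
    have := card_pos.2 ⟨u, mem_off.2 ⟨mem_off.2 ⟨hu, fun e' => e (e'.trans C.c0L)⟩, e⟩⟩
    have := C.nb; omega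
  have hA : All X L c0 U2 U1 U3 := ⟨⟨Q2.erase q0, by rw [card_erase_of_mem hq0, c2]; rfl,
    fun q hq => t2 q (mem_of_mem_erase hq)⟩, hA⟩
  obtain ⟨Q, hQ, hK⟩ : ∃ Q, (∀ q ∈ Q, rk q = 1 ∧ q ≤ L ∧ q ≠ q0) ∧ ∀ X', Keep X X' L c0 Q →
      All X' L c0 U2 U1 U3 := by
    obtain ⟨Q1, c1, t1⟩ := hA.2.1
    obtain ⟨Q3, c3, t3⟩ := hA.2.2
    refine ⟨Q2.erase q0 ∪ Q1 ∪ Q3, fun q hq => ?_, fun X' K => ⟨⟨Q2.erase q0,
      by rw [card_erase_of_mem hq0, c2]; rfl, fun q hq => K q (by simp [hq]) _ _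
      (t2 q (mem_of_mem_erase hq))⟩, ⟨Q1, c1, fun q hq => K q (by simp [hq]) _ _ (t1 q hq)⟩,
      ⟨Q3, c3, fun q hq => K q (by simp [hq]) _ _ (t3 q hq)⟩⟩⟩
    simp only [mem_union, mem_erase] at hq
    rcases hq with (hq | hq) | hq
    · exact ⟨(t2 q hq.2).pt, (t2 q hq.2).le, hq.1⟩
    · exact ⟨(t1 q hq).pt, (t1 q hq).le, fun e => by
        have := (t1 q hq).cd; rw [e, T.cd] at this; omega⟩
    · exact ⟨(t3 q hq).pt, (t3 q hq).le, fun e => by
        have := (t3 q hq).cd; rw [e, T.cd] at this; omega⟩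
  have iQ : IsPts Q := fun q hq => (hQ q hq).1
  obtain ⟨u, u1, u2, C1, K1⟩ := free_step C iQ
  obtain ⟨g, g1, g2, g3, g4, g5⟩ := T.thru C.toBase
  have u0 := u2 _ C.c0p
  have q0c := T.le.trans C.c0L
  have rc := rk_pp u1.pt T.pt fun e => u0 (e ▸ q0c)
  have nc : ¬ u ⊔ q0 ≤ c0 := fun e => u0 (le_sup_left.trans e)
  have only : ∀ v, rk v = 1 → v ≤ u ⊔ q0 → v ≤ c0 → v = q0 := fun v v1 v2 v3 =>
    pt_unique rc nc v1 T.pt v2 le_sup_right v3 q0c
  obtain ⟨x, x1, x2, x3, x4⟩ := gstep C1.toBase iQ (c := u ⊔ q0) rc.ge (fun e => by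
      obtain ⟨v, hv, v1, v2⟩ := exists_ne (isPts_union C1.ip iQ) e u
      simp only [mem_union, mem_insert] at hv
      rcases hv with (hv | hv) | hv
      · exact v2 hv
      · exact T.nm (only v (C.ip v hv) v1 (inc v hv) ▸ hv)
      · exact (hQ v hv).2.2 (only v (iQ v hv) v1 ((hQ v hv).2.1.trans C.c0L)))
    fun q hq q1 _ p _ p2 p3 => line_le r (iQ q hq) T.pt (hQ q hq).2.2 q1 T.le p3
      (le_sup_right.trans p2)
  have h := x2.mono (subset_union_left (s₁ := insert u X))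
  have x0 : ¬ x ≤ c0 := fun e => h.nl _ C1.ln (only x h.pt x1 e ▸ T.le)
  obtain ⟨n1, n2⟩ := lns_new C.ip u1 C.ln fun e => u2 _ e le_sup_left
  obtain ⟨-, n3⟩ := lns_new C.ip u1 g1 fun e => u2 _ e le_sup_left
  have pL := ins_plane C.ip u1 C.ln
  have xL : x ≤ u ⊔ L := x1.trans (sup_le_sup_left T.le u)
  refine ⟨insert x (insert u X), L, c0, C1.step h x0 ?_ ?_, hK _ fun q hq k w T =>
    x4 q hq k w (K1 q hq k w T)⟩
  · have ne : u ⊔ L ≠ u ⊔ g := fun e => g2 (new_plane' C.ip u1 C.ln (fun e => u2 _ e le_sup_left) g1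
      (e ▸ le_sup_right))
    have e1 : (planes (insert u X)).filter (x ≤ ·) = {u ⊔ L, u ⊔ g} := by
      ext p; simp only [mem_filter, mem_insert, mem_singleton]
      constructor
      · rintro ⟨p1, p2⟩
        have p3 := x3 p (planes_mono subset_union_left p1) p2
        obtain ⟨l, hl, rfl⟩ := exists_ins_line C.ip u1 p1 (le_sup_left.trans p3)
        have := (le_inf (le_sup_right.trans p3) q0c).trans (le_of_planes (rk_plane p1) C.c0r
          (fun e => u0 (e ▸ le_sup_left)) (rk_line hl) le_sup_right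
          (line_le_of_pts hl fun v hv _ => inc v hv))
        exact (g5 l hl this).imp (fun e => by rw [e]) fun e => by rw [e]
      · rintro (rfl | rfl)
        exacts [⟨pL, xL⟩, ⟨ins_plane C.ip u1 g1, x1.trans (sup_le_sup_left g3 u)⟩]
    rw [e1, sum_pair ne, n2, n3, C.two, g4]
  · have := card_pts_cls (X := insert u X) (le_sup_right : L ≤ u ⊔ L)
    rw [plane_eq (rk_plane pL) h.pt r (h.nl _ C1.ln) xL le_sup_right]
    have := C1.two; have := C.two; omega

end Pool.Agent.P.MP_390d44_co
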