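import Pool.Agent.P.MP_390d44_co.Upper

/-! Necessity of the conditions. -/

namespace Pool.Agent.P.MP_390d44_co

open Finset

variable {a b c l l' p p' y z A B W L : Sub} {X Y Z : Finset Sub}

def Band (n p : ℕ) : Prop := ∃ j d s, d + 2 ≤ j ∧ s + d = j.choose 2 ∧ s ^ 2 ≤ 5 * n ∧
  s * (n - s - 1) + 2 ≤ p + s.choose 2 ∧
  ∃ x, p + x + d = s * (n - j) + j + j.choose 3 ∧ Good d x

def Top (n p : ℕ) : Prop := ∃ x, p + x = n.choose 3 ∧ Good 0 x

lemma exists_jd {s : ℕ} (hs : 1 ≤ s) : ∃ j d, d + 2 ≤ j ∧ s + d = j.choose 2 := by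
  induction s, hs using Nat.le_induction with
  | base => exact ⟨2, 0, le_rfl, rfl⟩
  | succ s hs ih =>
    obtain ⟨j, d, h1, h2⟩ := ih
    rcases d with _ | d
    · refine ⟨j + 1, j - 1, by omega, ?_⟩
      rw [Nat.choose_succ_succ' j 1, Nat.choose_one_right]
      simp only [Nat.reduceAdd]; omega
    · exact ⟨j, d, by omega, by omega⟩

lemma upper' (hX : IsPts X) (hL : L ∈ lines X) (hp : 3000 * X.card ≤ (planes X).card) :
    ∃ j d, 76 ≤ j ∧ d + 2 ≤ j ∧ (skew (off X L) L).card + d = j.choose 2 ∧ j ≤ (off X L).card ∧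
    ∃ x, (planes X).card + x + d = (skew (off X L) L).card * (X.card - j) + j + j.choose 3 ∧
      Good d x := by
  have h1 := crude hX hL
  have h2 := (two_le_pts hX hL).trans (card_le_card pts_sub)
  have h3 : 3000 ≤ (skew (off X L) L).card + 1 := by
    by_contra h; nlinarith
  obtain ⟨j, d, h4, h5⟩ := exists_jd (s := (skew (off X L) L).card) (by omega)
  have h6 : 76 ≤ j := by
    by_contra h
    have := Nat.choose_le_choose 2 (show j ≤ 76 by omega)
    have : Nat.choose 76 2 = 2850 := by rw [Nat.choose_two_right]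
    omega
  exact ⟨j, d, h6, h4, h5, upper hX hL h6 h4 h5⟩

lemma top_of (hX : IsPts X) (hn : 2 ≤ X.card) (hp : 3000 * X.card ≤ (planes X).card) :
    Top X.card (planes X).card := by
  obtain ⟨u, hu, v, hv, huv⟩ := one_lt_card.1 hn
  have hL := sup_mem_lines hX hu hv huv
  obtain ⟨j, d, h1, h2, h3, h4, x, h5, h6⟩ := upper' hX hL hp
  have h7 := card_pts_off X (u ⊔ v)
  have h8 := two_le_pts hX hL
  obtain ⟨k, hk⟩ := Nat.exists_eq_add_of_le (show j + 2 ≤ X.card by omega)
  rw [hk, show j + 2 + k - j = k + 2 by omega] at h5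
  rw [hk]
  generalize (skew (off X (u ⊔ v)) (u ⊔ v)).card = s at *
  generalize (planes X).card = p at *
  have e1 := c3 (j + 2 + k)
  have e2 := c3 j
  have e3 := c2 j
  have e4 : (s : ℤ) + d = j.choose 2 := by exact_mod_cast h3
  have e5 : (p : ℤ) + x + d = s * (k + 2) + j + j.choose 3 := by exact_mod_cast h5
  rw [← e4] at e3
  push_cast at e1
  rcases k.eq_zero_or_pos with rfl | hk0
  · refine ⟨x + 3 * d, ?_, by unfold Good at *; omega⟩
    zify; simp only [Nat.cast_zero] at e1 e5; linarith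
  · have : p + 38 ≤ (j + 2 + k).choose 3 := by
      have k1 : (1 : ℤ) ≤ k := by exact_mod_cast hk0
      have j1 : (76 : ℤ) ≤ j := by exact_mod_cast h1
      have e6 : 2 * ((s : ℤ) + d) * (k + 2) = j * (j - 1) * (k + 2) := by rw [e3]
      have p1 : (0 : ℤ) ≤ d * (k + 2) := by positivity
      have p2 : (0 : ℤ) ≤ j * ((k - 1) * (k + 4)) :=
        mul_nonneg (by omega) (mul_nonneg (by omega) (by omega))
      have p3 : (0 : ℤ) ≤ k * (k + 1) * (k + 2) := by positivity
      have p4 : (0 : ℤ) ≤ x := by positivity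
      have p5 : (0 : ℤ) ≤ d := by positivity
      zify; linarith
    exact ⟨_, Nat.add_sub_cancel' (by omega), good_big (by omega)⟩

lemma planes_le_one (hp : rk p = 3) (h : ∀ x ∈ X, x ≤ p) : (planes X).card ≤ 1 :=
  card_le_one_iff_subset_singleton.2 ⟨p, fun q hq => mem_singleton.2
    (eq_of_rk (plane_le_of_pts hq fun x hx _ => h x hx) (by rw [hp, rk_plane hq]))⟩

lemma arith_band {n p s : ℕ} (hn : 10 ^ 50 ≤ n) (h1 : p ^ 2 < 4 * n ^ 3) (h2 : n * s ≤ 2400 * p)
    (h3 : s * (n - s - 1) + 2 ≤ p + s.choose 2) : s ^ 2 ≤ 5 * n := by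
  have h4 : s ^ 2 ≤ 4800 ^ 2 * n := by
    have := Nat.pow_le_pow_left h2 2
    refine Nat.le_of_mul_le_mul_left (c := n ^ 2) ?_ (by positivity)
    nlinarith
  have h5 : 100 * s ≤ n := by
    by_contra h
    have := Nat.pow_lt_pow_left (show n < 100 * s by omega) (two_ne_zero)
    nlinarith
  by_contra h
  have h6 := two_choose s
  obtain ⟨m, hm⟩ := Nat.exists_eq_add_of_le (show s + 1 ≤ n by omega)
  rw [show n - s - 1 = m by omega] at h3
  have h7 : 9 * (s * n) ≤ 10 * p := by
    have : 90 * s * s ≤ s * m := by rw [mul_comm s m]; exact Nat.mul_le_mul_right _ (by omega)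
    nlinarith
  have h8 := Nat.pow_le_pow_left h7 2
  have h9 : 5 * n * n ^ 2 ≤ s ^ 2 * n ^ 2 := Nat.mul_le_mul_right _ (by omega)
  nlinarith

theorem necessity (hX : IsPts X) (hn : 10 ^ 50 ≤ X.card) (hp : 3000 * X.card ≤ (planes X).card) :
    Top X.card (planes X).card ∧
      (4 * X.card ^ 3 ≤ (planes X).card ^ 2 ∨ Band X.card (planes X).card) := by
  refine ⟨top_of hX (by omega) hp, or_iff_not_imp_left.2 fun h => ?_⟩
  rw [not_le] at h
  obtain ⟨u, hu, v, hv, huv⟩ := one_lt_card.1 (show 1 < X.card by omega)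
  obtain ⟨L, hL, hmax⟩ := exists_max_image (lines X) (fun l => (pts X l).card)
    ⟨_, sup_mem_lines hX hu hv huv⟩
  have hnc : ∀ p, rk p = 3 → ∃ x ∈ X, ¬ x ≤ p := fun p hp' => by
    by_contra hh; push Not at hh
    have := planes_le_one hp' hh; omega
  have hN : X.card < 1200 * (pts X L).card := by
    by_contra hh
    have h1 := planes_quad hX (by omega) hnc fun l hl => by have := hmax l hl; omega
    have h2 := Nat.pow_le_pow_left h1 2
    have : 10 ^ 50 * X.card ^ 3 ≤ X.card * X.card ^ 3 := Nat.mul_le_mul_right _ hn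
    nlinarith
  have hZ := hX.mono (off_sub (X := X) (L := L))
  have r2 := rk_line hL
  have hoff : ∀ z ∈ off X L, ¬ z ≤ L := fun z hz => (mem_off.1 hz).2
  obtain ⟨j, d, j1, j2, j3, j4, j5⟩ := upper' hX hL hp
  obtain ⟨a, ha⟩ := card_pos.1 (show 0 < (off X L).card by omega)
  obtain ⟨b, hb, hab⟩ := hnc _ (rk_pl (hZ a ha) r2 (hoff a ha))
  have hb' : b ∈ off X L := mem_off.2 ⟨hb, fun e => hab (e.trans le_sup_right)⟩
  have hr : 2 ≤ (cls (off X L) L).card := one_lt_card.2 ⟨_, mem_image_of_mem _ ha, _,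
    mem_image_of_mem _ hb', fun e => hab (e ▸ le_sup_left)⟩
  have hj := skew_card hZ r2 hoff ⟨a, ha, b, hb', hab⟩ fun l hl => by
    by_contra hh; push Not at hh
    have : (skew (off X L) L).card ≤ 1 := card_le_one_iff_subset_singleton.2 ⟨l, fun q hq =>
      mem_singleton.2 (eq_of_rk (line_le_of_pts (mem_skew.1 hq).1 fun x hx _ => hh x hx)
        (by rw [hl, rk_line (mem_skew.1 hq).1]))⟩
    have := crude hX hL
    nlinarith
  have hc := card_pts_off X L
  have hs : (skew (off X L) L).card < (pts X L).card := by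
    by_contra hh
    obtain ⟨S, hS, hc⟩ := exists_subset_card_eq (not_lt.1 hh)
    have h1 := long_lower hX hL S hS
    have h2 := two_choose S.card
    rw [hc] at h1 h2
    have h3 := Nat.pow_le_pow_left hN.le 2
    have h4 : X.card ^ 2 ≤ 2880000 * (planes X).card := by nlinarith
    have h5 := Nat.pow_le_pow_left h4 2
    have : 10 ^ 50 * X.card ^ 3 ≤ X.card * X.card ^ 3 := Nat.mul_le_mul_right _ hn
    nlinarith
  have h1 := long_lower hX hL _ subset_rfl
  have h2 := two_choose (skew (off X L) L).card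
  generalize (skew (off X L) L).card = s at *
  have h3 : s * (X.card - s - 1) ≤ (pts X L).card * s := by
    rw [mul_comm]; exact Nat.mul_le_mul_right _ (by omega)
  have h4 : X.card * s ≤ 1200 * (pts X L).card * s := Nat.mul_le_mul_right _ hN.le
  have h5 : s * s ≤ (pts X L).card * s := Nat.mul_le_mul_right _ hs.le
  exact ⟨j, d, s, j2, j3, arith_band hn h (by nlinarith) (by omega), by omega, j5⟩

end Pool.Agent.P.MP_390d44_co
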