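import Pool.Agent.P.MP_390d44_co.Add

/-! New special points of the long line, generic choices, and filling up the long line. -/

namespace Pool.Agent.P.MP_390d44_co

open Finset

variable {a b c c0 l l' p p' q x y z A B W L : Sub} {X X' Y Z : Finset Sub}

lemma gen (hX : IsPts X) (hc : 2 ≤ rk c) (hl : c ∉ lines X) :
    ∃ x, x ≤ c ∧ Av x X ∧ ∀ p ∈ planes X, x ≤ p → c ≤ p := by
  obtain ⟨x, x1, x2, h⟩ := generic (W := c) (by omega)
    (X ∪ lines X ∪ (planes X).filter fun p => ¬ c ≤ p) fun U hU => by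
      simp only [mem_union, mem_filter] at hU
      rcases hU with (hU | hU) | hU
      · exact not_le_of_rk (by rw [hX U hU]; omega)
      · exact fun e => hl (eq_of_rk e (by rw [rk_line hU]; exact hc) ▸ hU)
      · exact hU.2
  simp only [mem_union, mem_filter] at h
  exact ⟨x, x2, ⟨x1, fun e => h x (Or.inl (Or.inl e)) le_rfl, fun l hl => h l (Or.inl (Or.inr hl))⟩,
    fun p hp e => by_contra fun e' => h p (Or.inr ⟨hp, e'⟩) e⟩

lemma gen3 (hX : IsPts X) (hc : 3 ≤ rk c) :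
    ∃ x, x ≤ c ∧ Av x X ∧ ∀ p ∈ planes X, x ≤ p → c ≤ p :=
  gen hX (by omega) fun e => by have := rk_line e; omega

lemma skew_empty (hL : rk L = 2) (hc : rk c = 3) (hLc : L ≤ c) (h : ∀ z ∈ Z, z ≤ c) :
    skew Z L = ∅ := eq_empty_of_forall_notMem fun l hl => by
  obtain ⟨l1, l2⟩ := mem_skew.1 hl
  exact skew_not_le hL (rk_line l1) l2 hc (line_le_of_pts l1 fun x hx _ => h x hx) hLc

lemma line_ne (hZ : IsPts Z) (hoff : ∀ z ∈ Z, ¬ z ≤ L) (hl : l ∈ lines Z) : l ≠ L := fun e => by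
  obtain ⟨z, hz, z1, -⟩ := exists_ne hZ hl ⊥
  exact hoff z hz (e ▸ z1)

theorem new2 (hX : IsPts X') (hZX : Z ⊆ X') (hL : rk L = 2) (hoff : ∀ z ∈ Z, ¬ z ≤ L)
    (hc : rk c = 3) (hLc : L ≤ c) (hZc : ∀ z ∈ Z, z ≤ c) (h : Av x X') (hxc : x ≤ c) (hx : ¬ x ≤ L)
    (hQ : ∀ l ∈ lines Z, l ⊓ L ∈ X') (hz : z ∈ Z) :
    rk ((x ⊔ z) ⊓ L) = 1 ∧ (x ⊔ z) ⊓ L ∉ X' ∧ vv (insert x Z) ((x ⊔ z) ⊓ L) = {x, z} := by
  have hZ := hX.mono hZX
  have h' := h.mono hZX
  have r := rk_pp h.pt (hZ z hz) (h'.ne hz)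
  have rq := meet_ll hc r hL (fun e => hx (e ▸ le_sup_left)) (sup_le hxc (hZc z hz)) hLc
  generalize hq : (x ⊔ z) ⊓ L = q at *
  have q1 : q ≤ x ⊔ z := hq ▸ inf_le_left
  have q2 : q ≤ L := hq ▸ inf_le_right
  have q3 : q ∉ X' := fun e => hoff z hz (h.eq hX (hZX hz) e q1 ▸ q2)
  have e1 : q ⊔ x = x ⊔ z := line_eq r rq h.pt (fun e => hx (e ▸ q2)) q1 le_sup_left
  have e2 : q ⊔ z = x ⊔ z := line_eq r rq (hZ z hz) (fun e => hoff z hz (e ▸ q2)) q1 le_sup_right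
  refine ⟨rq, q3, ?_⟩
  have hl := sup_mem_lines (hZ.ins h.pt) (mem_insert_self _ _) (mem_insert_of_mem hz) (h'.ne hz)
  ext u
  simp only [vv, mem_filter, mem_insert, mem_singleton]
  constructor
  · rintro ⟨rfl | hu, e⟩
    · exact Or.inl rfl
    right
    rw [lines_ins hZ h', mem_union, mem_image] at e
    rcases e with e | ⟨a, ha, e⟩
    · refine absurd ?_ q3
      rw [eq_of_rk (le_inf le_sup_left q2 : q ≤ (q ⊔ u) ⊓ L) (by
        rw [rq, meet_ll hc (rk_line e) hL (line_ne hZ hoff e)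
          (line_le_of_pts e fun x hx _ => hZc x hx) hLc])]
      exact hQ _ e
    · have r' := rk_pp h.pt (hZ a ha) (h'.ne ha)
      have e3 := line_eq r' rq h.pt (fun e => hx (e ▸ q2)) (e ▸ le_sup_left) le_sup_left
      exact (h'.eq hZ hz hu (by rw [← e1, e3, e]; exact le_sup_right)).symm
  · rintro (rfl | rfl)
    · exact ⟨Or.inl rfl, e1 ▸ hl⟩
    · exact ⟨Or.inr hz, e2 ▸ hl⟩

/-- `l` is a skew line meeting the plane `c` in a point on no other line. -/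
structure Hc (Z : Finset Sub) (L c l : Sub) : Prop where
  sk : l ∈ skew Z L
  no : ∀ z ∈ Z, z ≤ l → ¬ z ≤ c
  un : ∀ l' ∈ lines Z, ¬ l' ≤ c → l ⊓ c ≤ l' → l' = l

lemma gen_class (hZ : IsPts Z) (hL : rk L = 2) (hoff : ∀ z ∈ Z, ¬ z ≤ L) (hc : rk c0 = 3)
    (hLc : L ≤ c0) : ∃ c, rk c = 3 ∧ L ≤ c ∧ c ≠ c0 ∧ (∀ z ∈ Z, ¬ z ≤ c) ∧
      ∀ l ∈ skew Z L, Hc Z L c l := by
  obtain ⟨x, x1, -, h⟩ := generic (W := ⊤) (by rw [rk_top]; omega) (insert c0 (cls Z L ∪
    (lines Z).offDiag.image fun u => u.1 ⊓ u.2 ⊔ L)) fun U hU => not_le_of_rk (by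
      rw [rk_top]
      simp only [mem_insert, mem_union, mem_image, mem_offDiag] at hU
      rcases hU with rfl | hU | ⟨u, ⟨u1, u2, u3⟩, rfl⟩
      · omega
      · have := (rk_cls hZ hL hoff hU).1; omega
      · have := rk_sup_le (u.1 ⊓ u.2) L
        have := rk_lt (inf_le_left : u.1 ⊓ u.2 ≤ u.1) fun e =>
          u3 (eq_of_rk (e.trans inf_le_right) (by rw [rk_line u1, rk_line u2]))
        have := rk_line u1
        omega)
  have x2 := h c0 (mem_insert_self _ _)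
  have r := rk_pl x1 hL fun e => x2 (e.trans hLc)
  have no : ∀ z ∈ Z, ¬ z ≤ x ⊔ L := fun z hz e => h _ (mem_insert_of_mem (mem_union_left _
    (mem_image_of_mem _ hz))) (cls_eq hZ hL hoff r le_sup_right hz e ▸ le_sup_left)
  refine ⟨_, r, le_sup_right, fun e => x2 (e ▸ le_sup_left), no, fun l hl =>
    ⟨hl, fun z hz _ => no z hz, fun l' hl' _ e => by_contra fun hne => ?_⟩⟩
  obtain ⟨l1, l2⟩ := mem_skew.1 hl
  have re := meet_lp (rk_line l1) r fun e => skew_not_le hL (rk_line l1) l2 r e le_sup_right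
  have := plane_eq r re hL (fun e => not_le_skew re e l2 inf_le_left) inf_le_right le_sup_right
  refine h _ (mem_insert_of_mem (mem_union_right _ (mem_image_of_mem _
    (mem_offDiag.2 ⟨l1, hl', Ne.symm hne⟩ : (l, l') ∈ _)))) ?_
  exact le_sup_left.trans (this.ge.trans (sup_le_sup_right (le_inf inf_le_left e) L))

lemma Hc.ins (hZ : IsPts Z) (hL : rk L = 2) (hc : rk c = 3) (hLc : L ≤ c) (h : Av x Z) (hx : x ≤ c)
    (H : Hc Z L c l) : Hc (insert x Z) L c l := by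
  obtain ⟨l1, l2⟩ := mem_skew.1 H.sk
  refine ⟨mem_skew.2 ⟨lines_mono (subset_insert _ _) l1, l2⟩,
    fun z hz e => H.no z (ins_of_not_le (h.nl l l1) z hz e) e, fun l' hl' e1 e2 => ?_⟩
  rw [lines_ins hZ h, mem_union, mem_image] at hl'
  rcases hl' with hl' | ⟨a, ha, rfl⟩
  · exact H.un l' hl' e1 e2
  · have re := meet_lp (rk_line l1) hc fun e => skew_not_le hL (rk_line l1) l2 hc e hLc
    exact absurd (pt_unique (rk_pp h.pt (hZ a ha) (h.ne ha)) e1 h.pt re le_sup_left e2 hx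
      inf_le_right ▸ inf_le_left) (h.nl l l1)

lemma le_of_planes {g : Sub} (hp : rk p = 3) (hc : rk c = 3) (hne : p ≠ c) (hg : rk g = 2)
    (h1 : g ≤ p) (h2 : g ≤ c) : p ⊓ c ≤ g := (eq_of_rk (le_inf h1 h2) (by
  have := rk_lt (inf_le_left : p ⊓ c ≤ p) fun e => hne (eq_of_rk (e.trans inf_le_right) (by omega))
  omega)).ge

theorem new3 (hX : IsPts X') (hZX : Z ⊆ X') (hL : rk L = 2) (hoff : ∀ z ∈ Z, ¬ z ≤ L)
    (hc : rk c = 3) (hLc : L ≤ c) (h : Av x X') (hxc : x ≤ c) (hx : ¬ x ≤ L)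
    (hp : ∀ p ∈ planes X', x ≤ p → c ≤ p) (hQ : ∀ p ∈ pz Z L, L ⊓ p ∈ X')
    (hE : ∀ l ∈ lines Z, ¬ l ≤ c → l ⊓ c ∈ X') (H : Hc Z L c l) (h2 : (pts Z l).card = 2) :
    rk (L ⊓ (x ⊔ l)) = 1 ∧ L ⊓ (x ⊔ l) ∉ X' ∧ vv (insert x Z) (L ⊓ (x ⊔ l)) = ∅ ∧
      wt (insert x Z) L (L ⊓ (x ⊔ l)) = 3 ∧
      ∀ l' ∈ skew Z L, L ⊓ (x ⊔ l) = L ⊓ (x ⊔ l') → l' = l := by
  have hZ := hX.mono hZX
  have h' := h.mono hZX
  have hZx := hZ.ins h.pt
  obtain ⟨l1, l2⟩ := mem_skew.1 H.sk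
  have hπ := ins_plane hZ h' l1
  have rπ := rk_plane hπ
  have nL := skew_not_le hL (rk_line l1) l2 rπ le_sup_right
  have rq := meet_lp hL rπ nL
  generalize hq : L ⊓ (x ⊔ l) = q at *
  have q1 : q ≤ x ⊔ l := hq ▸ inf_le_right
  have q2 : q ≤ L := hq ▸ inf_le_left
  have f0 : x ⊔ l ∉ planes X' := fun e => nL (hLc.trans (hp _ e le_sup_left))
  have f1 : q ∉ X' := fun e => f0 (plane_eq rπ rq (rk_line l1) (not_le_skew rq q2 l2) q1
    le_sup_right ▸ sup_mem_planes hX e (lines_mono hZX l1) (not_le_skew rq q2 l2))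
  have f2 : x ⊔ l ∉ planes Z := fun e => f0 (planes_mono hZX e)
  have ec : x ⊔ L = c := plane_eq hc h.pt hL hx hxc hLc
  have cA : ∀ p ∈ planes (insert x Z), q ≤ p → ¬ L ≤ p → p = x ⊔ l := by
    intro p p1 p2 p3
    by_cases e : x ≤ p
    swap
    · have p4 := plane_restrict hZ hZx p1 (ins_of_not_le e)
      refine absurd ?_ f1
      rw [eq_of_rk (le_inf q2 p2) (by rw [rq, meet_lp hL (rk_plane p4) p3])]
      exact hQ p (mem_pz.2 ⟨p4, p3⟩)
    obtain ⟨l', l3, rfl⟩ := exists_ins_line hZ h' p1 e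
    have n1 : ¬ l ≤ c := fun e => skew_not_le hL (rk_line l1) l2 hc e hLc
    have n2 : ¬ l' ≤ c := fun e => p3 (eq_of_rk (sup_le hxc e) (by rw [hc, rk_plane p1]) ▸ hLc)
    have rg := rk_pp h.pt rq fun e => hx (e ▸ q2)
    have g1 := (inf_le_inf_right c (le_sup_right : l ≤ x ⊔ l)).trans (le_of_planes rπ hc
      (fun e => nL (e ▸ hLc)) rg (sup_le le_sup_left q1) (sup_le hxc (q2.trans hLc)))
    have g2 := (inf_le_inf_right c (le_sup_right : l' ≤ x ⊔ l')).trans (le_of_planes (rk_plane p1)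
      hc (fun e => p3 (e ▸ hLc)) rg (sup_le le_sup_left p2) (sup_le hxc (q2.trans hLc)))
    have : l ⊓ c = l' ⊓ c := by_contra fun hne => h.nl _ (sup_mem_lines hX (hE l l1 n1)
      (hE l' l3 n2) hne) (by
        rw [line_eq rg (meet_lp (rk_line l1) hc n1) (meet_lp (rk_line l3) hc n2) hne g1 g2]
        exact le_sup_left)
    rw [H.un l' l3 n2 (this ▸ inf_le_left)]
  have cB : ∀ g ∈ lines (insert x Z), g ≤ x ⊔ l → g ⊓ L = ⊥ := by
    intro g g1 g2
    rw [lines_ins hZ h', mem_union, mem_image] at g1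
    rcases g1 with g1 | ⟨a, ha, rfl⟩
    · rw [new_plane' hZ h' l1 f2 g1 g2, l2]
    · exact (skew_iff hL h.pt (hZ a ha) (h'.ne ha) hx).2 (ec ▸ H.no a ha
        (new_plane hZ h' l1 f2 ha (le_sup_right.trans g2)))
  refine ⟨rq, f1, filter_eq_empty_iff.2 fun z hz e => ?_, ?_, fun l' hl' e => ?_⟩
  · have zL : ¬ z ≤ L := by
      rcases mem_insert.1 hz with rfl | hz
      exacts [hx, hoff z hz]
    have rz := rk_pl (hZx z hz) hL zL
    obtain ⟨u, hu, u1, u2⟩ : ∃ u ∈ insert x Z, u ≤ x ⊔ l ∧ ¬ u ≤ z ⊔ L := by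
      by_contra hh; push Not at hh
      exact nL (eq_of_rk (plane_le_of_pts hπ hh) (by omega) ▸ le_sup_right)
    have gle : q ⊔ z ≤ z ⊔ L := sup_le (q2.trans le_sup_right) le_sup_left
    have p1 := sup_mem_planes hZx hu e fun e => u2 (e.trans gle)
    have := cA _ p1 (le_sup_left.trans le_sup_right) fun e' => u2 (plane_eq (rk_plane p1) (hZx z hz)
      hL zL (le_sup_right.trans le_sup_right) e' ▸ le_sup_left)
    exact not_le_skew rq q2 (cB _ e (this ▸ le_sup_right)) le_sup_left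
  · have e1 : ((skew (insert x Z) L).filter fun g => q ⊔ g ∈ planes (insert x Z))
        = lns (insert x Z) (x ⊔ l) := by
      ext g; simp only [mem_filter, mem_skew, mem_lns]
      constructor
      · rintro ⟨⟨g1, g2⟩, g3⟩
        exact ⟨g1, cA _ g3 le_sup_left (skew_not_le hL (rk_line g1) g2 (rk_plane g3) le_sup_right)
          ▸ le_sup_right⟩
      · rintro ⟨g1, g2⟩
        have g3 := cB g g1 g2
        exact ⟨⟨g1, g3⟩, by rwa [plane_eq rπ rq (rk_line g1) (not_le_skew rq q2 g3) q1 g2]⟩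
    have e2 : lns Z (x ⊔ l) = {l} := by
      ext g; simp only [mem_lns, mem_singleton]
      exact ⟨fun g1 => new_plane' hZ h' l1 f2 g1.1 g1.2, fun e => by rw [e]; exact ⟨l1, le_sup_right⟩⟩
    have e3 : pts Z (x ⊔ l) = pts Z l := filter_congr fun a ha =>
      ⟨new_plane hZ h' l1 f2 ha, fun e => e.trans le_sup_right⟩
    rw [wt, e1, card_lns_ins hZ h' le_sup_left, e2, e3, h2, card_singleton]
  · obtain ⟨l3, l4⟩ := mem_skew.1 hl'
    have p1 := ins_plane hZ h' l3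
    exact new_plane' hZ h' l1 f2 l3 (cA _ p1 (e ▸ inf_le_right)
      (skew_not_le hL (rk_line l3) l4 (rk_plane p1) le_sup_right) ▸ le_sup_right)

lemma extend (hX : IsPts X) (hL : rk L = 2) (Z Q : Finset Sub)
    (hQ : ∀ q ∈ Q, rk q = 1 ∧ q ≤ L ∧ q ∉ X) (m : ℕ) : ∃ Q' : Finset Sub, Q'.card = Q.card + m ∧
      (∀ q ∈ Q', rk q = 1 ∧ q ≤ L ∧ q ∉ X) ∧ ∑ q ∈ Q', wt Z L q = ∑ q ∈ Q, wt Z L q := by
  induction m with
  | zero => exact ⟨Q, rfl, hQ, rfl⟩
  | succ m ih =>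
    obtain ⟨Q', h1, h2, h3⟩ := ih
    obtain ⟨x, x1, x2, h⟩ := generic (W := L) (by omega) (X ∪ Q' ∪ pz Z L) fun U hU => by
      simp only [mem_union] at hU
      rcases hU with (hU | hU) | hU
      · exact not_le_of_rk (by rw [hX U hU]; omega)
      · exact not_le_of_rk (by rw [(h2 U hU).1]; omega)
      · exact (mem_pz.1 hU).2
    simp only [mem_union] at h
    have nq : x ∉ Q' := fun e => h x (Or.inl (Or.inr e)) le_rfl
    refine ⟨insert x Q', by rw [card_insert_of_notMem nq, h1, add_assoc], fun q hq => ?_, ?_⟩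
    · rcases mem_insert.1 hq with rfl | hq
      · exact ⟨x1, x2, fun e => h q (Or.inl (Or.inl e)) le_rfl⟩
      · exact h2 q hq
    · rw [sum_insert nq, h3, wt, filter_eq_empty_iff.2 fun l hl e => h _ (Or.inr (mem_pz.2
        ⟨e, skew_not_le hL (rk_line (mem_skew.1 hl).1) (mem_skew.1 hl).2 (rk_plane e)
          le_sup_right⟩)) le_sup_left, card_empty, zero_add]

def Real (n p : ℕ) : Prop := ∃ X : Finset Sub, IsPts X ∧ X.card = n ∧ (planes X).card = p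

theorem finish (hX : IsPts X) (hL : L ∈ lines X) (Q : Finset Sub)
    (hQ : ∀ q ∈ Q, rk q = 1 ∧ q ≤ L ∧ q ∉ X) {M p : ℕ} (hM : Q.card ≤ M)
    (hp : p + ∑ q ∈ Q, wt (off X L) L q = (planes X).card + M * (skew (off X L) L).card) :
    Real (X.card + M) p := by
  obtain ⟨m, rfl⟩ := Nat.exists_eq_add_of_le hM
  obtain ⟨Q', h1, h2, h3⟩ := extend hX (rk_line hL) (off X L) Q hQ m
  have hd : Disjoint X Q' := disjoint_right.2 fun q hq => (h2 q hq).2.2
  have hX' : IsPts (X ∪ Q') := fun u hu => by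
    rcases mem_union.1 hu with hu | hu
    exacts [hX u hu, (h2 u hu).1]
  have e1 : off (X ∪ Q') L = off X L := by
    rw [off, filter_union, filter_false_of_mem (s := Q') fun q hq => not_not.2 (h2 q hq).2.1,
      union_empty]; rfl
  have e2 : pts (X ∪ Q') L = pts X L ∪ Q' := by
    rw [pts, filter_union, filter_true_of_mem (s := Q') fun q hq => (h2 q hq).2.1]; rfl
  have hd' : Disjoint (pts X L) Q' := hd.mono_left pts_sub
  have f1 := long_formula hX hL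
  have f2 := long_formula hX' (lines_mono subset_union_left hL)
  rw [e1, e2, card_union_of_disjoint hd', ww_sum, sum_union hd', ← ww_sum, h3, h1, add_mul] at f2
  exact ⟨_, hX', by rw [card_union_of_disjoint hd, h1], by omega⟩

end Pool.Agent.P.MP_390d44_co
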