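import Mathlib

/-! Straight-line plane graphs have at most `3 n` edges; Szemeredi-Trotter type inequality. -/

namespace Pool.Agent.P.MP_390d44_co

open Finset

abbrev Pt := ℝ × ℝ
abbrev Eg := Pt × Pt

noncomputable def sl (e : Eg) : ℝ := (e.2.2 - e.1.2) / (e.2.1 - e.1.1)
noncomputable def ht (e : Eg) (x : ℝ) : ℝ := e.1.2 + sl e * (x - e.1.1)

lemma ht_left (e : Eg) : ht e e.1.1 = e.1.2 := by simp [ht]

lemma ht_right (e : Eg) (h : e.1.1 < e.2.1) : ht e e.2.1 = e.2.2 := by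
  have : e.2.1 - e.1.1 ≠ 0 := by linarith
  simp only [ht, sl]; field_simp; ring

def Cross (e f : Eg) : Prop :=
  ∃ x, e.1.1 < x ∧ x < e.2.1 ∧ f.1.1 < x ∧ x < f.2.1 ∧ ht e x = ht f x

lemma Cross.symm {e f : Eg} (h : Cross e f) : Cross f e := by
  obtain ⟨x, h1, h2, h3, h4, h5⟩ := h
  exact ⟨x, h3, h4, h1, h2, h5.symm⟩

lemma cross_of_sign {e f : Eg} {a b : ℝ} (hab : a < b) (h1 : e.1.1 ≤ a) (h2 : b ≤ e.2.1)
    (h3 : f.1.1 ≤ a) (h4 : b ≤ f.2.1) (ha : ht e a < ht f a) (hb : ht f b < ht e b) :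
    Cross e f := by
  set p := ht f a - ht e a with hp
  set q := ht e b - ht f b with hq
  have hp0 : 0 < p := by linarith
  have hq0 : 0 < q := by linarith
  have hpq : 0 < p + q := by linarith
  have key : (sl e - sl f) * (b - a) = p + q := by simp only [hp, hq, ht]; ring
  have t0 : 0 < p / (p + q) := div_pos hp0 hpq
  have t1 : p / (p + q) < 1 := by rw [div_lt_one hpq]; linarith
  refine ⟨a + (b - a) * (p / (p + q)), ?_, ?_, ?_, ?_, ?_⟩
  · nlinarith
  · nlinarith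
  · nlinarith
  · nlinarith
  · have e1 : ht e (a + (b - a) * (p / (p + q))) - ht f (a + (b - a) * (p / (p + q)))
        = -p + (sl e - sl f) * (b - a) * (p / (p + q)) := by
      simp only [hp, ht]; ring
    rw [key] at e1
    have : (p + q) * (p / (p + q)) = p := by field_simp
    linarith

structure Drawing (P : Finset Pt) (E : Finset Eg) : Prop where
  inj : ∀ u ∈ P, ∀ v ∈ P, u.1 = v.1 → u = v
  l : ∀ e ∈ E, e.1 ∈ P
  r : ∀ e ∈ E, e.2 ∈ P
  lt : ∀ e ∈ E, e.1.1 < e.2.1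
  emp : ∀ e ∈ E, ∀ w ∈ P, e.1.1 < w.1 → w.1 < e.2.1 → w.2 ≠ ht e w.1

lemma Drawing.eq_of_sl {P E} (D : Drawing P E) {e f : Eg} (he : e ∈ E) (hf : f ∈ E)
    (h1 : e.1 = f.1) (h2 : sl e = sl f) : e = f := by
  have hh : ∀ x, ht e x = ht f x := fun x => by simp only [ht, h1, h2]
  rcases lt_trichotomy e.2.1 f.2.1 with h | h | h
  · exact absurd (by rw [← hh, ht_right e (D.lt e he)])
      (D.emp f hf e.2 (D.r e he) (h1 ▸ D.lt e he) h)
  · exact Prod.ext h1 (D.inj _ (D.r e he) _ (D.r f hf) h)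
  · exact absurd (by rw [hh, ht_right f (D.lt f hf)])
      (D.emp e he f.2 (D.r f hf) (h1 ▸ D.lt f hf) h)

/-- a wedge: consecutive edges `f, g` at a vertex, and the leftmost point `w` inside. -/
structure Wedge (P : Finset Pt) (E : Finset Eg) (f g : Eg) (w : Pt) : Prop where
  gE : g ∈ E
  same : g.1 = f.1
  slt : sl f < sl g
  cons : ∀ e ∈ E, e.1 = f.1 → sl f < sl e → sl g ≤ sl e
  wP : w ∈ P
  w1 : f.1.1 < w.1
  w2 : w.1 ≤ f.2.1
  w3 : w.1 ≤ g.2.1
  w4 : ht f w.1 ≤ w.2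
  w5 : w.2 ≤ ht g w.1
  left : ∀ u ∈ P, f.1.1 < u.1 → ht f u.1 ≤ u.2 → u.2 ≤ ht g u.1 → w.1 ≤ u.1

lemma exists_wedge {P E} (D : Drawing P E) {f : Eg} (hf : f ∈ E)
    (h : ∃ e ∈ E, e.1 = f.1 ∧ sl f < sl e) : ∃ g w, Wedge P E f g w := by
  classical
  obtain ⟨g, hg, hmin⟩ := exists_min_image (E.filter fun e => e.1 = f.1 ∧ sl f < sl e) sl
    (by obtain ⟨e, he, h⟩ := h; exact ⟨e, mem_filter.2 ⟨he, h⟩⟩)
  rw [mem_filter] at hg
  obtain ⟨hgE, hg1, hg2⟩ := hg
  have hle : ∀ x, f.1.1 < x → ht f x < ht g x := fun x hx => by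
    simp only [ht, hg1]; nlinarith
  set R := P.filter fun u => f.1.1 < u.1 ∧ ht f u.1 ≤ u.2 ∧ u.2 ≤ ht g u.1 with hR
  have hf2 : f.2 ∈ R := mem_filter.2 ⟨D.r f hf, D.lt f hf, (ht_right f (D.lt f hf)).le,
    by rw [← ht_right f (D.lt f hf)]; exact (hle _ (D.lt f hf)).le⟩
  have hgl : f.1.1 < g.2.1 := hg1 ▸ D.lt g hgE
  have hg3 : g.2 ∈ R := mem_filter.2 ⟨D.r g hgE, hgl,
    by rw [← ht_right g (D.lt g hgE)]; exact (hle _ hgl).le, (ht_right g (D.lt g hgE)).ge⟩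
  obtain ⟨w, hw, hwm⟩ := exists_min_image R (fun u => u.1) ⟨_, hf2⟩
  rw [mem_filter] at hw
  exact ⟨g, w, hgE, hg1, hg2, fun e he h1 h2 => hmin e (mem_filter.2 ⟨he, h1, h2⟩), hw.1,
    hw.2.1, hwm _ hf2, hwm _ hg3, hw.2.2.1, hw.2.2.2,
    fun u hu h1 h2 h3 => hwm u (mem_filter.2 ⟨hu, h1, h2, h3⟩)⟩

lemma wedge_empty {P E} (D : Drawing P E) (nc : ∀ e ∈ E, ∀ f ∈ E, e ≠ f → ¬ Cross e f)
    {f g e : Eg} {w : Pt} (hf : f ∈ E) (W : Wedge P E f g w) (he : e ∈ E)
    (h1 : e.1.1 < w.1) (h2 : w.1 ≤ e.2.1) (h3 : ht f w.1 < ht e w.1) (h4 : ht e w.1 < ht g w.1) :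
    False := by
  have hef : e ≠ f := by rintro rfl; exact lt_irrefl _ h3
  have heg : e ≠ g := by rintro rfl; exact lt_irrefl _ h4
  have hgl : g.1.1 = f.1.1 := by rw [W.same]
  rcases lt_trichotomy e.1.1 f.1.1 with h | h | h
  · have hne := D.emp e he f.1 (D.l f hf) h (by linarith [W.w1])
    rcases lt_or_gt_of_ne hne with h5 | h5
    · refine nc g W.gE e he heg.symm (cross_of_sign W.w1 hgl.le W.w3 h.le h2 ?_ h4)
      rw [← hgl, ht_left, W.same]; exact h5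
    · refine nc e he f hf hef (cross_of_sign W.w1 h.le h2 le_rfl W.w2 ?_ h3)
      rw [ht_left]; exact h5
  · have hl : e.1 = f.1 := D.inj _ (D.l e he) _ (D.l f hf) h
    have hx : 0 < w.1 - f.1.1 := by linarith [W.w1]
    simp only [ht, hl, W.same] at h3 h4
    have a1 : sl f < sl e := by nlinarith
    have a2 : sl e < sl g := by nlinarith
    exact absurd (W.cons e he hl a1) (not_le.2 a2)
  · by_cases c1 : ht f e.1.1 ≤ e.1.2
    · by_cases c2 : e.1.2 ≤ ht g e.1.1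
      · exact absurd (W.left e.1 (D.l e he) h c1 c2) (not_le.2 h1)
      · refine nc g W.gE e he heg.symm (cross_of_sign h1 (by linarith) W.w3 le_rfl h2 ?_ h4)
        rw [ht_left]; exact not_le.1 c2
    · refine nc e he f hf hef (cross_of_sign h1 le_rfl h2 h.le W.w2 ?_ h3)
      rw [ht_left]; exact not_le.1 c1

theorem planar_bound {P E} (D : Drawing P E) (nc : ∀ e ∈ E, ∀ f ∈ E, e ≠ f → ¬ Cross e f) :
    E.card ≤ 3 * P.card := by
  classical
  set T : Eg → Prop := fun f => ∃ e ∈ E, e.1 = f.1 ∧ sl f < sl e with hT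
  have hW : ∀ f, ∃ g w, f ∈ E → T f → Wedge P E f g w := fun f => by
    by_cases h : f ∈ E ∧ T f
    · obtain ⟨g, w, hw⟩ := exists_wedge D h.1 h.2
      exact ⟨g, w, fun _ _ => hw⟩
    · exact ⟨f, f.1, fun h1 h2 => absurd ⟨h1, h2⟩ h⟩
  choose g w hW using hW
  have c1 : (E.filter fun f => ¬ T f).card ≤ P.card := by
    refine card_le_card_of_injOn (fun f => f.1) (fun f hf => D.l f (mem_filter.1 hf).1) ?_
    intro e he f hf h
    have he := mem_filter.1 (mem_coe.1 he)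
    have hf := mem_filter.1 (mem_coe.1 hf)
    refine D.eq_of_sl he.1 hf.1 h ?_
    rcases lt_trichotomy (sl e) (sl f) with h' | h' | h'
    · exact absurd ⟨f, hf.1, h.symm, h'⟩ he.2
    · exact h'
    · exact absurd ⟨e, he.1, h, h'⟩ hf.2
  have below : ∀ f ∈ E, T f → w f ≠ f.2 → (w f).1 < f.2.1 ∧ ht f (w f).1 < (w f).2 := by
    intro f hf hTf hne
    have W := hW f hf hTf
    have a : (w f).1 < f.2.1 := lt_of_le_of_ne W.w2 fun h => hne (D.inj _ W.wP _ (D.r f hf) h)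
    exact ⟨a, lt_of_le_of_ne W.w4 (D.emp f hf _ W.wP W.w1 a).symm⟩
  have c2 : ((E.filter T).filter fun f => w f ≠ f.2).card ≤ P.card := by
    refine card_le_card_of_injOn w (fun f hf => ?_) ?_
    · have hf := mem_filter.1 (mem_filter.1 (mem_coe.1 hf)).1
      exact (hW f hf.1 hf.2).wP
    intro e he f hf h
    have he := mem_filter.1 (mem_coe.1 he)
    have hf := mem_filter.1 (mem_coe.1 hf)
    have he1 := mem_filter.1 he.1
    have hf1 := mem_filter.1 hf.1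
    have We := hW e he1.1 he1.2
    have Wf := hW f hf1.1 hf1.2
    have be := below e he1.1 he1.2 he.2
    have bf := below f hf1.1 hf1.2 hf.2
    by_contra hne
    rcases lt_trichotomy (ht e (w e).1) (ht f (w e).1) with h' | h' | h'
    · exact wedge_empty D nc he1.1 We hf1.1 (h ▸ Wf.w1) (h ▸ Wf.w2) h'
        (lt_of_lt_of_le (h ▸ bf.2) We.w5)
    · exact nc e he1.1 f hf1.1 hne ⟨(w e).1, We.w1, be.1, h ▸ Wf.w1, h ▸ bf.1, h'⟩
    · exact wedge_empty D nc hf1.1 Wf he1.1 (h ▸ We.w1) (h ▸ We.w2) (h ▸ h')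
        (lt_of_lt_of_le (h ▸ be.2) Wf.w5)
  have above : ∀ f ∈ E, T f → w f = f.2 →
      (w f).1 < (g f).2.1 ∧ (w f).2 < ht (g f) (w f).1 ∧ ht f (w f).1 = (w f).2 := by
    intro f hf hTf heq
    have W := hW f hf hTf
    have a : (w f).1 < (g f).2.1 := lt_of_le_of_ne W.w3 fun h => by
      have : g f = f := Prod.ext W.same (by rw [← heq]; exact (D.inj _ W.wP _ (D.r _ W.gE) h).symm)
      have := W.slt
      simp_all
    refine ⟨a, lt_of_le_of_ne W.w5 (D.emp _ W.gE _ W.wP (by rw [W.same]; exact W.w1) a), ?_⟩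
    rw [heq, ht_right f (D.lt f hf)]
  have c3 : ((E.filter T).filter fun f => ¬ w f ≠ f.2).card ≤ P.card := by
    refine card_le_card_of_injOn w (fun f hf => ?_) ?_
    · have hf := mem_filter.1 (mem_filter.1 (mem_coe.1 hf)).1
      exact (hW f hf.1 hf.2).wP
    intro e he f hf h
    have he := mem_filter.1 (mem_coe.1 he)
    have hf := mem_filter.1 (mem_coe.1 hf)
    have he1 := mem_filter.1 he.1
    have hf1 := mem_filter.1 hf.1
    have We := hW e he1.1 he1.2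
    have Wf := hW f hf1.1 hf1.2
    have e2 := not_not.1 he.2
    have f2 := not_not.1 hf.2
    have be := above e he1.1 he1.2 e2
    have bf := above f hf1.1 hf1.2 f2
    by_contra hne
    have hg : g e ≠ g f := fun hg =>
      hne (Prod.ext (by rw [← We.same, ← Wf.same, hg]) (by rw [← e2, ← f2, h]))
    have l1 : (g e).1.1 < (w e).1 := by rw [We.same]; exact We.w1
    have l2 : (g f).1.1 < (w e).1 := by rw [Wf.same, h]; exact Wf.w1
    rcases lt_trichotomy (ht (g e) (w e).1) (ht (g f) (w e).1) with h' | h' | h'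
    · exact wedge_empty D nc hf1.1 Wf We.gE (h ▸ l1) (h ▸ We.w3)
        (by rw [bf.2.2, ← h]; exact be.2.1) (h ▸ h')
    · exact nc _ We.gE _ Wf.gE hg ⟨(w e).1, l1, be.1, l2, h ▸ bf.1, h'⟩
    · exact wedge_empty D nc he1.1 We Wf.gE l2 (h ▸ Wf.w3)
        (by rw [be.2.2, h]; exact bf.2.1) h'
  have s1 := card_filter_add_card_filter_not (s := E) T
  have s2 := card_filter_add_card_filter_not (s := E.filter T) fun f => w f ≠ f.2
  omega

end Pool.Agent.P.MP_390d44_co
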