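import Mathlib

/-! Points, lines and planes of real projective 3-space as subspaces of `ℝ^4`. -/

namespace Pool.Agent.P.MP_390d44_co

open Finset

abbrev V := Fin 4 → ℝ
abbrev Sub := Submodule ℝ V

noncomputable instance : DecidableEq Sub := Classical.decEq _
noncomputable instance : DecidableLE Sub := Classical.decRel _

noncomputable def rk (W : Sub) : ℕ := Module.finrank ℝ W

variable {a b c l l' p p' A B W : Sub} {X Y Z : Finset Sub}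

lemma rk_sup_inf (A B : Sub) : rk (A ⊔ B) + rk (A ⊓ B) = rk A + rk B :=
  Submodule.finrank_sup_add_finrank_inf_eq A B

lemma rk_mono (h : A ≤ B) : rk A ≤ rk B := Submodule.finrank_mono h

lemma eq_of_rk (h : A ≤ B) (h' : rk B ≤ rk A) : A = B := Submodule.eq_of_le_of_finrank_le h h'

lemma rk_lt (h : A ≤ B) (h' : ¬ B ≤ A) : rk A < rk B :=
  Submodule.finrank_lt_finrank_of_lt (lt_of_le_not_ge h h')

lemma rk_top : rk ⊤ = 4 := by simp [rk]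

lemma rk_le_four (A : Sub) : rk A ≤ 4 := rk_top ▸ rk_mono le_top

lemma rk_zero : rk A = 0 ↔ A = ⊥ := Submodule.finrank_eq_zero

lemma rk_bot : rk ⊥ = 0 := rk_zero.2 rfl

lemma ne_bot_of_rk (h : 0 < rk A) : A ≠ ⊥ := fun e => by rw [e, rk_bot] at h; omega

lemma not_le_of_rk (h : rk B < rk A) : ¬ A ≤ B := fun e => by have := rk_mono e; omega

lemma pt_inf (ha : rk a = 1) (h : ¬ a ≤ W) : rk (a ⊓ W) = 0 := by
  have := rk_lt (inf_le_left : a ⊓ W ≤ a) fun e => h (e.trans inf_le_right)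
  omega

lemma pt_sup (ha : rk a = 1) (h : ¬ a ≤ W) : rk (a ⊔ W) = rk W + 1 := by
  have := rk_sup_inf a W
  have := pt_inf ha h
  omega

lemma rk_sup_le (A B : Sub) : rk (A ⊔ B) ≤ rk A + rk B := by have := rk_sup_inf A B; omega

lemma pt_eq (ha : rk a = 1) (hb : rk b = 1) (h : a ≤ b) : a = b := eq_of_rk h (by omega)

lemma rk_pp (ha : rk a = 1) (hb : rk b = 1) (h : a ≠ b) : rk (a ⊔ b) = 2 := by
  rw [pt_sup ha fun e => h (pt_eq ha hb e), hb]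

lemma line_eq (hl : rk l = 2) (ha : rk a = 1) (hb : rk b = 1) (h : a ≠ b) (h1 : a ≤ l)
    (h2 : b ≤ l) : a ⊔ b = l := eq_of_rk (sup_le h1 h2) (by rw [rk_pp ha hb h, hl])

lemma lines_eq (hl : rk l = 2) (hl' : rk l' = 2) (ha : rk a = 1) (hb : rk b = 1) (h : a ≠ b)
    (h1 : a ≤ l) (h2 : b ≤ l) (h3 : a ≤ l') (h4 : b ≤ l') : l = l' :=
  (line_eq hl ha hb h h1 h2).symm.trans (line_eq hl' ha hb h h3 h4)

lemma rk_pl (ha : rk a = 1) (hl : rk l = 2) (h : ¬ a ≤ l) : rk (a ⊔ l) = 3 := by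
  rw [pt_sup ha h, hl]

lemma plane_eq (hp : rk p = 3) (ha : rk a = 1) (hl : rk l = 2) (h : ¬ a ≤ l) (h1 : a ≤ p)
    (h2 : l ≤ p) : a ⊔ l = p := eq_of_rk (sup_le h1 h2) (by rw [rk_pl ha hl h, hp])

lemma planes_eq (hp : rk p = 3) (hp' : rk p' = 3) (ha : rk a = 1) (hl : rk l = 2) (h : ¬ a ≤ l)
    (h1 : a ≤ p) (h2 : l ≤ p) (h3 : a ≤ p') (h4 : l ≤ p') : p = p' :=
  (plane_eq hp ha hl h h1 h2).symm.trans (plane_eq hp' ha hl h h3 h4)

lemma plane_eq' (hp : rk p = 3) (hl : rk l = 2) (hl' : rk l' = 2) (h : l ≠ l') (h1 : l ≤ p)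
    (h2 : l' ≤ p) : l ⊔ l' = p := eq_of_rk (sup_le h1 h2) (by
  have := rk_lt (le_sup_left : l ≤ l ⊔ l') fun e =>
    h (eq_of_rk (le_sup_right.trans e) (by omega)).symm
  omega)

lemma exch (ha : rk a = 1) (hb : rk b = 1) (h : b ≤ a ⊔ W) (h' : ¬ b ≤ W) : b ⊔ W = a ⊔ W :=
  eq_of_rk (sup_le h le_sup_right) (by have := rk_sup_le a W; rw [pt_sup hb h']; omega)

lemma meet_lp (hl : rk l = 2) (hp : rk p = 3) (h : ¬ l ≤ p) : rk (l ⊓ p) = 1 := by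
  have h1 := rk_sup_inf l p
  have h2 := rk_le_four (l ⊔ p)
  have := rk_lt (inf_le_left : l ⊓ p ≤ l) fun e => h (e.trans inf_le_right)
  omega

lemma meet_ll (hp : rk p = 3) (hl : rk l = 2) (hl' : rk l' = 2) (h : l ≠ l') (h1 : l ≤ p)
    (h2 : l' ≤ p) : rk (l ⊓ l') = 1 := by
  have := rk_sup_inf l l'
  rw [plane_eq' hp hl hl' h h1 h2] at this
  omega

/-- two distinct points of a line lying in `W` force the line into `W`. -/
lemma line_le (hl : rk l = 2) (ha : rk a = 1) (hb : rk b = 1) (h : a ≠ b) (h1 : a ≤ l)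
    (h2 : b ≤ l) (h3 : a ≤ W) (h4 : b ≤ W) : l ≤ W :=
  line_eq hl ha hb h h1 h2 ▸ sup_le h3 h4

lemma pt_unique (hl : rk l = 2) (h : ¬ l ≤ W) (ha : rk a = 1) (hb : rk b = 1) (h1 : a ≤ l)
    (h2 : b ≤ l) (h3 : a ≤ W) (h4 : b ≤ W) : a = b :=
  by_contra fun e => h (line_le hl ha hb e h1 h2 h3 h4)

lemma exists_avoid {M : Type*} [AddCommGroup M] [Module ℝ M] (W : Submodule ℝ M)
    (F : Finset (Submodule ℝ M)) (h : ∀ U ∈ F, ¬ W ≤ U) : ∃ v ∈ W, ∀ U ∈ F, v ∉ U := by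
  classical
  have := Subspace.biUnion_ne_univ_of_top_notMem (k := ℝ) (E := W)
    (s := F.image fun U => U.comap W.subtype) (by
      intro hm
      obtain ⟨U, hU, e⟩ := mem_image.1 hm
      exact h U hU (Submodule.comap_subtype_eq_top.1 e))
  obtain ⟨v, hv⟩ := (Set.ne_univ_iff_exists_notMem _).1 this
  refine ⟨v, v.2, fun U hU e => hv ?_⟩
  simp only [Set.mem_iUnion]
  exact ⟨_, mem_image.2 ⟨U, hU, rfl⟩, e⟩

lemma generic (hW : 0 < rk W) (F : Finset Sub) (h : ∀ U ∈ F, ¬ W ≤ U) :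
    ∃ x, rk x = 1 ∧ x ≤ W ∧ ∀ U ∈ F, ¬ x ≤ U := by
  obtain ⟨v, hv, hF⟩ := exists_avoid W (insert ⊥ F) fun U hU => by
    rcases mem_insert.1 hU with rfl | hU
    · exact not_le_of_rk (by rw [rk_bot]; exact hW)
    · exact h U hU
  have v0 : v ≠ 0 := fun e => hF ⊥ (mem_insert_self _ _) (by simp [e])
  exact ⟨Submodule.span ℝ {v}, finrank_span_singleton v0,
    (Submodule.span_singleton_le_iff_mem _ _).2 hv, fun U hU e =>
      hF U (mem_insert_of_mem hU) ((Submodule.span_singleton_le_iff_mem _ _).1 e)⟩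

def IsPts (X : Finset Sub) : Prop := ∀ x ∈ X, rk x = 1

lemma IsPts.mono (h : IsPts X) (h' : Y ⊆ X) : IsPts Y := fun x hx => h x (h' hx)

lemma IsPts.ins (h : IsPts X) (ha : rk a = 1) : IsPts (insert a X) := fun x hx => by
  rcases mem_insert.1 hx with rfl | hx
  · exact ha
  · exact h x hx

noncomputable def lines (X : Finset Sub) : Finset Sub :=
  ((X ×ˢ X).image fun q => q.1 ⊔ q.2).filter fun W => rk W = 2

noncomputable def planes (X : Finset Sub) : Finset Sub :=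
  ((X ×ˢ lines X).image fun q => q.1 ⊔ q.2).filter fun W => rk W = 3

noncomputable def pts (X : Finset Sub) (W : Sub) : Finset Sub := X.filter (· ≤ W)

noncomputable def lns (X : Finset Sub) (W : Sub) : Finset Sub := (lines X).filter (· ≤ W)

lemma mem_pts : a ∈ pts X W ↔ a ∈ X ∧ a ≤ W := mem_filter

lemma mem_lns : l ∈ lns X W ↔ l ∈ lines X ∧ l ≤ W := mem_filter

lemma mem_lines' : l ∈ lines X ↔ rk l = 2 ∧ ∃ a ∈ X, ∃ b ∈ X, a ⊔ b = l := by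
  simp only [lines, mem_filter, mem_image, mem_product, Prod.exists]
  exact ⟨fun ⟨⟨a, b, ⟨ha, hb⟩, e⟩, h⟩ => ⟨h, a, ha, b, hb, e⟩,
    fun ⟨h, a, ha, b, hb, e⟩ => ⟨⟨a, b, ⟨ha, hb⟩, e⟩, h⟩⟩

lemma mem_planes' : p ∈ planes X ↔ rk p = 3 ∧ ∃ a ∈ X, ∃ l ∈ lines X, a ⊔ l = p := by
  simp only [planes, mem_filter, mem_image, mem_product, Prod.exists]
  exact ⟨fun ⟨⟨a, b, ⟨ha, hb⟩, e⟩, h⟩ => ⟨h, a, ha, b, hb, e⟩,
    fun ⟨h, a, ha, b, hb, e⟩ => ⟨⟨a, b, ⟨ha, hb⟩, e⟩, h⟩⟩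

lemma rk_line (h : l ∈ lines X) : rk l = 2 := (mem_lines'.1 h).1

lemma rk_plane (h : p ∈ planes X) : rk p = 3 := (mem_planes'.1 h).1

lemma mem_lines (hX : IsPts X) :
    l ∈ lines X ↔ rk l = 2 ∧ ∃ a ∈ X, ∃ b ∈ X, a ≠ b ∧ a ≤ l ∧ b ≤ l := by
  rw [mem_lines']
  refine and_congr_right fun h => ⟨?_, ?_⟩
  · rintro ⟨a, ha, b, hb, rfl⟩
    exact ⟨a, ha, b, hb, fun e => by rw [e, sup_idem, hX b hb] at h; omega, le_sup_left,
      le_sup_right⟩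
  · rintro ⟨a, ha, b, hb, e, h1, h2⟩
    exact ⟨a, ha, b, hb, line_eq h (hX a ha) (hX b hb) e h1 h2⟩

lemma mem_planes (hX : IsPts X) :
    p ∈ planes X ↔ rk p = 3 ∧ ∃ a ∈ X, ∃ l ∈ lines X, ¬ a ≤ l ∧ a ≤ p ∧ l ≤ p := by
  rw [mem_planes']
  refine and_congr_right fun h => ⟨?_, ?_⟩
  · rintro ⟨a, ha, l, hl, rfl⟩
    exact ⟨a, ha, l, hl, fun e => by rw [sup_eq_right.2 e, rk_line hl] at h; omega, le_sup_left,
      le_sup_right⟩
  · rintro ⟨a, ha, l, hl, e, h1, h2⟩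
    exact ⟨a, ha, l, hl, plane_eq h (hX a ha) (rk_line hl) e h1 h2⟩

lemma sup_mem_lines (hX : IsPts X) (ha : a ∈ X) (hb : b ∈ X) (h : a ≠ b) : a ⊔ b ∈ lines X :=
  mem_lines'.2 ⟨rk_pp (hX a ha) (hX b hb) h, a, ha, b, hb, rfl⟩

lemma sup_mem_planes (hX : IsPts X) (ha : a ∈ X) (hl : l ∈ lines X) (h : ¬ a ≤ l) :
    a ⊔ l ∈ planes X := mem_planes'.2 ⟨rk_pl (hX a ha) (rk_line hl) h, a, ha, l, hl, rfl⟩

lemma lines_mono (h : X ⊆ Y) : lines X ⊆ lines Y := fun l hl => by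
  obtain ⟨h1, a, ha, b, hb, e⟩ := mem_lines'.1 hl
  exact mem_lines'.2 ⟨h1, a, h ha, b, h hb, e⟩

lemma planes_mono (h : X ⊆ Y) : planes X ⊆ planes Y := fun l hl => by
  obtain ⟨h1, a, ha, b, hb, e⟩ := mem_planes'.1 hl
  exact mem_planes'.2 ⟨h1, a, h ha, b, lines_mono h hb, e⟩

lemma two_le_pts (hX : IsPts X) (hl : l ∈ lines X) : 2 ≤ (pts X l).card := by
  obtain ⟨-, a, ha, b, hb, e, h1, h2⟩ := (mem_lines hX).1 hl
  exact one_lt_card.2 ⟨a, mem_pts.2 ⟨ha, h1⟩, b, mem_pts.2 ⟨hb, h2⟩, e⟩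

lemma mem_lines_of_card (hX : IsPts X) (hl : rk l = 2) (h : 2 ≤ (pts X l).card) : l ∈ lines X := by
  obtain ⟨a, ha, b, hb, e⟩ := one_lt_card.1 h
  exact (mem_lines hX).2 ⟨hl, a, (mem_pts.1 ha).1, b, (mem_pts.1 hb).1, e, (mem_pts.1 ha).2,
    (mem_pts.1 hb).2⟩

lemma line_le_of_pts (hl : l ∈ lines X) (h : ∀ x ∈ X, x ≤ l → x ≤ W) : l ≤ W := by
  obtain ⟨-, a, ha, b, hb, rfl⟩ := mem_lines'.1 hl
  exact sup_le (h a ha le_sup_left) (h b hb le_sup_right)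

lemma plane_le_of_pts (hp : p ∈ planes X) (h : ∀ x ∈ X, x ≤ p → x ≤ W) : p ≤ W := by
  obtain ⟨-, a, ha, l, hl, rfl⟩ := mem_planes'.1 hp
  obtain ⟨-, b, hb, c, hc, rfl⟩ := mem_lines'.1 hl
  exact sup_le (h a ha le_sup_left) (sup_le (h b hb (le_sup_left.trans le_sup_right))
    (h c hc (le_sup_right.trans le_sup_right)))

/-- a plane of `X` contains a point of `X` off any given line. -/
lemma exists_off (hp : p ∈ planes X) (hl : rk l ≤ 2) : ∃ x ∈ X, x ≤ p ∧ ¬ x ≤ l := by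
  by_contra h
  push Not at h
  have := rk_mono (plane_le_of_pts hp h)
  rw [rk_plane hp] at this; omega

/-- a line of `X` contains a point of `X` other than a given point. -/
lemma exists_ne (hX : IsPts X) (hl : l ∈ lines X) (a : Sub) : ∃ x ∈ X, x ≤ l ∧ x ≠ a := by
  obtain ⟨-, b, hb, c, hc, e, h1, h2⟩ := (mem_lines hX).1 hl
  by_cases h : b = a
  · exact ⟨c, hc, h2, fun e' => e (h.trans e'.symm)⟩
  · exact ⟨b, hb, h1, h⟩

/-- ordered pairs of distinct points, counted along lines. -/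
lemma sum_pairs (hX : IsPts X) (S : Finset Sub) (hS : S ⊆ lines X) :
    (X.offDiag.filter fun q => q.1 ⊔ q.2 ∈ S).card
      = ∑ l ∈ S, (pts X l).card * ((pts X l).card - 1) := by
  rw [card_eq_sum_card_fiberwise (s := X.offDiag.filter fun q => q.1 ⊔ q.2 ∈ S)
    (f := fun q : Sub × Sub => q.1 ⊔ q.2) (t := S)
    (fun q hq => mem_coe.2 (mem_filter.1 (mem_coe.1 hq)).2)]
  refine sum_congr rfl fun l hl => ?_
  rw [Nat.mul_sub_one, ← offDiag_card]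
  congr 1; ext ⟨a, b⟩
  simp only [mem_filter, mem_offDiag, mem_pts]
  constructor
  · rintro ⟨⟨⟨ha, hb, e⟩, -⟩, rfl⟩
    exact ⟨⟨ha, le_sup_left⟩, ⟨hb, le_sup_right⟩, e⟩
  · rintro ⟨⟨ha, h1⟩, ⟨hb, h2⟩, e⟩
    have := line_eq (rk_line (hS hl)) (hX a ha) (hX b hb) e h1 h2
    exact ⟨⟨⟨ha, hb, e⟩, this ▸ hl⟩, this⟩

end Pool.Agent.P.MP_390d44_co
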