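import Pool.Agent.P.MP_390d44_co.Planar

/-! Crossing inequality by random colouring, and the bound on rich lines. -/

namespace Pool.Agent.P.MP_390d44_co

open Finset

lemma card_mono_col {ι : Type*} [Fintype ι] [DecidableEq ι] (k : ℕ) (T : Finset ι) (a : ι)
    (ha : a ∉ T) :
    (univ.filter fun c : ι → Fin k => ∀ t ∈ T, c t = c a).card * k ^ T.card
      = k ^ Fintype.card ι := by
  have h1 : (univ.filter fun c : ι → Fin k => ∀ t ∈ T, c t = c a).card
      = ∑ i : Fin k, (Fintype.piFinset fun x => if x ∈ insert a T then ({i} : Finset (Fin k))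
          else univ).card := by
    rw [card_eq_sum_card_fiberwise (f := fun c => c a) (t := univ) (fun _ _ => mem_univ _)]
    refine sum_congr rfl fun i _ => congrArg card ?_
    ext c
    simp only [mem_filter, mem_univ, true_and, Fintype.mem_piFinset, mem_insert]
    constructor
    · rintro ⟨h, rfl⟩ x
      split_ifs with hx
      · rcases hx with rfl | hx
        · simp
        · simp [h x hx]
      · simp
    · intro h
      have h0 : c a = i := by simpa using h a
      exact ⟨fun t ht => by have := h t; simp [ht] at this; rw [this, h0], h0⟩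
  have h2 : ∀ i : Fin k, (Fintype.piFinset fun x => if x ∈ insert a T then ({i} : Finset (Fin k))
      else univ).card = k ^ (Fintype.card ι - (T.card + 1)) := fun i => by
    rw [Fintype.card_piFinset]
    simp only [apply_ite card, card_singleton, card_univ, Fintype.card_fin]
    rw [prod_ite, prod_const_one, one_mul, prod_const]
    congr 1
    rw [← card_insert_of_notMem ha, ← card_compl]
    congr 1; ext x; simp
  have h3 : T.card + 1 ≤ Fintype.card ι := by
    rw [← card_insert_of_notMem ha]; exact card_le_univ _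
  rw [h1, sum_congr rfl fun i _ => h2 i, sum_const, card_univ, Fintype.card_fin, smul_eq_mul,
    ← pow_succ', ← pow_add]
  congr 1; omega

lemma Drawing.cross_ne {P E} (D : Drawing P E) {e f : Eg} (he : e ∈ E) (hf : f ∈ E)
    (hne : e ≠ f) (h : Cross e f) :
    e.1 ≠ f.1 ∧ e.2 ≠ f.2 ∧ e.1 ≠ f.2 ∧ e.2 ≠ f.1 := by
  obtain ⟨x, h1, h2, h3, h4, h5⟩ := h
  have a1 : e.1 ≠ f.1 := fun h => hne (D.eq_of_sl he hf h (by
    simp only [ht, h] at h5
    have : (sl e - sl f) * (x - f.1.1) = 0 := by linarith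
    rcases mul_eq_zero.1 this with h | h <;> linarith))
  refine ⟨a1, fun h => ?_, fun h => by rw [h] at h1; linarith, fun h => by rw [h] at h2; linarith⟩
  have r1 := ht_right e (D.lt e he)
  have r2 := ht_right f (D.lt f hf)
  rw [← h] at r2
  have hs : sl e = sl f := by
    simp only [ht] at h5 r1 r2
    have : (sl e - sl f) * (e.2.1 - x) = 0 := by linarith
    rcases mul_eq_zero.1 this with h | h <;> linarith
  have hh : ∀ y, ht e y = ht f y := fun y => by
    simp only [ht, hs] at h5 ⊢; linarith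
  rcases lt_trichotomy e.1.1 f.1.1 with h' | h' | h'
  · exact D.emp e he f.1 (D.l f hf) h' (by linarith) (by rw [hh, ht_left])
  · exact a1 (D.inj _ (D.l e he) _ (D.l f hf) h')
  · exact D.emp f hf e.1 (D.l e he) h' (by linarith) (by rw [← hh, ht_left])

open Classical in
noncomputable def crs (E : Finset Eg) : Finset (Eg × Eg) :=
  (E ×ˢ E).filter fun p => p.1 ≠ p.2 ∧ Cross p.1 p.2

lemma mem_crs {E : Finset Eg} {p : Eg × Eg} :
    p ∈ crs E ↔ p.1 ∈ E ∧ p.2 ∈ E ∧ p.1 ≠ p.2 ∧ Cross p.1 p.2 := by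
  simp [crs, and_assoc]

lemma base_cross {P E} (D : Drawing P E) : E.card ≤ 3 * P.card + (crs E).card := by
  classical
  set E' := E.filter fun e => ∀ f ∈ E, e ≠ f → ¬ Cross e f with hE'
  have D' : Drawing P E' := ⟨D.inj, fun e he => D.l e (mem_filter.1 he).1,
    fun e he => D.r e (mem_filter.1 he).1, fun e he => D.lt e (mem_filter.1 he).1,
    fun e he => D.emp e (mem_filter.1 he).1⟩
  have h1 := planar_bound D' fun e he f hf => (mem_filter.1 he).2 f (mem_filter.1 hf).1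
  have h2 : E ⊆ E' ∪ (crs E).image Prod.fst := fun e he => by
    by_cases h : ∀ f ∈ E, e ≠ f → ¬ Cross e f
    · exact mem_union_left _ (mem_filter.2 ⟨he, h⟩)
    · push Not at h
      obtain ⟨f, hf, h1, h2⟩ := h
      exact mem_union_right _ (mem_image.2 ⟨(e, f), mem_crs.2 ⟨he, hf, h1, h2⟩, rfl⟩)
  have h3 := (card_le_card h2).trans (card_union_le _ _)
  have h4 := card_image_le (s := crs E) (f := Prod.fst)
  omega

lemma col_cross {P E} (D : Drawing P E) {k : ℕ} (c : Pt → Fin k) :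
    (E.filter fun e => c e.2 = c e.1).card ≤ 3 * P.card +
      ((crs E).filter fun p => c p.1.2 = c p.1.1 ∧ c p.2.1 = c p.1.1 ∧ c p.2.2 = c p.1.1).card := by
  classical
  rw [card_eq_sum_card_fiberwise (f := fun e : Eg => c e.1) (t := univ) (fun _ _ => mem_univ _),
    card_eq_sum_card_fiberwise (s := P) (f := c) (t := univ) (fun _ _ => mem_univ _),
    card_eq_sum_card_fiberwise (f := fun p : Eg × Eg => c p.1.1) (t := univ)
      (fun _ _ => mem_univ _), mul_sum, ← sum_add_distrib]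
  refine sum_le_sum fun i _ => ?_
  set Ei := (E.filter fun e => c e.2 = c e.1).filter fun e => c e.1 = i with hEi
  have m : ∀ e, e ∈ Ei ↔ e ∈ E ∧ c e.2 = c e.1 ∧ c e.1 = i := fun e => by simp [hEi, and_assoc]
  have D' : Drawing (P.filter fun u => c u = i) Ei :=
    ⟨fun u hu v hv => D.inj u (mem_filter.1 hu).1 v (mem_filter.1 hv).1,
      fun e he => mem_filter.2 ⟨D.l e ((m e).1 he).1, ((m e).1 he).2.2⟩,
      fun e he => mem_filter.2 ⟨D.r e ((m e).1 he).1, ((m e).1 he).2.1.trans ((m e).1 he).2.2⟩,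
      fun e he => D.lt e ((m e).1 he).1,
      fun e he w hw => D.emp e ((m e).1 he).1 w (mem_filter.1 hw).1⟩
  refine (base_cross D').trans (Nat.add_le_add_left (card_le_card fun p hp => ?_) _)
  obtain ⟨h1, h2, h3, h4⟩ := mem_crs.1 hp
  obtain ⟨a1, a2, a3⟩ := (m _).1 h1
  obtain ⟨b1, b2, b3⟩ := (m _).1 h2
  exact mem_filter.2 ⟨mem_filter.2 ⟨mem_crs.2 ⟨a1, b1, h3, h4⟩, a2, by rw [b3, a3],
    by rw [b2, b3, a3]⟩, a3⟩

lemma sum_card_filter_comm {α β : Type*} (s : Finset α) (t : Finset β) (r : α → β → Prop)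
    [∀ a b, Decidable (r a b)] :
    ∑ a ∈ s, (t.filter fun b => r a b).card = ∑ b ∈ t, (s.filter fun a => r a b).card := by
  simp only [card_filter]; exact sum_comm

theorem crossing_ineq {P E} (D : Drawing P E) {k : ℕ} (hk : 1 ≤ k) :
    E.card * k ^ 2 ≤ 3 * P.card * k ^ 3 + (crs E).card := by
  classical
  have : NeZero k := ⟨by omega⟩
  let ext : (P → Fin k) → Pt → Fin k := fun c u => if h : u ∈ P then c ⟨u, h⟩ else 0
  have hext : ∀ c u (h : u ∈ P), ext c u = c ⟨u, h⟩ := fun c u h => dif_pos h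
  have hsum := sum_le_sum (s := (univ : Finset (P → Fin k))) fun c _ => col_cross D (ext c)
  rw [sum_add_distrib, sum_const, card_univ, Fintype.card_fun, Fintype.card_fin, smul_eq_mul,
    sum_card_filter_comm univ E, sum_card_filter_comm univ (crs E)] at hsum
  set M := k ^ Fintype.card P with hM
  have h1 : ∀ e ∈ E, (univ.filter fun c : P → Fin k => ext c e.2 = ext c e.1).card * k = M := by
    intro e he
    have hne : (⟨e.1, D.l e he⟩ : P) ∉ ({⟨e.2, D.r e he⟩} : Finset P) := by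
      have := D.lt e he
      simp only [mem_singleton, Subtype.mk.injEq]
      intro h; rw [h] at this; exact lt_irrefl _ this
    have := card_mono_col k _ _ hne
    rw [card_singleton, pow_one] at this
    rw [hM, ← this]; congr 2; ext c
    simp [hext c _ (D.l e he), hext c _ (D.r e he)]
  have h2 : ∀ p ∈ crs E, (univ.filter fun c : P → Fin k => ext c p.1.2 = ext c p.1.1 ∧
      ext c p.2.1 = ext c p.1.1 ∧ ext c p.2.2 = ext c p.1.1).card * k ^ 3 = M := by
    intro p hp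
    obtain ⟨a, b, hne, hc⟩ := mem_crs.1 hp
    obtain ⟨n1, n2, n3, n4⟩ := D.cross_ne a b hne hc
    have n5 : p.1.1 ≠ p.1.2 := fun h => by have := D.lt _ a; rw [h] at this; exact lt_irrefl _ this
    have n6 : p.2.1 ≠ p.2.2 := fun h => by have := D.lt _ b; rw [h] at this; exact lt_irrefl _ this
    have hn : (⟨p.1.1, D.l _ a⟩ : P) ∉
        ({⟨p.1.2, D.r _ a⟩, ⟨p.2.1, D.l _ b⟩, ⟨p.2.2, D.r _ b⟩} : Finset P) := by
      simp [n1, n3, n5]
    have := card_mono_col k _ _ hn
    rw [card_eq_three.2 ⟨_, _, _, by simpa using n4, by simpa using n2, by simpa using n6, rfl⟩]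
      at this
    rw [hM, ← this]; congr 2; ext c
    simp [hext c _ (D.l _ a), hext c _ (D.r _ a), hext c _ (D.l _ b), hext c _ (D.r _ b)]
  have hM0 : 0 < M := pow_pos (by omega) _
  have e1 : (∑ e ∈ E, (univ.filter fun c : P → Fin k => ext c e.2 = ext c e.1).card) * k
      = E.card * M := by rw [sum_mul, sum_congr rfl h1, sum_const, smul_eq_mul]
  have e2 : (∑ p ∈ crs E, (univ.filter fun c : P → Fin k => ext c p.1.2 = ext c p.1.1 ∧
      ext c p.2.1 = ext c p.1.1 ∧ ext c p.2.2 = ext c p.1.1).card) * k ^ 3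
      = (crs E).card * M := by rw [sum_mul, sum_congr rfl h2, sum_const, smul_eq_mul]
  have h3 := Nat.mul_le_mul_right (k ^ 3) hsum
  rw [add_mul, e2, pow_succ' k 2, ← mul_assoc, e1] at h3
  refine Nat.le_of_mul_le_mul_right ?_ hM0
  calc E.card * k ^ 2 * M = E.card * M * k ^ 2 := by ring
    _ ≤ _ := h3
    _ = _ := by ring

/-- points of `P` on the line `y = g.1 * x + g.2`. -/
noncomputable def onl (P : Finset Pt) (g : Pt) : Finset Pt :=
  P.filter fun u => u.2 = g.1 * u.1 + g.2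

lemma mem_onl {P : Finset Pt} {g u : Pt} : u ∈ onl P g ↔ u ∈ P ∧ u.2 = g.1 * u.1 + g.2 :=
  mem_filter

open Classical in
noncomputable def consec (P : Finset Pt) (g : Pt) : Finset Eg :=
  (onl P g ×ˢ onl P g).filter fun e => e.1.1 < e.2.1 ∧
    ∀ w ∈ onl P g, e.1.1 < w.1 → e.2.1 ≤ w.1

lemma mem_consec {P : Finset Pt} {g : Pt} {e : Eg} : e ∈ consec P g ↔
    e.1 ∈ onl P g ∧ e.2 ∈ onl P g ∧ e.1.1 < e.2.1 ∧ ∀ w ∈ onl P g, e.1.1 < w.1 → e.2.1 ≤ w.1 := by
  simp [consec, and_assoc]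

lemma ht_consec {P : Finset Pt} {g : Pt} {e : Eg} (he : e ∈ consec P g) (x : ℝ) :
    ht e x = g.1 * x + g.2 := by
  obtain ⟨h1, h2, h3, -⟩ := mem_consec.1 he
  have : sl e = g.1 := by
    have h : e.2.1 - e.1.1 ≠ 0 := by linarith
    rw [sl, (mem_onl.1 h1).2, (mem_onl.1 h2).2]; field_simp; ring
  rw [ht, this, (mem_onl.1 h1).2]; ring

lemma line_eq_of_two {g g' : Pt} {x y : ℝ} (hxy : x ≠ y) (h1 : g.1 * x + g.2 = g'.1 * x + g'.2)
    (h2 : g.1 * y + g.2 = g'.1 * y + g'.2) : g = g' := by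
  have : (g.1 - g'.1) * (x - y) = 0 := by linarith
  rcases mul_eq_zero.1 this with h | h
  · have h3 : g.1 = g'.1 := by linarith
    exact Prod.ext h3 (by rw [h3] at h1; linarith)
  · exact absurd (by linarith) hxy

lemma card_consec (P : Finset Pt) (g : Pt) : (onl P g).card ≤ (consec P g).card + 1 := by
  classical
  rcases (onl P g).eq_empty_or_nonempty with h | h
  · simp [h]
  obtain ⟨m, hm, hmax⟩ := exists_max_image (onl P g) (fun u => u.1) h
  have : (onl P g).erase m ⊆ (consec P g).image Prod.fst := fun u hu => by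
    obtain ⟨hne, hu⟩ := mem_erase.1 hu
    have hlt : u.1 < m.1 := lt_of_le_of_ne (hmax u hu) fun h =>
      hne (Prod.ext h (by rw [(mem_onl.1 hu).2, (mem_onl.1 hm).2, h]))
    obtain ⟨v, hv, hmin⟩ := exists_min_image ((onl P g).filter fun w => u.1 < w.1) (fun w => w.1)
      ⟨m, mem_filter.2 ⟨hm, hlt⟩⟩
    exact mem_image.2 ⟨(u, v), mem_consec.2 ⟨hu, (mem_filter.1 hv).1, (mem_filter.1 hv).2,
      fun w hw h => hmin w (mem_filter.2 ⟨hw, h⟩)⟩, rfl⟩
  have h1 := (card_le_card this).trans card_image_le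
  rw [card_erase_of_mem hm] at h1
  omega

lemma consec_unique {P : Finset Pt} {g : Pt} {e f : Eg} (he : e ∈ consec P g)
    (hf : f ∈ consec P g) {x : ℝ} (h1 : e.1.1 < x) (h2 : x < e.2.1) (h3 : f.1.1 < x)
    (h4 : x < f.2.1) : e = f := by
  obtain ⟨a1, a2, a3, a4⟩ := mem_consec.1 he
  obtain ⟨b1, b2, b3, b4⟩ := mem_consec.1 hf
  have pt : ∀ u v, u ∈ onl P g → v ∈ onl P g → u.1 = v.1 → u = v := fun u v hu hv h =>
    Prod.ext h (by rw [(mem_onl.1 hu).2, (mem_onl.1 hv).2, h])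
  have l : e.1.1 = f.1.1 := by
    rcases lt_trichotomy e.1.1 f.1.1 with h | h | h
    · linarith [a4 _ b1 h]
    · exact h
    · linarith [b4 _ a1 h]
  exact Prod.ext (pt _ _ a1 b1 l)
    (pt _ _ a2 b2 (le_antisymm (a4 _ b2 (by linarith)) (b4 _ a2 (by linarith))))

theorem st_ineq (P : Finset Pt) (hP : ∀ u ∈ P, ∀ v ∈ P, u.1 = v.1 → u = v) (G : Finset Pt)
    {t k : ℕ} (hk : 1 ≤ k) (h : ∀ g ∈ G, t + 1 ≤ (onl P g).card) :
    t * G.card * k ^ 2 ≤ 3 * P.card * k ^ 3 + G.card ^ 2 := by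
  classical
  set E := G.biUnion (consec P) with hE
  have hm : ∀ e ∈ E, ∃ g ∈ G, e ∈ consec P g := fun e he => mem_biUnion.1 he
  have D : Drawing P E := ⟨hP, fun e he => by
      obtain ⟨g, -, h⟩ := hm e he; exact (mem_onl.1 (mem_consec.1 h).1).1,
    fun e he => by obtain ⟨g, -, h⟩ := hm e he; exact (mem_onl.1 (mem_consec.1 h).2.1).1,
    fun e he => by obtain ⟨g, -, h⟩ := hm e he; exact (mem_consec.1 h).2.2.1,
    fun e he w hw h1 h2 h3 => by
      obtain ⟨g, -, h⟩ := hm e he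
      rw [ht_consec h] at h3
      exact absurd ((mem_consec.1 h).2.2.2 w (mem_onl.2 ⟨hw, h3⟩) h1) (not_le.2 h2)⟩
  have uniq : ∀ e g g', e ∈ consec P g → e ∈ consec P g' → g = g' := fun e g g' h1 h2 =>
    line_eq_of_two (x := 0) (y := 1) (by norm_num) (by rw [← ht_consec h1, ← ht_consec h2])
      (by rw [← ht_consec h1, ← ht_consec h2])
  have c1 : t * G.card ≤ E.card := by
    rw [hE, card_biUnion fun g _ g' _ hne => disjoint_left.2 fun e h1 h2 => hne (uniq e g g' h1 h2)]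
    rw [mul_comm, ← smul_eq_mul]
    exact card_nsmul_le_sum _ _ _ fun g hg => by have := card_consec P g; have := h g hg; omega
  choose! ln hln using hm
  have c2 : (crs E).card ≤ G.card ^ 2 := by
    rw [sq, ← card_product]
    refine card_le_card_of_injOn (fun p => (ln p.1, ln p.2)) (fun p hp => ?_) ?_
    · obtain ⟨a, b, -⟩ := mem_crs.1 hp
      exact mem_coe.2 (mem_product.2 ⟨(hln _ a).1, (hln _ b).1⟩)
    intro p hp q hq hpq
    obtain ⟨a, b, hne, x, x1, x2, x3, x4, x5⟩ := mem_crs.1 hp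
    obtain ⟨a', b', -, y, y1, y2, y3, y4, y5⟩ := mem_crs.1 hq
    obtain ⟨e1, e2⟩ := Prod.mk.inj hpq
    have hg : ln p.1 ≠ ln p.2 := fun hg =>
      hne (consec_unique (hln _ a).2 (hg ▸ (hln _ b).2) x1 x2 x3 x4)
    rw [ht_consec (hln _ a).2, ht_consec (hln _ b).2] at x5
    rw [ht_consec (hln _ a').2, ht_consec (hln _ b').2, ← e1, ← e2] at y5
    have hxy : x = y := by_contra fun h => hg (line_eq_of_two h x5 y5)
    subst hxy
    exact Prod.ext (consec_unique (hln _ a).2 (e1 ▸ (hln _ a').2) x1 x2 y1 y2)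
      (consec_unique (hln _ b).2 (e2 ▸ (hln _ b').2) x3 x4 y3 y4)
  have := crossing_ineq D hk
  calc t * G.card * k ^ 2 ≤ E.card * k ^ 2 := Nat.mul_le_mul_right _ c1
    _ ≤ _ := this
    _ ≤ _ := Nat.add_le_add_left c2 _

lemma rich_of_ineq {n L t : ℕ} (ht : 1 ≤ t) (hn : 1 ≤ n)
    (h : ∀ k, 1 ≤ k → t * L * k ^ 2 ≤ 3 * n * k ^ 3 + L ^ 2) :
    (L : ℝ) ≤ 288 * n ^ 2 / t ^ 3 + 6 * n / t := by
  have t0 : (0 : ℝ) < t := by exact_mod_cast ht
  have n0 : (0 : ℝ) < n := by exact_mod_cast hn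
  have p1 : (0 : ℝ) ≤ 288 * n ^ 2 / t ^ 3 := by positivity
  have p2 : (0 : ℝ) ≤ 6 * n / t := by positivity
  set k := t * L / (6 * n) with hk
  have d1 : 6 * n * k ≤ t * L := Nat.mul_div_le _ _
  have d2 : t * L < 6 * n * (k + 1) := Nat.lt_mul_div_succ _ (by omega)
  rcases Nat.eq_zero_or_pos k with h0 | h0
  · rw [h0] at d2
    have : (t : ℝ) * L < 6 * n := by exact_mod_cast (by simpa using d2)
    have : (L : ℝ) ≤ 6 * n / t := by rw [le_div_iff₀ t0]; linarith
    linarith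
  have h1 := h k h0
  have L0 : 0 < L := by
    rcases Nat.eq_zero_or_pos L with h | h
    · rw [h] at hk; simp at hk; omega
    · exact h
  have h2 : t * k ^ 2 ≤ 2 * L := by
    refine Nat.le_of_mul_le_mul_right (c := L) ?_ L0
    have : 6 * n * k * k ^ 2 ≤ t * L * k ^ 2 := Nat.mul_le_mul_right _ d1
    nlinarith
  have h3 : t * L ≤ 12 * n * k := by nlinarith
  have h4 : t ^ 3 * L ≤ 288 * n ^ 2 := by
    refine Nat.le_of_mul_le_mul_right (c := L) ?_ L0
    calc t ^ 3 * L * L = t * (t * L) ^ 2 := by ring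
      _ ≤ t * (12 * n * k) ^ 2 := Nat.mul_le_mul_left _ (Nat.pow_le_pow_left h3 2)
      _ = 144 * n ^ 2 * (t * k ^ 2) := by ring
      _ ≤ 144 * n ^ 2 * (2 * L) := Nat.mul_le_mul_left _ h2
      _ = _ := by ring
  have : (L : ℝ) ≤ 288 * n ^ 2 / t ^ 3 := by
    rw [le_div_iff₀ (by positivity)]
    have : ((t ^ 3 * L : ℕ) : ℝ) ≤ (288 * n ^ 2 : ℕ) := by exact_mod_cast h4
    push_cast at this; linarith
  linarith

theorem st_rich (P : Finset Pt) (hP : ∀ u ∈ P, ∀ v ∈ P, u.1 = v.1 → u = v) (G : Finset Pt)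
    {t : ℕ} (ht : 1 ≤ t) (hn : 1 ≤ P.card) (h : ∀ g ∈ G, t + 1 ≤ (onl P g).card) :
    (G.card : ℝ) ≤ 288 * P.card ^ 2 / t ^ 3 + 6 * P.card / t :=
  rich_of_ineq ht hn fun _ hk => st_ineq P hP G hk h

end Pool.Agent.P.MP_390d44_co
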