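import Pool.Agent.P.MP_390d44_co.New

/-! Configurations with tracked special points on the line `L`. -/

namespace Pool.Agent.P.MP_390d44_co

open Finset

variable {a b c c0 l l' p p' q x y z A B W L : Sub} {X X' Y Z Q S : Finset Sub}

structure Base (X : Finset Sub) (L c0 : Sub) : Prop where
  ip : IsPts X
  ln : L ∈ lines X
  two : (pts X L).card = 2
  c0r : rk c0 = 3
  c0L : L ≤ c0

structure Tr (X : Finset Sub) (L c0 q : Sub) (k w : ℕ) : Prop where
  pt : rk q = 1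
  le : q ≤ L
  nm : q ∉ X
  cd : (vv (off X L) q).card = k
  sub : ∀ z ∈ vv (off X L) q, z ≤ c0
  wt : wt (off X L) L q = w + k * (off (off X L) c0).card

lemma hoff' : ∀ z ∈ off X L, ¬ z ≤ L := fun _ hz => (mem_off.1 hz).2

lemma Base.ins (B : Base X L c0) (h : Av x X) : Base (insert x X) L c0 :=
  ⟨B.ip.ins h.pt, lines_mono (subset_insert _ _) B.ln,
    by rw [pts_ins_of_not (h.nl _ B.ln), B.two], B.c0r, B.c0L⟩

lemma Tr.step {k w : ℕ} (B : Base X L c0) (T : Tr X L c0 q k w) (h : Av x (insert q X))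
    (hp : ∀ p ∈ planes (insert q X), x ≤ p → q ≤ p → L ≤ p) : Tr (insert x X) L c0 q k w := by
  have hx : ¬ x ≤ L := h.nl _ (lines_mono (subset_insert _ _) B.ln)
  have hZ := B.ip.mono (off_sub (X := X) (L := L))
  have sub : insert q (off X L) ⊆ insert q X := insert_subset_insert _ off_sub
  have e := vv_ins hZ T.pt (fun e => T.nm (off_sub e)) (h.mono sub)
  have r := rk_line B.ln
  refine ⟨T.pt, T.le, fun e => ?_, by rw [off_ins_of_not hx, e, T.cd],
    by rw [off_ins_of_not hx, e]; exact T.sub, ?_⟩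
  · rcases mem_insert.1 e with e | e
    exacts [hx (e ▸ T.le), T.nm e]
  rw [off_ins_of_not hx, wt_ins hZ r hoff' T.pt T.le hx (h.mono sub)
    fun p hp' => hp p (planes_mono sub hp'), T.wt]
  by_cases e : x ≤ c0
  · rw [off_ins_of_le e, plane_eq B.c0r h.pt r hx e B.c0L, show off (vv (off X L) q) c0 = ∅ from
      filter_false_of_mem fun z hz => not_not.2 (T.sub z hz)]; rfl
  · rw [off_ins_of_not e, card_insert_of_notMem fun e => h.nm (mem_insert_of_mem
      (off_sub (off_sub e))), off_self (Z := vv _ _) fun z hz e' => e ?_, T.cd]; ring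
    have z1 := (mem_filter.1 hz).1
    rw [← cls_eq hZ r hoff' B.c0r B.c0L z1 (T.sub z hz),
      cls_eq hZ r hoff' (rk_pl h.pt r hx) le_sup_right z1 e']
    exact le_sup_left

def Keep (X X' : Finset Sub) (L c0 : Sub) (Q : Finset Sub) : Prop :=
  ∀ q ∈ Q, ∀ k w, Tr X L c0 q k w → Tr X' L c0 q k w

lemma isPts_union (hX : IsPts X) (hQ : IsPts Q) : IsPts (X ∪ Q) := fun u hu => by
  rcases mem_union.1 hu with hu | hu
  exacts [hX u hu, hQ u hu]

lemma gstep (B : Base X L c0) (hQ : IsPts Q) (hc : 2 ≤ rk c) (hl : c ∉ lines (X ∪ Q))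
    (hq : ∀ q ∈ Q, q ≤ L → q ∉ X → ∀ p, rk p = 3 → c ≤ p → q ≤ p → L ≤ p) :
    ∃ x, x ≤ c ∧ Av x (X ∪ Q) ∧ (∀ p ∈ planes (X ∪ Q), x ≤ p → c ≤ p) ∧
      Keep X (insert x X) L c0 Q := by
  obtain ⟨x, h1, h2, h3⟩ := gen (isPts_union B.ip hQ) hc hl
  refine ⟨x, h1, h2, h3, fun q hq' k w T => ?_⟩
  have sub : insert q X ⊆ X ∪ Q := insert_subset (mem_union_right _ hq') subset_union_left
  exact T.step B (h2.mono sub) fun p p1 p2 p3 =>
    hq q hq' T.le T.nm p (rk_plane p1) (h3 p (planes_mono sub p1) p2) p3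

lemma not_line (hc : 3 ≤ rk c) : c ∉ lines X := fun e => by have := rk_line e; omega

def Many (X : Finset Sub) (L c0 : Sub) (k w U : ℕ) : Prop :=
  ∃ Q : Finset Sub, Q.card = U ∧ ∀ q ∈ Q, Tr X L c0 q k w

def All (X : Finset Sub) (L c0 : Sub) (U2 U1 U3 : ℕ) : Prop :=
  Many X L c0 2 0 U2 ∧ Many X L c0 3 0 U1 ∧ Many X L c0 0 3 U3

lemma Many.track {k w U : ℕ} (h : Many X L c0 k w U) : ∃ Q, (∀ q ∈ Q, Tr X L c0 q k w) ∧
    ∀ X' Q' N : Finset Sub, Q ⊆ Q' → Keep X X' L c0 Q' → (∀ q ∈ N, q ∉ Q' ∧ Tr X' L c0 q k w) →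
      Many X' L c0 k w (U + N.card) := by
  obtain ⟨Q, h1, h2⟩ := h
  refine ⟨Q, h2, fun X' Q' N s K hN => ⟨Q ∪ N, by
    rw [card_union_of_disjoint (disjoint_right.2 fun q hq e => (hN q hq).1 (s e)), h1],
    fun q hq => ?_⟩⟩
  rcases mem_union.1 hq with hq | hq
  exacts [K q (s hq) k w (h2 q hq), (hN q hq).2]

lemma All.track {U2 U1 U3 : ℕ} (h : All X L c0 U2 U1 U3) :
    ∃ Q, (∀ q ∈ Q, rk q = 1 ∧ q ≤ L ∧ q ∉ X) ∧
    ∀ X' Q' N2 N3 : Finset Sub, Q ⊆ Q' → Keep X X' L c0 Q' →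
      (∀ q ∈ N2, q ∉ Q' ∧ Tr X' L c0 q 2 0) → (∀ q ∈ N3, q ∉ Q' ∧ Tr X' L c0 q 0 3) →
      All X' L c0 (U2 + N2.card) U1 (U3 + N3.card) := by
  obtain ⟨Q2, a2, b2⟩ := h.1.track
  obtain ⟨Q1, a1, b1⟩ := h.2.1.track
  obtain ⟨Q3, a3, b3⟩ := h.2.2.track
  refine ⟨Q2 ∪ Q1 ∪ Q3, fun q hq => ?_, fun X' Q' N2 N3 s K n2 n3 =>
    ⟨b2 X' Q' N2 ((subset_union_left.trans subset_union_left).trans s) K n2,
     b1 X' Q' ∅ ((subset_union_right.trans subset_union_left).trans s) K (by simp),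
     b3 X' Q' N3 (subset_union_right.trans s) K n3⟩⟩
  simp only [mem_union] at hq
  rcases hq with (hq | hq) | hq
  exacts [⟨(a2 q hq).pt, (a2 q hq).le, (a2 q hq).nm⟩, ⟨(a1 q hq).pt, (a1 q hq).le, (a1 q hq).nm⟩,
    ⟨(a3 q hq).pt, (a3 q hq).le, (a3 q hq).nm⟩]

structure Core (X : Finset Sub) (L c0 : Sub) (j e δ D b : ℕ) : Prop extends Base X L c0 where
  c0p : c0 ∈ planes X
  nz : (off X L).card = j
  nl : (lines X).card + e = (j + 2).choose 2
  np : (planes X).card + δ = (j + 2).choose 3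
  ns : (skew (off X L) L).card + D = j.choose 2
  nb : (off (off X L) c0).card = b
  sk2 : ∀ l ∈ skew (off X L) L, (pts (off X L) l).card = 2

lemma ch2 (n : ℕ) : (n + 1).choose 2 = n.choose 2 + n := by
  rw [Nat.choose_succ_succ' n 1, Nat.choose_one_right, add_comm]

lemma ch3 (n : ℕ) : (n + 1).choose 3 = n.choose 3 + n.choose 2 := by
  rw [Nat.choose_succ_succ' n 2, add_comm]

variable {j e δ D n U2 U1 U3 : ℕ}

lemma Core.card (C : Core X L c0 j e δ D n) : X.card = j + 2 := by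
  have := card_pts_off X L; have := C.two; have := C.nz; omega

lemma Core.step (C : Core X L c0 j e δ D n) (h : Av x X) (hx : ¬ x ≤ c0) {u m : ℕ}
    (hu : ∑ p ∈ (planes X).filter (x ≤ ·), (lns X p).card = u)
    (hm : (pts (off X L) (x ⊔ L)).card = m) :
    Core (insert x X) L c0 (j + 1) e (δ + e + u) (D + m) (n + 1) := by
  have hL : ¬ x ≤ L := h.nl _ C.ln
  have hZ := C.ip.mono (off_sub (X := X) (L := L))
  have h' := h.mono (off_sub (X := X) (L := L))
  have r := rk_line C.ln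
  have h1 := card_lines_ins C.ip h
  have h2 := card_planes_ins C.ip h
  have h3 := card_skew_ins hZ h' r hL
  have := C.card; have := C.nl; have := C.np; have := C.ns; have := C.nz
  refine ⟨C.toBase.ins h, planes_mono (subset_insert _ _) C.c0p, ?_, ?_, ?_, ?_, ?_, ?_⟩
  · rw [off_ins_of_not hL, card_insert_of_notMem h'.nm, C.nz]
  · rw [add_right_comm j, ch2]; omega
  · rw [add_right_comm j, ch3]; omega
  · rw [off_ins_of_not hL, ch2]; omega
  · rw [off_ins_of_not hL, off_ins_of_not hx, card_insert_of_notMem fun e => h'.nm (off_sub e), C.nb]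
  · rw [off_ins_of_not hL]; exact skew_two hZ h' r hL C.sk2

lemma card_pts_cls (h : L ≤ c) : (pts X c).card = (pts X L).card + (pts (off X L) c).card := by
  rw [← card_pts_off (pts X c) L, pts_pts h, off_pts]; rfl

def St (j e δ D n U2 U1 U3 : ℕ) : Prop :=
  ∃ X L c0, Core X L c0 j e δ D n ∧ All X L c0 U2 U1 U3

structure InC (X : Finset Sub) (L c0 c : Sub) (S : Finset Sub) (i : ℕ) : Prop where
  r : rk c = 3
  le : L ≤ c
  ne : c ≠ c0
  np : (pts (off X L) c).card = i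
  nl : (lns X c).card = (i + 2).choose 2
  hc : ∀ l ∈ S, Hc (off X L) L c l

lemma cls_step {i : ℕ} (C : Core X L c0 j e δ D n) (hA : All X L c0 U2 U1 U3)
    (I : InC X L c0 c S i) : ∃ X', Core X' L c0 (j + 1) e
      (δ + e + if i = 0 then 0 else (i + 2).choose 2) (D + i) (n + 1) ∧
      All X' L c0 U2 U1 (U3 + S.card) ∧ InC X' L c0 c S (i + 1) := by
  obtain ⟨Q, hQ, hK⟩ := hA.track
  have r := rk_line C.ln
  have hZ := C.ip.mono (off_sub (X := X) (L := L))
  set Q' := Q ∪ ((pz (off X L) L).image (L ⊓ ·) ∪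
    ((lines (off X L)).filter fun l => ¬ l ≤ c).image (· ⊓ c)) with hQ'
  have iQ : IsPts Q' := fun u hu => by
    simp only [hQ', mem_union, mem_image, mem_filter] at hu
    rcases hu with hu | ⟨p, hp, rfl⟩ | ⟨l, hl, rfl⟩
    exacts [(hQ u hu).1, meet_lp r (rk_plane (mem_pz.1 hp).1) (mem_pz.1 hp).2,
      meet_lp (rk_line hl.1) I.r hl.2]
  obtain ⟨x, x1, x2, x3, x4⟩ := gstep C.toBase iQ (c := c) (by rw [I.r]; omega) (not_line I.r.ge)
    fun q _ _ _ p _ h _ => I.le.trans h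
  have h := x2.mono (subset_union_left (s₁ := X))
  have h' := h.mono (off_sub (X := X) (L := L))
  have hL : ¬ x ≤ L := h.nl _ C.ln
  have ec := plane_eq I.r h.pt r hL x1 I.le
  have x0 : ¬ x ≤ c0 := fun e =>
    hL ((le_inf x1 e).trans (le_of_planes I.r C.c0r I.ne r I.le C.c0L))
  have n3 := fun l (hl : l ∈ S) => new3 (isPts_union C.ip iQ) (off_sub.trans subset_union_left) r
    hoff' I.r I.le x2 x1 hL x3
    (fun p hp => mem_union_right _ (mem_union_right _ (mem_union_left _ (mem_image_of_mem _ hp))))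
    (fun l hl e => mem_union_right _ (mem_union_right _ (mem_union_right _ (mem_image_of_mem _
      (mem_filter.2 ⟨hl, e⟩))))) (I.hc l hl) (C.sk2 l (I.hc l hl).sk)
  refine ⟨insert x X, C.step h x0 ?_ (by rw [ec, I.np]), ?_, I.r, I.le, I.ne, ?_, ?_, ?_⟩
  · have e1 : ∀ p ∈ planes X, x ≤ p → p = c := fun p hp e => (eq_of_rk
      (x3 p (planes_mono subset_union_left hp) e) (by rw [rk_plane hp, I.r])).symm
    split_ifs with hi
    · refine sum_eq_zero fun p hp => ?_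
      obtain ⟨p1, p2⟩ := mem_filter.1 hp
      obtain ⟨u, hu, u1, u2⟩ := exists_off p1 r.le
      have := card_pos.2 ⟨u, mem_pts.2 ⟨mem_off.2 ⟨hu, u2⟩, e1 p p1 p2 ▸ u1⟩⟩
      have := I.np; omega
    · obtain ⟨u, hu⟩ := card_pos.1 (show 0 < (pts (off X L) c).card by have := I.np; omega)
      obtain ⟨u1, u2⟩ := mem_pts.1 hu
      have hc : c ∈ planes X := cls_eq hZ r hoff' I.r I.le u1 u2 ▸
        sup_mem_planes C.ip (off_sub u1) C.ln (hoff' u u1)
      rw [show (planes X).filter (x ≤ ·) = {c} from eq_singleton_iff_unique_mem.2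
        ⟨mem_filter.2 ⟨hc, x1⟩, fun p hp => e1 p (mem_filter.1 hp).1 (mem_filter.1 hp).2⟩,
        sum_singleton, I.nl]
  · have := hK (insert x X) Q' ∅ (S.image fun l => L ⊓ (x ⊔ l)) subset_union_left x4 (by simp)
      fun q hq => by
        obtain ⟨l, hl, rfl⟩ := mem_image.1 hq
        obtain ⟨t1, t2, t3, t4, -⟩ := n3 l hl
        refine ⟨fun e => t2 (mem_union_right _ e), t1, inf_le_left, fun e => ?_, ?_, ?_, ?_⟩
        · rcases mem_insert.1 e with e | e
          exacts [hL (e ▸ inf_le_left), t2 (mem_union_left _ e)]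
        all_goals rw [off_ins_of_not hL]
        · rw [t3, card_empty]
        · rw [t3]; simp
        · rw [t4]; simp
    rwa [card_image_of_injOn fun l hl l' hl' e => ((n3 l hl).2.2.2.2 l' (I.hc l' hl').sk e).symm]
      at this
  · rw [off_ins_of_not hL, pts_ins_of_le x1, card_insert_of_notMem fun e => h'.nm (pts_sub e), I.np]
  · rw [card_lns_ins C.ip h x1, I.nl, card_pts_cls I.le, C.two, I.np, add_right_comm i,
      ch2 (i + 2), add_comm 2]
  · rw [off_ins_of_not hL]; exact fun l hl => (I.hc l hl).ins hZ r I.r I.le h' x1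

theorem St.cls (h : St j e δ D n U2 U1 U3) {k s δ' : ℕ} (hk : 1 ≤ k) (hs : s + D = j.choose 2)
    (hδ : δ' + 1 = δ + (k + 2).choose 3 + k * e) :
    St (j + k) e δ' (D + k.choose 2) (n + k) U2 U1 (U3 + k * s) := by
  obtain ⟨X, L, c0, C, hA⟩ := h
  have r := rk_line C.ln
  obtain ⟨c, c1, c2, c3, c4, c5⟩ := gen_class (C.ip.mono off_sub) r hoff' C.c0r C.c0L
  have I : InC X L c0 c (skew (off X L) L) 0 := by
    refine ⟨c1, c2, c3, card_eq_zero.2 (filter_eq_empty_iff.2 c4), card_eq_one.2 ⟨L, ?_⟩, c5⟩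
    refine eq_singleton_iff_unique_mem.2 ⟨mem_lns.2 ⟨C.ln, c2⟩, fun l hl => ?_⟩
    obtain ⟨l1, l2⟩ := mem_lns.1 hl
    exact eq_of_rk (line_le_of_pts l1 fun u hu e => by_contra fun e' =>
      c4 u (mem_off.2 ⟨hu, e'⟩) (e.trans l2)) (by rw [r, rk_line l1])
  obtain rfl : s = (skew (off X L) L).card := by have := C.ns; omega
  generalize skew (off X L) L = S at *
  have key : ∀ k δ', δ' + min k 1 = δ + (k + 2).choose 3 + k * e → ∃ X', Core X' L c0 (j + k) e δ'
      (D + k.choose 2) (n + k) ∧ All X' L c0 U2 U1 (U3 + k * S.card) ∧ InC X' L c0 c S k := by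
    intro k
    induction k with
    | zero => intro δ' h; obtain rfl : δ' = δ := by simpa using h
              exact ⟨X, C, by simpa, I⟩
    | succ k ih =>
      intro δ' h
      have p1 : min k 1 ≤ (k + 2).choose 3 := by
        rcases k with _ | k
        · simp
        · have := Nat.choose_pos (show 3 ≤ k + 1 + 2 by omega); omega
      obtain ⟨X', C', A', I'⟩ := ih (δ + (k + 2).choose 3 + k * e - min k 1) (by omega)
      obtain ⟨X2, C2, A2, I2⟩ := cls_step C' A' I'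
      refine ⟨X2, ?_, by rwa [add_mul, one_mul, ← add_assoc], I2⟩
      have e1 : δ' = δ + (k + 2).choose 3 + k * e - min k 1 + e +
          if k = 0 then 0 else (k + 2).choose 2 := by
        rw [add_right_comm k, ch3, add_mul] at h
        split_ifs with h0
        · subst h0; simp at h ⊢; omega
        · omega
      rw [e1, ch2 k, ← add_assoc D]; exact C2
  obtain ⟨X', C', A', -⟩ := key k δ' (by omega)
  exact ⟨X', L, c0, C', A'⟩

theorem St.finish (h : St j e δ D n U2 U1 U3) {u2 u1 u3 M s p : ℕ} (h2 : u2 ≤ U2) (h1 : u1 ≤ U1)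
    (h3 : u3 ≤ U3) (hM : u2 + u1 + u3 ≤ M) (hs : s + D = j.choose 2)
    (hp : p + 2 * n * u2 + 3 * n * u1 + 3 * u3 + δ = (j + 2).choose 3 + M * s) :
    Real (j + 2 + M) p := by
  obtain ⟨X, L, c0, C, ⟨Q2, rfl, t2⟩, ⟨Q1, rfl, t1⟩, Q3, rfl, t3⟩ := h
  obtain ⟨A2, s2, rfl⟩ := exists_subset_card_eq h2
  obtain ⟨A1, s1, rfl⟩ := exists_subset_card_eq h1
  obtain ⟨A3, s3, rfl⟩ := exists_subset_card_eq h3
  have d1 : Disjoint A2 A1 := disjoint_left.2 fun q a b => by
    have := (t2 q (s2 a)).cd; have := (t1 q (s1 b)).cd; omega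
  have d2 : Disjoint (A2 ∪ A1) A3 := disjoint_left.2 fun q a b => by
    have := (t3 q (s3 b)).cd
    rcases mem_union.1 a with a | a
    · have := (t2 q (s2 a)).cd; omega
    · have := (t1 q (s1 a)).cd; omega
  rw [← C.card]
  refine finish C.ip C.ln (A2 ∪ A1 ∪ A3) (fun q hq => ?_)
    (by rw [card_union_of_disjoint d2, card_union_of_disjoint d1]; exact hM) ?_
  · simp only [mem_union] at hq
    rcases hq with (hq | hq) | hq
    exacts [⟨(t2 q (s2 hq)).pt, (t2 q (s2 hq)).le, (t2 q (s2 hq)).nm⟩,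
      ⟨(t1 q (s1 hq)).pt, (t1 q (s1 hq)).le, (t1 q (s1 hq)).nm⟩,
      ⟨(t3 q (s3 hq)).pt, (t3 q (s3 hq)).le, (t3 q (s3 hq)).nm⟩]
  · rw [sum_union d2, sum_union d1, sum_congr rfl fun q hq => (t2 q (s2 hq)).wt,
      sum_congr rfl fun q hq => (t1 q (s1 hq)).wt, sum_congr rfl fun q hq => (t3 q (s3 hq)).wt]
    have := C.np
    obtain rfl : s = (skew (off X L) L).card := by have := C.ns; omega
    simp only [sum_const, smul_eq_mul, C.nb]
    linarith

end Pool.Agent.P.MP_390d44_co
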